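import Mathlib

/-!
# Linear renewal equations: elementary inequalities
-/

set_option autoImplicit false

namespace Pool.Agent.H148.EW

open Finset

/-- A discrete Gronwall inequality for renewal type recursions. -/
lemma renewal_ineq {x y β : ℕ → ℝ} {α R : ℝ} (hR : 0 < R) (hα : 0 ≤ α)
    (hβ : ∀ k, 0 ≤ β k) (hy : ∀ n, 0 ≤ y n) (hx0 : 0 ≤ x 0)
    (hsum : ∀ n, α + ∑ k ∈ range n, β k * (R⁻¹) ^ (k + 1) ≤ R)
    (hrec : ∀ n, x (n + 1) ≤ α * x n + ∑ k ∈ range n, β k * x (n - 1 - k) + y n) :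
    ∀ n, x n ≤ R ^ n * (x 0 + ∑ j ∈ range n, y j * (R⁻¹) ^ (j + 1)) := by
  intro n
  have hRi : 0 < R⁻¹ := inv_pos.mpr hR
  set C : ℕ → ℝ := fun n => x 0 + ∑ j ∈ range n, y j * (R⁻¹) ^ (j + 1) with hC
  have hCmono : ∀ m n, m ≤ n → C m ≤ C n := by
    intro m n hmn
    simp only [hC]
    have : ∑ j ∈ range m, y j * (R⁻¹) ^ (j + 1) ≤ ∑ j ∈ range n, y j * (R⁻¹) ^ (j + 1) := by
      apply sum_le_sum_of_subset_of_nonneg
      · intro j hj; simp only [mem_range] at *; omega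
      · intro j _ _; exact mul_nonneg (hy j) (pow_nonneg hRi.le _)
    linarith
  have hC0 : ∀ n, 0 ≤ C n := by
    intro n
    simp only [hC]
    have : 0 ≤ ∑ j ∈ range n, y j * (R⁻¹) ^ (j + 1) :=
      sum_nonneg fun j _ => mul_nonneg (hy j) (pow_nonneg hRi.le _)
    linarith
  change x n ≤ R ^ n * C n
  induction n using Nat.strong_induction_on with
  | _ n ih =>
    rcases n with _ | n
    · simp [hC]
    · have h1 : x n ≤ R ^ n * C n := ih n (Nat.lt_succ_self n)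
      have h2 : ∀ k ∈ range n, β k * x (n - 1 - k) ≤ R ^ n * C n * (β k * (R⁻¹) ^ (k + 1)) := by
        intro k hk
        have hk' : k < n := mem_range.mp hk
        have h3 : x (n - 1 - k) ≤ R ^ (n - 1 - k) * C (n - 1 - k) := ih _ (by omega)
        have h4 : R ^ (n - 1 - k) * C (n - 1 - k) ≤ R ^ (n - 1 - k) * C n :=
          mul_le_mul_of_nonneg_left (hCmono _ _ (by omega)) (pow_nonneg hR.le _)
        have h5 : R ^ (n - 1 - k) = R ^ n * (R⁻¹) ^ (k + 1) := by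
          have : R ^ n = R ^ (n - 1 - k) * R ^ (k + 1) := by
            rw [← pow_add]; congr 1; omega
          rw [this, mul_assoc, ← mul_pow, mul_inv_cancel₀ hR.ne', one_pow, mul_one]
        calc β k * x (n - 1 - k) ≤ β k * (R ^ (n - 1 - k) * C n) :=
              mul_le_mul_of_nonneg_left (h3.trans h4) (hβ k)
          _ = R ^ n * C n * (β k * (R⁻¹) ^ (k + 1)) := by rw [h5]; ring
      have h6 : ∑ k ∈ range n, β k * x (n - 1 - k)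
          ≤ R ^ n * C n * ∑ k ∈ range n, β k * (R⁻¹) ^ (k + 1) := by
        rw [mul_sum]; exact sum_le_sum h2
      have h7 : 0 ≤ R ^ n * C n := mul_nonneg (pow_nonneg hR.le _) (hC0 n)
      have h8 := hrec n
      have h9 : R ^ (n + 1) * C (n + 1) = R ^ n * C n * R + y n := by
        simp only [hC, sum_range_succ]
        have : R ^ (n + 1) * (y n * (R⁻¹) ^ (n + 1)) = y n := by
          rw [mul_comm (y n), ← mul_assoc, ← mul_pow, mul_inv_cancel₀ hR.ne', one_pow, one_mul]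
        rw [← add_assoc, mul_add, this, pow_succ]
        ring
      rw [h9]
      have h10 : R ^ n * C n * (α + ∑ k ∈ range n, β k * (R⁻¹) ^ (k + 1)) ≤ R ^ n * C n * R :=
        mul_le_mul_of_nonneg_left (hsum n) h7
      have h11 : α * x n ≤ α * (R ^ n * C n) := mul_le_mul_of_nonneg_left h1 hα
      nlinarith

/-- Geometric sums with ratio at most `1/2`, in a form without division. -/
lemma geom_le {r : ℝ} (h0 : 0 ≤ r) (h1 : r < 1) (n : ℕ) :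
    ∑ k ∈ range n, r ^ k ≤ (1 - r)⁻¹ := by
  have := (summable_geometric_of_lt_one h0 h1).sum_le_tsum (range n)
    (fun i _ => pow_nonneg h0 i)
  rwa [tsum_geometric_of_lt_one h0 h1] at this

/-- The data of a renewal recursion `φ (n+1) = M φ n + κ² ∑ e k φ (n-1-k)`. -/
structure Ren (φ e : ℕ → ℂ) (M κ : ℂ) (p ℓ q R : ℝ) : Prop where
  p0 : 0 ≤ p
  ℓ0 : 0 ≤ ℓ
  q0 : 0 ≤ q
  q1 : q ≤ 1 / 32
  R34 : 3 / 4 ≤ R
  zero : φ 0 = 1
  recu : ∀ n, φ (n + 1) = M * φ n + κ ^ 2 * ∑ k ∈ range n, e k * φ (n - 1 - k)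
  be : ∀ k, ‖e k‖ ≤ p * ℓ * q ^ k
  bR : ‖M‖ + ‖κ‖ ^ 2 * (p * ℓ * (7 / 5)) ≤ R

lemma Ren.sum_e {φ e : ℕ → ℂ} {M κ : ℂ} {p ℓ q R : ℝ} (h : Ren φ e M κ p ℓ q R) (n : ℕ) :
    ∑ k ∈ range n, (‖κ‖ ^ 2 * ‖e k‖) * (R⁻¹) ^ (k + 1) ≤ ‖κ‖ ^ 2 * (p * ℓ * (7 / 5)) := by
  have hR : 0 < R := by linarith [h.R34]
  have hRi : R⁻¹ ≤ 4 / 3 := by
    rw [inv_le_comm₀ hR (by norm_num)]; linarith [h.R34]
  have hRi0 : 0 ≤ R⁻¹ := (inv_pos.mpr hR).le
  have hpl : 0 ≤ p * ℓ := mul_nonneg h.p0 h.ℓ0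
  have h1 : ∀ k ∈ range n, (‖κ‖ ^ 2 * ‖e k‖) * (R⁻¹) ^ (k + 1)
      ≤ (‖κ‖ ^ 2 * (p * ℓ) * (4 / 3)) * (1 / 24 : ℝ) ^ k := by
    intro k _
    have h2 : (R⁻¹) ^ (k + 1) ≤ (4 / 3 : ℝ) ^ (k + 1) := pow_le_pow_left₀ hRi0 hRi _
    have h3 : ‖e k‖ * (R⁻¹) ^ (k + 1) ≤ p * ℓ * q ^ k * (4 / 3 : ℝ) ^ (k + 1) :=
      mul_le_mul (h.be k) h2 (pow_nonneg hRi0 _) (mul_nonneg hpl (pow_nonneg h.q0 _))
    have h4 : q ^ k * (4 / 3 : ℝ) ^ (k + 1) ≤ (4 / 3) * (1 / 24 : ℝ) ^ k := by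
      have : q ^ k * (4 / 3 : ℝ) ^ k ≤ (1 / 24 : ℝ) ^ k := by
        rw [← mul_pow]
        apply pow_le_pow_left₀ (mul_nonneg h.q0 (by norm_num))
        linarith [h.q1]
      calc q ^ k * (4 / 3 : ℝ) ^ (k + 1) = (4 / 3) * (q ^ k * (4 / 3 : ℝ) ^ k) := by ring
        _ ≤ _ := by linarith
    calc (‖κ‖ ^ 2 * ‖e k‖) * (R⁻¹) ^ (k + 1) = ‖κ‖ ^ 2 * (‖e k‖ * (R⁻¹) ^ (k + 1)) := by ring
      _ ≤ ‖κ‖ ^ 2 * (p * ℓ * q ^ k * (4 / 3 : ℝ) ^ (k + 1)) :=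
          mul_le_mul_of_nonneg_left h3 (by positivity)
      _ = ‖κ‖ ^ 2 * (p * ℓ) * (q ^ k * (4 / 3 : ℝ) ^ (k + 1)) := by ring
      _ ≤ ‖κ‖ ^ 2 * (p * ℓ) * ((4 / 3) * (1 / 24 : ℝ) ^ k) :=
          mul_le_mul_of_nonneg_left h4 (mul_nonneg (by positivity) hpl)
      _ = _ := by ring
  refine (sum_le_sum h1).trans ?_
  rw [← mul_sum]
  have h5 := geom_le (r := 1 / 24) (by norm_num) (by norm_num) n
  have h6 : 0 ≤ ‖κ‖ ^ 2 * (p * ℓ) * (4 / 3) := by positivity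
  calc ‖κ‖ ^ 2 * (p * ℓ) * (4 / 3) * ∑ i ∈ range n, (1 / 24 : ℝ) ^ i
      ≤ ‖κ‖ ^ 2 * (p * ℓ) * (4 / 3) * (1 - 1 / 24)⁻¹ := mul_le_mul_of_nonneg_left h5 h6
    _ ≤ ‖κ‖ ^ 2 * (p * ℓ * (7 / 5)) := by
        have : 0 ≤ ‖κ‖ ^ 2 * (p * ℓ) := by positivity
        norm_num
        nlinarith

lemma Ren.bound {φ e : ℕ → ℂ} {M κ : ℂ} {p ℓ q R : ℝ} (h : Ren φ e M κ p ℓ q R) (n : ℕ) :
    ‖φ n‖ ≤ R ^ n := by
  have hR : 0 < R := by linarith [h.R34]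
  have := renewal_ineq (x := fun n => ‖φ n‖) (y := fun _ => 0)
    (β := fun k => ‖κ‖ ^ 2 * ‖e k‖) (α := ‖M‖) (R := R) hR (norm_nonneg _)
    (fun k => by positivity) (fun _ => le_rfl) (norm_nonneg _)
    (fun n => by have := h.sum_e n; linarith [h.bR])
    (fun n => by
      simp only [add_zero]
      rw [h.recu n]
      refine (norm_add_le _ _).trans ?_
      rw [norm_mul, norm_mul, norm_pow]
      gcongr
      refine (mul_le_mul_of_nonneg_left (norm_sum_le _ _) (by positivity)).trans ?_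
      rw [mul_sum]
      apply le_of_eq
      refine sum_congr rfl fun k _ => ?_
      rw [norm_mul]; ring) n
  simpa [h.zero] using this

lemma Ren.step {φ e : ℕ → ℂ} {M κ : ℂ} {p ℓ q R : ℝ} (h : Ren φ e M κ p ℓ q R) (n : ℕ) :
    ‖φ (n + 1) - φ n‖ ≤ (‖M - 1‖ + ‖κ‖ ^ 2 * (p * ℓ * (7 / 5))) * R ^ n := by
  have hR : 0 < R := by linarith [h.R34]
  have h0 : φ (n + 1) - φ n
      = (M - 1) * φ n + κ ^ 2 * ∑ k ∈ range n, e k * φ (n - 1 - k) := by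
    rw [h.recu n]; ring
  rw [h0]
  refine (norm_add_le _ _).trans ?_
  rw [add_mul]
  refine add_le_add ?_ ?_
  · rw [norm_mul]
    exact mul_le_mul_of_nonneg_left (h.bound n) (norm_nonneg _)
  · rw [norm_mul, norm_pow]
    have h1 : ‖κ‖ ^ 2 * ‖∑ k ∈ range n, e k * φ (n - 1 - k)‖
        ≤ (∑ k ∈ range n, (‖κ‖ ^ 2 * ‖e k‖) * (R⁻¹) ^ (k + 1)) * R ^ n := by
      refine (mul_le_mul_of_nonneg_left (norm_sum_le _ _) (by positivity)).trans ?_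
      rw [mul_sum, sum_mul]
      refine sum_le_sum fun k hk => ?_
      have hk' : k < n := mem_range.mp hk
      have h5 : (R⁻¹) ^ (k + 1) * R ^ n = R ^ (n - 1 - k) := by
        have : R ^ n = R ^ (k + 1) * R ^ (n - 1 - k) := by
          rw [← pow_add]; congr 1; omega
        rw [this, ← mul_assoc, ← mul_pow, inv_mul_cancel₀ hR.ne', one_pow, one_mul]
      rw [mul_assoc (‖κ‖ ^ 2 * ‖e k‖), h5, norm_mul, ← mul_assoc]
      exact mul_le_mul_of_nonneg_left (h.bound _) (by positivity)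
    refine h1.trans ?_
    exact mul_le_mul_of_nonneg_right (h.sum_e n) (pow_nonneg hR.le _)

lemma Ren.diff_le {φ e : ℕ → ℂ} {M κ : ℂ} {p ℓ q R : ℝ} (h : Ren φ e M κ p ℓ q R)
    (m n : ℕ) (hmn : m ≤ n) :
    ‖φ n - φ m‖ ≤ (‖M - 1‖ + ‖κ‖ ^ 2 * (p * ℓ * (7 / 5)))
      * (((n - m : ℕ) : ℝ) * (4 / 3 : ℝ) ^ (n - m)) * R ^ n := by
  have hR : 0 < R := by linarith [h.R34]
  set g := ‖M - 1‖ + ‖κ‖ ^ 2 * (p * ℓ * (7 / 5)) with hg
  have hpl : 0 ≤ p * ℓ := mul_nonneg h.p0 h.ℓ0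
  have hg0 : 0 ≤ g := by positivity
  induction n, hmn using Nat.le_induction with
  | base => simp
  | succ n hmn ih =>
    have h1 : φ (n + 1) - φ m = (φ (n + 1) - φ n) + (φ n - φ m) := by ring
    rw [h1]
    refine (norm_add_le _ _).trans ?_
    have h2 := h.step n
    rw [← hg] at h2
    have h3 : R ^ n ≤ (4 / 3) * R ^ (n + 1) := by
      have : 0 < R ^ n := pow_pos hR n
      rw [pow_succ]
      nlinarith [h.R34]
    have h4 : n + 1 - m = (n - m) + 1 := by omega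
    rw [h4]
    set j := n - m with hj
    have h5 : (1 : ℝ) ≤ (4 / 3 : ℝ) ^ j := one_le_pow₀ (by norm_num)
    have h6 : 0 < R ^ (n + 1) := pow_pos hR _
    have h7 : g * R ^ n ≤ g * ((4 / 3) ^ (j + 1)) * R ^ (n + 1) := by
      have : (4 / 3 : ℝ) ^ (j + 1) = (4 / 3) * (4 / 3 : ℝ) ^ j := by ring
      rw [this]
      have : (4 / 3 : ℝ) * R ^ (n + 1) ≤ 4 / 3 * (4 / 3 : ℝ) ^ j * R ^ (n + 1) := by
        have : 0 ≤ (4 / 3 : ℝ) * R ^ (n + 1) := by positivity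
        nlinarith
      calc g * R ^ n ≤ g * (4 / 3 * (4 / 3 : ℝ) ^ j * R ^ (n + 1)) :=
            mul_le_mul_of_nonneg_left (h3.trans this) hg0
        _ = _ := by ring
    have h8 : g * ((j : ℝ) * (4 / 3) ^ j) * R ^ n
        ≤ g * ((j : ℝ) * (4 / 3) ^ (j + 1)) * R ^ (n + 1) := by
      have h9 : 0 ≤ g * ((j : ℝ) * (4 / 3) ^ j) := by positivity
      calc g * ((j : ℝ) * (4 / 3) ^ j) * R ^ n
          ≤ g * ((j : ℝ) * (4 / 3) ^ j) * ((4 / 3) * R ^ (n + 1)) :=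
            mul_le_mul_of_nonneg_left h3 h9
        _ = _ := by ring
    push_cast
    calc ‖φ (n + 1) - φ n‖ + ‖φ n - φ m‖
        ≤ g * ((4 / 3) ^ (j + 1)) * R ^ (n + 1) + g * ((j : ℝ) * (4 / 3) ^ (j + 1)) * R ^ (n + 1) :=
          add_le_add (h2.trans h7) (ih.trans h8)
      _ = _ := by ring

lemma sum_third (n : ℕ) : ∑ k ∈ range n, ((k : ℝ) + 1) * (1 / 3 : ℝ) ^ k ≤ 9 / 4 := by
  have h : ∀ n : ℕ, ∑ k ∈ range n, ((k : ℝ) + 1) * (1 / 3 : ℝ) ^ k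
      = 9 / 4 - (3 / 4) * (2 * n + 3) * (1 / 3 : ℝ) ^ n := by
    intro n
    induction n with
    | zero => norm_num
    | succ n ih =>
      rw [sum_range_succ, ih]
      push_cast
      ring
  rw [h n]
  have : 0 ≤ (3 / 4) * (2 * (n : ℝ) + 3) * (1 / 3 : ℝ) ^ n := by positivity
  linarith

/-- Comparison of two renewal recursions with almost equal kernels. -/
lemma Ren.compare {φ e φ' e' : ℕ → ℂ} {M κ : ℂ} {p ℓ q R d : ℝ}
    (h : Ren φ e M κ p ℓ q R) (h' : Ren φ' e' M κ p ℓ q R) (hd : 0 ≤ d)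
    (hb : ∀ k, ‖e k - e' k‖ ≤ 24 * ℓ ^ 2 * (1 / 4 : ℝ) ^ k)
    (hs : ∀ n, ‖∑ k ∈ range n, (e k - e' k)‖ ≤ ℓ ^ 2 * (d + 4 * (1 / 4 : ℝ) ^ n)) (n : ℕ) :
    ‖φ n - φ' n‖ ≤ R ^ n * (‖κ‖ ^ 2 * ℓ ^ 2 *
      (2 * n * (d + 72 * (‖M - 1‖ + ‖κ‖ ^ 2 * (p * ℓ * (7 / 5)))) + 8)) := by
  have hR : 0 < R := by linarith [h.R34]
  have hRi : R⁻¹ ≤ 4 / 3 := by
    rw [inv_le_comm₀ hR (by norm_num)]; linarith [h.R34]
  have hRi0 : 0 ≤ R⁻¹ := (inv_pos.mpr hR).le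
  set g := ‖M - 1‖ + ‖κ‖ ^ 2 * (p * ℓ * (7 / 5)) with hg
  have hpl : 0 ≤ p * ℓ := mul_nonneg h.p0 h.ℓ0
  have hg0 : 0 ≤ g := by positivity
  -- the forcing term
  have hy : ∀ n, ‖κ ^ 2 * ∑ k ∈ range n, (e k - e' k) * φ' (n - 1 - k)‖
      ≤ ‖κ‖ ^ 2 * ℓ ^ 2 * (d + 72 * g + 4 * (1 / 4 : ℝ) ^ n) * R ^ n := by
    intro n
    have h1 : ∑ k ∈ range n, (e k - e' k) * φ' (n - 1 - k)
        = (∑ k ∈ range n, (e k - e' k)) * φ' n
          + ∑ k ∈ range n, (e k - e' k) * (φ' (n - 1 - k) - φ' n) := by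
      rw [sum_mul, ← sum_add_distrib]
      refine sum_congr rfl fun k _ => ?_
      ring
    rw [norm_mul, norm_pow, h1]
    have h2 : ‖(∑ k ∈ range n, (e k - e' k)) * φ' n‖
        ≤ ℓ ^ 2 * (d + 4 * (1 / 4 : ℝ) ^ n) * R ^ n := by
      rw [norm_mul]
      exact mul_le_mul (hs n) (h'.bound n) (norm_nonneg _) (by positivity)
    have h3 : ‖∑ k ∈ range n, (e k - e' k) * (φ' (n - 1 - k) - φ' n)‖
        ≤ ℓ ^ 2 * (72 * g) * R ^ n := by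
      refine (norm_sum_le _ _).trans ?_
      have h4 : ∀ k ∈ range n, ‖(e k - e' k) * (φ' (n - 1 - k) - φ' n)‖
          ≤ (32 * ℓ ^ 2 * g * R ^ n) * (((k : ℝ) + 1) * (1 / 3 : ℝ) ^ k) := by
        intro k hk
        have hk' : k < n := mem_range.mp hk
        rw [norm_mul]
        have h5 := h'.diff_le (n - 1 - k) n (by omega)
        rw [← hg, norm_sub_rev] at h5
        have h6 : n - (n - 1 - k) = k + 1 := by omega
        rw [h6] at h5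
        push_cast at h5
        calc ‖e k - e' k‖ * ‖φ' (n - 1 - k) - φ' n‖
            ≤ (24 * ℓ ^ 2 * (1 / 4 : ℝ) ^ k) * (g * (((k : ℝ) + 1) * (4 / 3) ^ (k + 1)) * R ^ n) :=
              mul_le_mul (hb k) h5 (norm_nonneg _) (by positivity)
          _ = (32 * ℓ ^ 2 * g * R ^ n) * (((k : ℝ) + 1) * ((1 / 4 : ℝ) ^ k * (4 / 3) ^ k)) := by
              ring
          _ = _ := by
              rw [← mul_pow]; norm_num
      refine (sum_le_sum h4).trans ?_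
      rw [← mul_sum]
      have h7 := sum_third n
      have h8 : 0 ≤ 32 * ℓ ^ 2 * g * R ^ n := by positivity
      calc 32 * ℓ ^ 2 * g * R ^ n * ∑ k ∈ range n, ((k : ℝ) + 1) * (1 / 3 : ℝ) ^ k
          ≤ 32 * ℓ ^ 2 * g * R ^ n * (9 / 4) := mul_le_mul_of_nonneg_left h7 h8
        _ = _ := by ring
    calc ‖κ‖ ^ 2 * ‖(∑ k ∈ range n, (e k - e' k)) * φ' n
          + ∑ k ∈ range n, (e k - e' k) * (φ' (n - 1 - k) - φ' n)‖
        ≤ ‖κ‖ ^ 2 * (ℓ ^ 2 * (d + 4 * (1 / 4 : ℝ) ^ n) * R ^ n + ℓ ^ 2 * (72 * g) * R ^ n) :=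
          mul_le_mul_of_nonneg_left ((norm_add_le _ _).trans (add_le_add h2 h3)) (by positivity)
      _ = _ := by ring
  have := renewal_ineq (x := fun n => ‖φ n - φ' n‖)
    (y := fun n => ‖κ ^ 2 * ∑ k ∈ range n, (e k - e' k) * φ' (n - 1 - k)‖)
    (β := fun k => ‖κ‖ ^ 2 * ‖e k‖) (α := ‖M‖) (R := R) hR (norm_nonneg _)
    (fun k => by positivity) (fun _ => norm_nonneg _) (norm_nonneg _)
    (fun n => by have := h.sum_e n; linarith [h.bR])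
    (fun n => by
      have h1 : φ (n + 1) - φ' (n + 1) = M * (φ n - φ' n)
          + κ ^ 2 * ∑ k ∈ range n, e k * (φ (n - 1 - k) - φ' (n - 1 - k))
          + κ ^ 2 * ∑ k ∈ range n, (e k - e' k) * φ' (n - 1 - k) := by
        rw [h.recu n, h'.recu n]
        have h2 : ∑ k ∈ range n, e k * (φ (n - 1 - k) - φ' (n - 1 - k))
            + ∑ k ∈ range n, (e k - e' k) * φ' (n - 1 - k)
            = ∑ k ∈ range n, e k * φ (n - 1 - k) - ∑ k ∈ range n, e' k * φ' (n - 1 - k) := by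
          rw [← sum_add_distrib, ← sum_sub_distrib]
          refine sum_congr rfl fun k _ => ?_
          ring
        linear_combination (-κ ^ 2) * h2
      rw [h1]
      refine (norm_add_le _ _).trans ?_
      refine add_le_add ?_ le_rfl
      refine (norm_add_le _ _).trans ?_
      rw [norm_mul, norm_mul, norm_pow]
      gcongr
      refine (mul_le_mul_of_nonneg_left (norm_sum_le _ _) (by positivity)).trans ?_
      rw [mul_sum]
      apply le_of_eq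
      refine sum_congr rfl fun k _ => ?_
      rw [norm_mul]; ring) n
  refine this.trans ?_
  refine mul_le_mul_of_nonneg_left ?_ (pow_nonneg hR.le _)
  rw [h.zero, h'.zero, sub_self, norm_zero, zero_add]
  have h9 : ∀ j ∈ range n, ‖κ ^ 2 * ∑ k ∈ range j, (e k - e' k) * φ' (j - 1 - k)‖ * (R⁻¹) ^ (j + 1)
      ≤ ‖κ‖ ^ 2 * ℓ ^ 2 * (4 / 3) * (d + 72 * g + 4 * (1 / 4 : ℝ) ^ j) := by
    intro j _
    calc ‖κ ^ 2 * ∑ k ∈ range j, (e k - e' k) * φ' (j - 1 - k)‖ * (R⁻¹) ^ (j + 1)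
        ≤ (‖κ‖ ^ 2 * ℓ ^ 2 * (d + 72 * g + 4 * (1 / 4 : ℝ) ^ j) * R ^ j) * (R⁻¹) ^ (j + 1) :=
          mul_le_mul_of_nonneg_right (hy j) (pow_nonneg hRi0 _)
      _ = ‖κ‖ ^ 2 * ℓ ^ 2 * (d + 72 * g + 4 * (1 / 4 : ℝ) ^ j) * R⁻¹ * (R * R⁻¹) ^ j := by
          rw [mul_pow]; ring
      _ = ‖κ‖ ^ 2 * ℓ ^ 2 * (d + 72 * g + 4 * (1 / 4 : ℝ) ^ j) * R⁻¹ := by
          rw [mul_inv_cancel₀ hR.ne', one_pow, mul_one]
      _ ≤ ‖κ‖ ^ 2 * ℓ ^ 2 * (d + 72 * g + 4 * (1 / 4 : ℝ) ^ j) * (4 / 3) :=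
          mul_le_mul_of_nonneg_left hRi (by positivity)
      _ = _ := by ring
  refine (sum_le_sum h9).trans ?_
  rw [← mul_sum, sum_add_distrib, ← mul_sum]
  have h10 := geom_le (r := 1 / 4) (by norm_num) (by norm_num) n
  have h11 : ∑ _j ∈ range n, (d + 72 * g) = n * (d + 72 * g) := by
    rw [sum_const, card_range, nsmul_eq_mul]
  rw [h11]
  have h12 : 0 ≤ ‖κ‖ ^ 2 * ℓ ^ 2 := by positivity
  have h13 : (4 / 3 : ℝ) * (n * (d + 72 * g) + 4 * ∑ i ∈ range n, (1 / 4 : ℝ) ^ i)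
      ≤ 2 * n * (d + 72 * g) + 8 := by
    have h14 : 0 ≤ (n : ℝ) * (d + 72 * g) := by positivity
    norm_num at h10
    linarith
  calc ‖κ‖ ^ 2 * ℓ ^ 2 * (4 / 3) * (n * (d + 72 * g) + 4 * ∑ i ∈ range n, (1 / 4 : ℝ) ^ i)
      = ‖κ‖ ^ 2 * ℓ ^ 2 * ((4 / 3 : ℝ) * (n * (d + 72 * g) + 4 * ∑ i ∈ range n, (1 / 4 : ℝ) ^ i)) := by
        ring
    _ ≤ _ := mul_le_mul_of_nonneg_left h13 h12

end Pool.Agent.H148.EW
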