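import Mathlib
import Pool.Agent.H148.EW1

/-!
# Stationary chains close to independence: the renewal recursion
-/

set_option autoImplicit false

namespace Pool.Agent.H148.EW

open Finset

variable {V : Type*} [Fintype V]

/-- A stationary chain with contraction factor `ℓ` and a centred function `g` of variance `p`. -/
structure Sys (π : V → ℝ) (K : V → V → ℝ) (g : V → ℝ) (p ℓ : ℝ) : Prop where
  nn : ∀ v, 0 ≤ π v
  row : ∀ v, ∑ w, K v w = 1
  stat : ∀ w, ∑ v, π v * K v w = π w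
  tot : ∑ v, π v = 1
  mean : ∑ v, π v * g v = 0
  sq : ∑ v, π v * g v ^ 2 = p
  ℓ0 : 0 ≤ ℓ
  contr : ∀ f : V → ℂ, ∑ v, π v * ‖∑ w, ((K v w : ℂ) - π w) * f w‖ ^ 2
    ≤ ℓ ^ 2 * ∑ v, π v * ‖f v‖ ^ 2

/-- bilinear pairing -/
noncomputable def ip (π : V → ℝ) (f h : V → ℂ) : ℂ := ∑ v, (π v : ℂ) * (f v * h v)

/-- weighted `L²` norm -/
noncomputable def nrm (π : V → ℝ) (f : V → ℂ) : ℝ := Real.sqrt (∑ v, π v * ‖f v‖ ^ 2)

/-- the operator `K - 1 ⊗ π` -/
noncomputable def Eop (π : V → ℝ) (K : V → V → ℝ) (f : V → ℂ) : V → ℂ :=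
  fun v => ∑ w, ((K v w : ℂ) - π w) * f w

lemma nrm_nonneg (π : V → ℝ) (f : V → ℂ) : 0 ≤ nrm π f := Real.sqrt_nonneg _

lemma ip_le {π : V → ℝ} (hπ : ∀ v, 0 ≤ π v) (f h : V → ℂ) :
    ‖ip π f h‖ ≤ nrm π f * nrm π h := by
  unfold ip nrm
  have h1 : ‖∑ v, (π v : ℂ) * (f v * h v)‖
      ≤ ∑ v, (Real.sqrt (π v) * ‖f v‖) * (Real.sqrt (π v) * ‖h v‖) := by
    refine (norm_sum_le _ _).trans (le_of_eq ?_)
    refine sum_congr rfl fun v _ => ?_
    rw [norm_mul, norm_mul, Complex.norm_real, Real.norm_of_nonneg (hπ v)]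
    calc π v * (‖f v‖ * ‖h v‖) = (Real.sqrt (π v) * Real.sqrt (π v)) * (‖f v‖ * ‖h v‖) := by
          rw [Real.mul_self_sqrt (hπ v)]
      _ = _ := by ring
  refine h1.trans ((Real.sum_mul_le_sqrt_mul_sqrt _ _ _).trans (le_of_eq ?_))
  congr 1 <;> congr 1 <;> refine sum_congr rfl fun v _ => ?_ <;>
    rw [mul_pow, Real.sq_sqrt (hπ v)]

lemma nrm_eq {π : V → ℝ} (hπ : ∀ v, 0 ≤ π v) (f : V → ℂ) :
    nrm π f = ‖(WithLp.toLp 2 (fun v => (Real.sqrt (π v) : ℂ) * f v) : EuclideanSpace ℂ V)‖ := by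
  rw [EuclideanSpace.norm_eq, nrm]
  congr 1
  refine sum_congr rfl fun v _ => ?_
  simp only
  rw [norm_mul, Complex.norm_real, Real.norm_of_nonneg (Real.sqrt_nonneg _), mul_pow,
    Real.sq_sqrt (hπ v)]

lemma nrm_add {π : V → ℝ} (hπ : ∀ v, 0 ≤ π v) (f h : V → ℂ) :
    nrm π (fun v => f v + h v) ≤ nrm π f + nrm π h := by
  rw [nrm_eq hπ, nrm_eq hπ, nrm_eq hπ]
  refine le_trans (le_of_eq ?_) (norm_add_le _ _)
  congr 1
  ext v
  simp only [PiLp.add_apply]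
  ring

lemma nrm_mul_le {π : V → ℝ} (hπ : ∀ v, 0 ≤ π v) {D : V → ℂ} {c : ℝ} (hc : 0 ≤ c)
    (hD : ∀ v, ‖D v‖ ≤ c) (f : V → ℂ) : nrm π (fun v => D v * f v) ≤ c * nrm π f := by
  unfold nrm
  have hc2 : c * Real.sqrt (∑ v, π v * ‖f v‖ ^ 2) = Real.sqrt (c ^ 2 * ∑ v, π v * ‖f v‖ ^ 2) := by
    rw [Real.sqrt_mul (sq_nonneg c), Real.sqrt_sq hc]
  rw [hc2]
  apply Real.sqrt_le_sqrt
  rw [mul_sum]
  refine sum_le_sum fun v _ => ?_
  rw [norm_mul, mul_pow]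
  have h1 : ‖D v‖ ^ 2 ≤ c ^ 2 := pow_le_pow_left₀ (norm_nonneg _) (hD v) 2
  have h2 : 0 ≤ π v * ‖f v‖ ^ 2 := mul_nonneg (hπ v) (by positivity)
  nlinarith

lemma Eop_add (π : V → ℝ) (K : V → V → ℝ) (f h : V → ℂ) (v : V) :
    Eop π K (fun w => f w + h w) v = Eop π K f v + Eop π K h v := by
  simp only [Eop, mul_add, sum_add_distrib]

lemma Eop_smul (π : V → ℝ) (K : V → V → ℝ) (c : ℂ) (f : V → ℂ) (v : V) :
    Eop π K (fun w => c * f w) v = c * Eop π K f v := by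
  simp only [Eop, mul_sum]
  refine sum_congr rfl fun w _ => ?_
  ring

lemma Eop_sum (π : V → ℝ) (K : V → V → ℝ) {ι : Type*} (s : Finset ι) (c : ι → ℂ)
    (f : ι → V → ℂ) (v : V) :
    Eop π K (fun w => ∑ i ∈ s, c i * f i w) v = ∑ i ∈ s, c i * Eop π K (f i) v := by
  simp only [Eop, mul_sum]
  rw [sum_comm]
  refine sum_congr rfl fun i _ => ?_
  refine sum_congr rfl fun w _ => ?_
  ring

variable {π : V → ℝ} {K : V → V → ℝ} {g : V → ℝ} {p ℓ : ℝ}

lemma Sys.p0 (S : Sys π K g p ℓ) : 0 ≤ p := by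
  rw [← S.sq]
  exact sum_nonneg fun v _ => mul_nonneg (S.nn v) (sq_nonneg _)

lemma Sys.Eop_nrm (S : Sys π K g p ℓ) (f : V → ℂ) : nrm π (Eop π K f) ≤ ℓ * nrm π f := by
  unfold nrm
  have hc2 : ℓ * Real.sqrt (∑ v, π v * ‖f v‖ ^ 2) = Real.sqrt (ℓ ^ 2 * ∑ v, π v * ‖f v‖ ^ 2) := by
    rw [Real.sqrt_mul (sq_nonneg ℓ), Real.sqrt_sq S.ℓ0]
  rw [hc2]
  exact Real.sqrt_le_sqrt (S.contr f)

lemma Sys.Eop_one (S : Sys π K g p ℓ) (v : V) : Eop π K (fun _ => 1) v = 0 := by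
  simp only [Eop, mul_one, sum_sub_distrib]
  have h1 : ∑ w, (K v w : ℂ) = 1 := by
    rw [← Complex.ofReal_sum, S.row v, Complex.ofReal_one]
  have h2 : ∑ w, (π w : ℂ) = 1 := by
    rw [← Complex.ofReal_sum, S.tot, Complex.ofReal_one]
  rw [h1, h2, sub_self]

lemma Sys.sum_Eop (S : Sys π K g p ℓ) (f : V → ℂ) : ∑ v, (π v : ℂ) * Eop π K f v = 0 := by
  simp only [Eop, mul_sum]
  rw [sum_comm]
  apply sum_eq_zero
  intro w _
  have h1 : ∑ v, (π v : ℂ) * (((K v w : ℂ) - π w) * f w)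
      = ((∑ v, π v * K v w : ℝ) - (∑ v, π v : ℝ) * π w : ℂ) * f w := by
    push_cast
    rw [sub_mul, sum_mul, sum_mul, sum_mul, ← sum_sub_distrib]
    refine sum_congr rfl fun v _ => ?_
    ring
  rw [h1, S.stat w, S.tot]
  simp

lemma Sys.nrm_g (S : Sys π K g p ℓ) : nrm π (fun v => (g v : ℂ)) ^ 2 = p := by
  unfold nrm
  rw [Real.sq_sqrt]
  · rw [← S.sq]
    refine sum_congr rfl fun v _ => ?_
    rw [Complex.norm_real, Real.norm_eq_abs, sq_abs]
  · exact sum_nonneg fun v _ => mul_nonneg (S.nn v) (by positivity)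

/-- backward vectors of the generating function -/
noncomputable def hh (K : V → V → ℝ) (D : V → ℂ) : ℕ → V → ℂ
  | 0 => fun _ => 1
  | n + 1 => fun v => D v * ∑ w, (K v w : ℂ) * hh K D n w

/-- iterates of `D E` applied to `g` -/
noncomputable def yy (π : V → ℝ) (K : V → V → ℝ) (g : V → ℝ) (D : V → ℂ) : ℕ → V → ℂ
  | 0 => fun v => (g v : ℂ)
  | n + 1 => fun v => D v * Eop π K (yy π K g D n) v

/-- generating function -/
noncomputable def phi (π : V → ℝ) (K : V → V → ℝ) (D : V → ℂ) (n : ℕ) : ℂ :=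
  ∑ v, (π v : ℂ) * hh K D n v

/-- coefficients of the renewal recursion -/
noncomputable def ee (π : V → ℝ) (K : V → V → ℝ) (g : V → ℝ) (D : V → ℂ) (k : ℕ) : ℂ :=
  ip π (fun v => (g v : ℂ)) (Eop π K (yy π K g D k))

lemma Sys.phi_zero (S : Sys π K g p ℓ) (D : V → ℂ) : phi π K D 0 = 1 := by
  simp only [phi, hh, mul_one]
  rw [← Complex.ofReal_sum, S.tot, Complex.ofReal_one]

lemma Sys.hh_succ (D : V → ℂ) (n : ℕ) (v : V) :
    hh K D (n + 1) v = D v * (phi π K D n + Eop π K (hh K D n) v) := by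
  simp only [hh, phi, Eop, sub_mul, sum_sub_distrib]
  ring

lemma Sys.Eop_hh (S : Sys π K g p ℓ) {D : V → ℂ} {M κ : ℂ} (hD : ∀ v, D v = M + κ * g v)
    (n : ℕ) (v : V) : Eop π K (hh K D n) v
      = κ * ∑ k ∈ range n, phi π K D (n - 1 - k) * Eop π K (yy π K g D k) v := by
  induction n generalizing v with
  | zero => simp only [hh, range_zero, sum_empty, mul_zero]; exact S.Eop_one v
  | succ n ih =>
    have h1 : hh K D (n + 1) = fun v => (phi π K D n * M) * 1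
        + ((phi π K D n * κ) * (g v : ℂ)
          + ∑ k ∈ range n, (κ * phi π K D (n - 1 - k)) * yy π K g D (k + 1) v) := by
      funext v
      rw [Sys.hh_succ (π := π), ih v, mul_add, mul_sum, mul_sum]
      have h2 : ∑ k ∈ range n, D v * (κ * (phi π K D (n - 1 - k) * Eop π K (yy π K g D k) v))
          = ∑ k ∈ range n, (κ * phi π K D (n - 1 - k)) * yy π K g D (k + 1) v := by
        refine sum_congr rfl fun k _ => ?_
        simp only [yy]; ring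
      rw [h2, hD v]
      ring
    rw [h1]
    rw [Eop_add, Eop_add, Eop_smul, Eop_smul, S.Eop_one, Eop_sum]
    rw [sum_range_succ', mul_add, mul_sum]
    have h3 : ∑ k ∈ range n, (κ * phi π K D (n - 1 - k)) * Eop π K (yy π K g D (k + 1)) v
        = ∑ k ∈ range n, κ * (phi π K D (n + 1 - 1 - (k + 1)) * Eop π K (yy π K g D (k + 1)) v) := by
      refine sum_congr rfl fun k _ => ?_
      have : n + 1 - 1 - (k + 1) = n - 1 - k := by omega
      rw [this]; ring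
    rw [h3]
    simp only [Nat.add_sub_cancel, Nat.sub_zero, yy]
    ring

/-- The renewal recursion of the generating function. -/
lemma Sys.phi_succ (S : Sys π K g p ℓ) {D : V → ℂ} {M κ : ℂ} (hD : ∀ v, D v = M + κ * g v)
    (n : ℕ) : phi π K D (n + 1) = M * phi π K D n
      + κ ^ 2 * ∑ k ∈ range n, ee π K g D k * phi π K D (n - 1 - k) := by
  have hg : ∑ v, (π v : ℂ) * (g v : ℂ) = 0 := by
    have := S.mean
    have h1 : ∑ v, (π v : ℂ) * (g v : ℂ) = ((∑ v, π v * g v : ℝ) : ℂ) := by push_cast; rfl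
    rw [h1, this, Complex.ofReal_zero]
  have hπ : ∑ v, (π v : ℂ) = 1 := by
    rw [← Complex.ofReal_sum, S.tot, Complex.ofReal_one]
  have h1 : phi π K D (n + 1) = phi π K D n * (M * ∑ v, (π v : ℂ) + κ * ∑ v, (π v : ℂ) * g v)
      + (M * ∑ v, (π v : ℂ) * Eop π K (hh K D n) v
        + κ * ∑ v, (π v : ℂ) * ((g v : ℂ) * Eop π K (hh K D n) v)) := by
    conv_lhs => unfold phi
    simp only [mul_sum]
    rw [← sum_add_distrib, ← sum_add_distrib, mul_sum, ← sum_add_distrib]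
    refine sum_congr rfl fun v _ => ?_
    rw [Sys.hh_succ (π := π), hD v]
    ring
  rw [h1, hg, hπ, S.sum_Eop]
  have h2 : ∑ v, (π v : ℂ) * ((g v : ℂ) * Eop π K (hh K D n) v)
      = κ * ∑ k ∈ range n, ee π K g D k * phi π K D (n - 1 - k) := by
    simp only [S.Eop_hh hD, ee, ip, mul_sum, sum_mul]
    rw [sum_comm]
    refine sum_congr rfl fun k _ => ?_
    refine sum_congr rfl fun v _ => ?_
    ring
  rw [h2]
  ring

lemma Sys.yy_nrm (S : Sys π K g p ℓ) {D : V → ℂ} {c : ℝ} (hc : 0 ≤ c) (hD : ∀ v, ‖D v‖ ≤ c)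
    (k : ℕ) : nrm π (yy π K g D k) ≤ (c * ℓ) ^ k * nrm π (fun v => (g v : ℂ)) := by
  induction k with
  | zero => simp [yy]
  | succ k ih =>
    have h1 : nrm π (yy π K g D (k + 1)) ≤ c * nrm π (Eop π K (yy π K g D k)) :=
      nrm_mul_le S.nn hc hD _
    have h2 := S.Eop_nrm (yy π K g D k)
    calc nrm π (yy π K g D (k + 1)) ≤ c * (ℓ * nrm π (yy π K g D k)) :=
          h1.trans (mul_le_mul_of_nonneg_left h2 hc)
      _ ≤ c * (ℓ * ((c * ℓ) ^ k * nrm π (fun v => (g v : ℂ)))) :=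
          mul_le_mul_of_nonneg_left (mul_le_mul_of_nonneg_left ih S.ℓ0) hc
      _ = _ := by ring

lemma Sys.ee_le (S : Sys π K g p ℓ) {D : V → ℂ} {c : ℝ} (hc : 0 ≤ c) (hD : ∀ v, ‖D v‖ ≤ c)
    (k : ℕ) : ‖ee π K g D k‖ ≤ p * ℓ * (c * ℓ) ^ k := by
  have h1 := ip_le S.nn (fun v => (g v : ℂ)) (Eop π K (yy π K g D k))
  have h2 := (S.Eop_nrm (yy π K g D k)).trans
    (mul_le_mul_of_nonneg_left (S.yy_nrm hc hD k) S.ℓ0)
  refine h1.trans ((mul_le_mul_of_nonneg_left h2 (nrm_nonneg _ _)).trans (le_of_eq ?_))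
  rw [← S.nrm_g]; ring

/-- iterates for `D = 1` -/
noncomputable abbrev mu (π : V → ℝ) (K : V → V → ℝ) (g : V → ℝ) (k : ℕ) : ℂ :=
  ee π K g (fun _ => 1) k

lemma Sys.yy_sub (S : Sys π K g p ℓ) {D : V → ℂ} {c d : ℝ} (hc : 1 ≤ c) (hd : 0 ≤ d)
    (hD : ∀ v, ‖D v‖ ≤ c) (hd1 : ∀ v, ‖D v - 1‖ ≤ d)
    (k : ℕ) : nrm π (fun v => yy π K g D k v - yy π K g (fun _ => 1) k v)
      ≤ k * d * (c * ℓ) ^ k * nrm π (fun v => (g v : ℂ)) := by
  have hc0 : 0 ≤ c := by linarith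
  have hN := nrm_nonneg π (fun v => (g v : ℂ))
  induction k with
  | zero => simp [yy, nrm]
  | succ k ih =>
    have h1 : (fun v => yy π K g D (k + 1) v - yy π K g (fun _ => 1) (k + 1) v)
        = fun v => (D v - 1) * Eop π K (yy π K g D k) v
          + Eop π K (fun w => yy π K g D k w - yy π K g (fun _ => 1) k w) v := by
      funext v
      have h2 : Eop π K (fun w => yy π K g D k w - yy π K g (fun _ => 1) k w) v
          = Eop π K (yy π K g D k) v - Eop π K (yy π K g (fun _ => 1) k) v := by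
        simp only [Eop, mul_sub, sum_sub_distrib]
      rw [h2]
      simp only [yy]; ring
    rw [h1]
    refine (nrm_add S.nn _ _).trans ?_
    have h3 : nrm π (fun v => (D v - 1) * Eop π K (yy π K g D k) v)
        ≤ d * (ℓ * ((c * ℓ) ^ k * nrm π (fun v => (g v : ℂ)))) :=
      (nrm_mul_le S.nn hd hd1 _).trans
        (mul_le_mul_of_nonneg_left ((S.Eop_nrm _).trans
          (mul_le_mul_of_nonneg_left (S.yy_nrm hc0 hD k) S.ℓ0)) hd)
    have h4 : nrm π (Eop π K (fun w => yy π K g D k w - yy π K g (fun _ => 1) k w))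
        ≤ ℓ * (k * d * (c * ℓ) ^ k * nrm π (fun v => (g v : ℂ))) :=
      (S.Eop_nrm _).trans (mul_le_mul_of_nonneg_left ih S.ℓ0)
    have h5 : ℓ * ((c * ℓ) ^ k) ≤ (c * ℓ) ^ (k + 1) := by
      have h6 : 0 ≤ (c * ℓ) ^ k := pow_nonneg (mul_nonneg hc0 S.ℓ0) _
      have h7 : ℓ ≤ c * ℓ := by nlinarith [S.ℓ0]
      calc ℓ * ((c * ℓ) ^ k) ≤ (c * ℓ) * (c * ℓ) ^ k := mul_le_mul_of_nonneg_right h7 h6
        _ = _ := by ring
    have h8 : 0 ≤ ((k : ℝ) + 1) * d * nrm π (fun v => (g v : ℂ)) := by positivity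
    push_cast
    calc nrm π (fun v => (D v - 1) * Eop π K (yy π K g D k) v)
          + nrm π (Eop π K (fun w => yy π K g D k w - yy π K g (fun _ => 1) k w))
        ≤ d * (ℓ * ((c * ℓ) ^ k * nrm π (fun v => (g v : ℂ))))
          + ℓ * (k * d * (c * ℓ) ^ k * nrm π (fun v => (g v : ℂ))) := add_le_add h3 h4
      _ = (((k : ℝ) + 1) * d * nrm π (fun v => (g v : ℂ))) * (ℓ * (c * ℓ) ^ k) := by ring
      _ ≤ (((k : ℝ) + 1) * d * nrm π (fun v => (g v : ℂ))) * (c * ℓ) ^ (k + 1) :=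
          mul_le_mul_of_nonneg_left h5 h8
      _ = _ := by ring

lemma Sys.ee_sub (S : Sys π K g p ℓ) {D : V → ℂ} {c d : ℝ} (hc : 1 ≤ c) (hd : 0 ≤ d)
    (hD : ∀ v, ‖D v‖ ≤ c) (hd1 : ∀ v, ‖D v - 1‖ ≤ d)
    (k : ℕ) : ‖ee π K g D k - mu π K g k‖ ≤ p * ℓ * (k * d * (c * ℓ) ^ k) := by
  have h1 : ee π K g D k - mu π K g k = ip π (fun v => (g v : ℂ))
      (Eop π K (fun w => yy π K g D k w - yy π K g (fun _ => 1) k w)) := by
    simp only [mu, ee, ip]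
    rw [← sum_sub_distrib]
    refine sum_congr rfl fun v _ => ?_
    have h2 : Eop π K (fun w => yy π K g D k w - yy π K g (fun _ => 1) k w) v
        = Eop π K (yy π K g D k) v - Eop π K (yy π K g (fun _ => 1) k) v := by
      simp only [Eop, mul_sub, sum_sub_distrib]
    rw [h2]; ring
  rw [h1]
  refine (ip_le S.nn _ _).trans ?_
  have h2 := (S.Eop_nrm (fun w => yy π K g D k w - yy π K g (fun _ => 1) k w)).trans
    (mul_le_mul_of_nonneg_left (S.yy_sub hc hd hD hd1 k) S.ℓ0)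
  refine (mul_le_mul_of_nonneg_left h2 (nrm_nonneg _ _)).trans (le_of_eq ?_)
  rw [← S.nrm_g]; ring

end Pool.Agent.H148.EW
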