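import Mathlib
import Pool.Agent.H148.EW2

/-!
# Comparison of the generating functions of two chains
-/

set_option autoImplicit false

namespace Pool.Agent.H148.EW

open Finset Filter Topology

section exps

lemma exp_quarter : Real.exp (1 / 4) ≤ 4 / 3 := by
  have h1 : Real.exp (1 / 4) ^ 4 = Real.exp 1 := by
    rw [← Real.exp_nat_mul]; norm_num
  have h2 : Real.exp 1 < 2.7182818286 := Real.exp_one_lt_d9
  by_contra h
  push Not at h
  have h3 : (4 / 3 : ℝ) ^ 4 < Real.exp (1 / 4) ^ 4 := pow_lt_pow_left₀ h (by norm_num) (by norm_num)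
  rw [h1] at h3
  norm_num at h3 h2
  linarith

lemma exp_le_43 {x : ℝ} (hx : x ≤ 1 / 4) : Real.exp x ≤ 4 / 3 :=
  (Real.exp_le_exp.mpr hx).trans exp_quarter

lemma exp_ge_34 {x : ℝ} (hx : -(1 / 4) ≤ x) : 3 / 4 ≤ Real.exp x := by
  have := Real.add_one_le_exp x
  linarith

lemma sq_exp_sub_one {x : ℝ} (hx : |x| ≤ 1 / 4) : (Real.exp x - 1) ^ 2 ≤ 16 / 9 * x ^ 2 := by
  have h1 := Real.add_one_le_exp x
  have h2 := Real.add_one_le_exp (-x)
  have h3 : Real.exp x * Real.exp (-x) = 1 := by rw [← Real.exp_add]; simp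
  have h4 := Real.exp_pos x
  have h5 : Real.exp x - 1 ≤ x * Real.exp x := by nlinarith
  have h6 := exp_le_43 (abs_le.mp hx).2
  rcases le_total 0 x with h | h
  · have h7 : Real.exp x - 1 ≤ 4 / 3 * x := by nlinarith
    have h8 : 0 ≤ Real.exp x - 1 := by linarith
    nlinarith
  · have h7 : Real.exp x - 1 ≤ 0 := by nlinarith
    nlinarith

lemma normSq_exp_sub_one (x y : ℝ) : ‖Complex.exp (x + y * Complex.I) - 1‖ ^ 2
    = (Real.exp x - 1) ^ 2 + 4 * Real.exp x * Real.sin (y / 2) ^ 2 := by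
  rw [← Complex.normSq_eq_norm_sq, Complex.normSq_apply]
  have h1 : (Complex.exp (x + y * Complex.I) - 1).re = Real.exp x * Real.cos y - 1 := by
    rw [Complex.sub_re, Complex.exp_re]; simp
  have h2 : (Complex.exp (x + y * Complex.I) - 1).im = Real.exp x * Real.sin y := by
    rw [Complex.sub_im, Complex.exp_im]; simp
  rw [h1, h2]
  have h3 : Real.cos y = 1 - 2 * Real.sin (y / 2) ^ 2 := by
    have := Real.cos_sq' (y / 2)
    have h4 : y = 2 * (y / 2) := by ring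
    conv_lhs => rw [h4, Real.cos_two_mul]
    rw [this]; ring
  have h5 := Real.sin_sq_add_cos_sq y
  have h6 : Real.sin y ^ 2 = 1 - Real.cos y ^ 2 := by linarith
  have : Real.exp x * Real.sin y * (Real.exp x * Real.sin y) = Real.exp x ^ 2 * (1 - Real.cos y ^ 2) := by
    rw [← h6]; ring
  rw [this, h3]; ring

lemma sin_half_sq_le (y : ℝ) : Real.sin (y / 2) ^ 2 ≤ y ^ 2 / 4 := by
  have h1 := Real.abs_sin_le_abs (x := y / 2)
  have h2 : Real.sin (y / 2) ^ 2 ≤ (y / 2) ^ 2 := sq_le_sq.mpr h1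
  linarith [h2, show (y / 2) ^ 2 = y ^ 2 / 4 by ring]

lemma norm_exp_sub_one_le' {x y : ℝ} (hx : |x| ≤ 1 / 4) :
    ‖Complex.exp (x + y * Complex.I) - 1‖ ^ 2 ≤ 2 * (x ^ 2 + y ^ 2) := by
  rw [normSq_exp_sub_one]
  have h1 := sq_exp_sub_one hx
  have h2 := sin_half_sq_le y
  have h3 := exp_le_43 (abs_le.mp hx).2
  have h4 := Real.exp_pos x
  have h5 : 4 * Real.exp x * Real.sin (y / 2) ^ 2 ≤ 4 * (4 / 3) * (y ^ 2 / 4) :=
    mul_le_mul (by linarith) h2 (sq_nonneg _) (by norm_num)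
  nlinarith [sq_nonneg x, sq_nonneg y]

/-- the exponent `ζ = η + i θ` -/
noncomputable abbrev zt (η θ : ℝ) : ℂ := η + θ * Complex.I

lemma zt_mul (η θ a : ℝ) : zt η θ * (a : ℂ) = ((η * a : ℝ) : ℂ) + ((θ * a : ℝ) : ℂ) * Complex.I := by
  simp only [zt]; push_cast; ring

lemma norm_zt_sq (η θ : ℝ) : ‖zt η θ‖ ^ 2 = η ^ 2 + θ ^ 2 := by
  rw [← Complex.normSq_eq_norm_sq, Complex.normSq_apply]
  simp [zt]; ring

lemma norm_exp_zt_sub_one {η θ a : ℝ} (hη : |η| ≤ 1 / 4) (ha : |a| ≤ 1) :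
    ‖Complex.exp (zt η θ * a) - 1‖ ≤ 3 / 2 * (|a| * ‖zt η θ‖) := by
  rw [zt_mul]
  have h1 : |η * a| ≤ 1 / 4 := by
    rw [abs_mul]
    calc |η| * |a| ≤ (1 / 4) * 1 := mul_le_mul hη ha (abs_nonneg _) (by norm_num)
      _ = _ := by norm_num
  have h2 := norm_exp_sub_one_le' (y := θ * a) h1
  have h3 : ‖zt η θ‖ ^ 2 = η ^ 2 + θ ^ 2 := norm_zt_sq η θ
  have h4 : (3 / 2 * (|a| * ‖zt η θ‖)) ^ 2 = 9 / 4 * (a ^ 2 * (η ^ 2 + θ ^ 2)) := by
    rw [mul_pow, mul_pow, h3, sq_abs]; ring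
  have h5 : ‖Complex.exp (((η * a : ℝ) : ℂ) + ((θ * a : ℝ) : ℂ) * Complex.I) - 1‖ ^ 2
      ≤ (3 / 2 * (|a| * ‖zt η θ‖)) ^ 2 := by
    rw [h4]
    nlinarith [sq_nonneg (a * η), sq_nonneg (a * θ)]
  exact le_of_sq_le_sq h5 (by positivity)
where
  le_of_sq_le_sq {a b : ℝ} (h : a ^ 2 ≤ b ^ 2) (hb : 0 ≤ b) : a ≤ b := by
    exact le_of_abs_le (abs_le_of_sq_le_sq h hb)

/-- one-step mean -/
noncomputable def Mz (p0 p1 η θ : ℝ) : ℂ :=
  p0 * Complex.exp (zt η θ * (-p1 : ℝ)) + p1 * Complex.exp (zt η θ * (p0 : ℝ))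

/-- one-step fluctuation -/
noncomputable def kz (p0 p1 η θ : ℝ) : ℂ :=
  Complex.exp (zt η θ * (p0 : ℝ)) - Complex.exp (zt η θ * (-p1 : ℝ))

variable {p0 p1 η θ : ℝ}

lemma kz_sq (h0 : 0 < p0) (h1 : 0 < p1) (hp : p0 + p1 = 1) (hη : |η| ≤ 1 / 4) :
    ‖kz p0 p1 η θ‖ ^ 2 ≤ 256 / 81 * η ^ 2 + 256 / 27 * Real.sin (θ / 2) ^ 2 := by
  have h2 : kz p0 p1 η θ = Complex.exp (zt η θ * (-p1 : ℝ)) * (Complex.exp (zt η θ) - 1) := by
    unfold kz
    rw [mul_sub, ← Complex.exp_add, mul_one]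
    congr 2
    have : (p0 : ℂ) = 1 - p1 := by
      have : p0 = 1 - p1 := by linarith
      rw [this]; push_cast; ring
    rw [this]; push_cast; ring
  rw [h2, norm_mul, mul_pow, normSq_exp_sub_one]
  have h3 : ‖Complex.exp (zt η θ * (-p1 : ℝ))‖ = Real.exp (η * (-p1)) := by
    rw [Complex.norm_exp, zt_mul]
    simp
  rw [h3]
  have h4 := abs_le.mp hη
  have h5 : Real.exp (η * (-p1)) ≤ 4 / 3 := exp_le_43 (by nlinarith)
  have h6 := Real.exp_pos (η * (-p1))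
  have h7 : Real.exp (η * (-p1)) ^ 2 ≤ 16 / 9 := by nlinarith
  have h8 := sq_exp_sub_one hη
  have h9 := exp_le_43 h4.2
  have h10 := sq_nonneg (Real.sin (θ / 2))
  have h11 : (Real.exp η - 1) ^ 2 + 4 * Real.exp η * Real.sin (θ / 2) ^ 2
      ≤ 16 / 9 * η ^ 2 + 16 / 3 * Real.sin (θ / 2) ^ 2 := by nlinarith
  have h12 : 0 ≤ (Real.exp η - 1) ^ 2 + 4 * Real.exp η * Real.sin (θ / 2) ^ 2 := by
    have := Real.exp_pos η; positivity
  calc Real.exp (η * (-p1)) ^ 2 * ((Real.exp η - 1) ^ 2 + 4 * Real.exp η * Real.sin (θ / 2) ^ 2)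
      ≤ 16 / 9 * (16 / 9 * η ^ 2 + 16 / 3 * Real.sin (θ / 2) ^ 2) :=
        mul_le_mul h7 h11 h12 (by norm_num)
    _ = _ := by ring

lemma kz_sq' (h0 : 0 < p0) (h1 : 0 < p1) (hp : p0 + p1 = 1) (hη : |η| ≤ 1 / 4) :
    ‖kz p0 p1 η θ‖ ^ 2 ≤ 4 * ‖zt η θ‖ ^ 2 := by
  rw [norm_zt_sq]
  have h2 := kz_sq (θ := θ) h0 h1 hp hη
  have h3 := sin_half_sq_le θ
  nlinarith [sq_nonneg η, sq_nonneg θ]

lemma p_le (h0 : 0 < p0) (h1 : 0 < p1) (hp : p0 + p1 = 1) : p0 * p1 ≤ 1 / 4 := by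
  have : p1 = 1 - p0 := by linarith
  subst this
  nlinarith [sq_nonneg (p0 - 1 / 2)]

lemma Mz_le (h0 : 0 < p0) (h1 : 0 < p1) (hp : p0 + p1 = 1) (hη : |η| ≤ 1 / 4) :
    ‖Mz p0 p1 η θ‖ ≤ 1 + p0 * p1 * η ^ 2 - 7 / 5 * (p0 * p1) * Real.sin (θ / 2) ^ 2 := by
  have hη' := abs_le.mp hη
  set A := p0 * Real.exp (η * (-p1)) with hA
  set B := p1 * Real.exp (η * p0) with hB
  have hS0 := sq_nonneg (Real.sin (θ / 2))
  have hS1 : Real.sin (θ / 2) ^ 2 ≤ 1 := Real.sin_sq_le_one _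
  have hp4 := p_le h0 h1 hp
  have hpp : 0 < p0 * p1 := mul_pos h0 h1
  have hsq : ‖Mz p0 p1 η θ‖ ^ 2 = (A + B) ^ 2 - 4 * (A * B) * Real.sin (θ / 2) ^ 2 := by
    rw [← Complex.normSq_eq_norm_sq, Complex.normSq_apply]
    have hre : (Mz p0 p1 η θ).re = A * Real.cos (θ * (-p1)) + B * Real.cos (θ * p0) := by
      unfold Mz
      rw [zt_mul, zt_mul, Complex.add_re, Complex.re_ofReal_mul, Complex.re_ofReal_mul,
        Complex.exp_re, Complex.exp_re]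
      simp [hA, hB]; ring
    have him : (Mz p0 p1 η θ).im = A * Real.sin (θ * (-p1)) + B * Real.sin (θ * p0) := by
      unfold Mz
      rw [zt_mul, zt_mul, Complex.add_im, Complex.im_ofReal_mul, Complex.im_ofReal_mul,
        Complex.exp_im, Complex.exp_im]
      simp [hA, hB]; ring
    rw [hre, him]
    have hc : Real.cos (θ * (-p1)) * Real.cos (θ * p0) + Real.sin (θ * (-p1)) * Real.sin (θ * p0)
        = 1 - 2 * Real.sin (θ / 2) ^ 2 := by
      rw [← Real.cos_sub]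
      have : θ * (-p1) - θ * p0 = -(2 * (θ / 2)) := by
        have : p1 = 1 - p0 := by linarith
        rw [this]; ring
      rw [this, Real.cos_neg, Real.cos_two_mul, Real.cos_sq']
      ring
    have h5 := Real.sin_sq_add_cos_sq (θ * (-p1))
    have h6 := Real.sin_sq_add_cos_sq (θ * p0)
    linear_combination 2 * A * B * hc + A ^ 2 * h5 + B ^ 2 * h6
  have hAB : A * B = p0 * p1 * Real.exp (η * (p0 - p1)) := by
    rw [hA, hB]
    have : Real.exp (η * (p0 - p1)) = Real.exp (η * (-p1)) * Real.exp (η * p0) := by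
      rw [← Real.exp_add]; congr 1; ring
    rw [this]; ring
  have hABge : 3 / 4 * (p0 * p1) ≤ A * B := by
    rw [hAB]
    have : 3 / 4 ≤ Real.exp (η * (p0 - p1)) := exp_ge_34 (by nlinarith)
    nlinarith
  have hm1 : A + B ≤ 1 + p0 * p1 * η ^ 2 := by
    have ha : |η * (-p1)| ≤ 1 := by
      rw [abs_le]; constructor <;> nlinarith
    have hb : |η * p0| ≤ 1 := by
      rw [abs_le]; constructor <;> nlinarith
    have e1 := (abs_le.mp (Real.abs_exp_sub_one_sub_id_le ha)).2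
    have e2 := (abs_le.mp (Real.abs_exp_sub_one_sub_id_le hb)).2
    have e3 : A ≤ p0 * (1 + η * (-p1) + (η * (-p1)) ^ 2) :=
      mul_le_mul_of_nonneg_left (by linarith) h0.le
    have e4 : B ≤ p1 * (1 + η * p0 + (η * p0) ^ 2) :=
      mul_le_mul_of_nonneg_left (by linarith) h1.le
    have e5 : p0 * (1 + η * (-p1) + (η * (-p1)) ^ 2) + p1 * (1 + η * p0 + (η * p0) ^ 2)
        = (p0 + p1) + p0 * p1 * η ^ 2 * (p0 + p1) := by ring
    rw [hp] at e5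
    linarith
  have hm2 : 3 / 4 ≤ A + B := by
    have e1 : 3 / 4 ≤ Real.exp (η * (-p1)) := exp_ge_34 (by nlinarith)
    have e2 : 3 / 4 ≤ Real.exp (η * p0) := exp_ge_34 (by nlinarith)
    nlinarith
  have hη2 : η ^ 2 ≤ 1 / 16 := by nlinarith
  have hmle : A + B ≤ 65 / 64 := by nlinarith
  have hfin : ‖Mz p0 p1 η θ‖ ^ 2
      ≤ (A + B - 7 / 5 * (p0 * p1) * Real.sin (θ / 2) ^ 2) ^ 2 := by
    rw [hsq]
    have e1 : (A + B) * (p0 * p1) ≤ 65 / 64 * (p0 * p1) := mul_le_mul_of_nonneg_right hmle hpp.le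
    have e2 : 14 / 5 * ((A + B) * (p0 * p1)) ≤ 4 * (A * B) := by nlinarith
    have e3 : 14 / 5 * ((A + B) * (p0 * p1)) * Real.sin (θ / 2) ^ 2
        ≤ 4 * (A * B) * Real.sin (θ / 2) ^ 2 := mul_le_mul_of_nonneg_right e2 hS0
    nlinarith [sq_nonneg (7 / 5 * (p0 * p1) * Real.sin (θ / 2) ^ 2)]
  have hnn : 0 ≤ A + B - 7 / 5 * (p0 * p1) * Real.sin (θ / 2) ^ 2 := by
    have : p0 * p1 * Real.sin (θ / 2) ^ 2 ≤ 1 / 4 * 1 := mul_le_mul hp4 hS1 hS0 (by norm_num)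
    nlinarith
  have := le_of_abs_le (abs_le_of_sq_le_sq hfin hnn)
  linarith

lemma Mz_sub_one (h0 : 0 < p0) (h1 : 0 < p1) (hp : p0 + p1 = 1) (hη : |η| ≤ 1 / 4) :
    ‖Mz p0 p1 η θ - 1‖ ≤ ‖zt η θ‖ := by
  have h2 : Mz p0 p1 η θ - 1 = p0 * (Complex.exp (zt η θ * (-p1 : ℝ)) - 1)
      + p1 * (Complex.exp (zt η θ * (p0 : ℝ)) - 1) := by
    unfold Mz
    have : (p0 : ℂ) + p1 = 1 := by rw [← Complex.ofReal_add, hp, Complex.ofReal_one]
    linear_combination this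
  rw [h2]
  refine (norm_add_le _ _).trans ?_
  rw [norm_mul, norm_mul, Complex.norm_real, Complex.norm_real, Real.norm_of_nonneg h0.le,
    Real.norm_of_nonneg h1.le]
  have h3 := norm_exp_zt_sub_one (θ := θ) (a := -p1) hη (by rw [abs_neg, abs_of_pos h1]; linarith)
  have h4 := norm_exp_zt_sub_one (θ := θ) (a := p0) hη (by rw [abs_of_pos h0]; linarith)
  rw [abs_neg, abs_of_pos h1] at h3
  rw [abs_of_pos h0] at h4
  have hp4 := p_le h0 h1 hp
  have hz := norm_nonneg (zt η θ)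
  have h5 := mul_le_mul_of_nonneg_left h3 h0.le
  have h6 := mul_le_mul_of_nonneg_left h4 h1.le
  nlinarith

end exps

end Pool.Agent.H148.EW
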