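import Mathlib
import Pool.Agent.H148.EW3

/-!
# Comparison of two chains with the same asymptotic variance
-/

set_option autoImplicit false
set_option maxHeartbeats 4000000

namespace Pool.Agent.H148.EW

open Finset Filter Topology

variable {V V' : Type} [Fintype V] [Fintype V']
variable {π : V → ℝ} {K : V → V → ℝ} {g : V → ℝ} {π' : V' → ℝ} {K' : V' → V' → ℝ} {g' : V' → ℝ}
variable {p ℓ : ℝ}

lemma Sys.mu_le (S : Sys π K g p ℓ) (k : ℕ) : ‖mu π K g k‖ ≤ p * ℓ * ℓ ^ k := by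
  have := S.ee_le (D := fun _ => 1) (c := 1) (by norm_num) (fun _ => by simp) k
  simpa using this

lemma match_le (S : Sys π K g p ℓ) (S' : Sys π' K' g' p ℓ) (hℓ : ℓ ≤ 1 / 50)
    (hm : Tendsto (fun n => ∑ k ∈ range n, (mu π K g k - mu π' K' g' k)) atTop (𝓝 0)) (n : ℕ) :
    ‖∑ k ∈ range n, (mu π K g k - mu π' K' g' k)‖ ≤ 3 * p * ℓ ^ (n + 1) := by
  have hp := S.p0
  have hℓ0 := S.ℓ0
  have h1 : ∀ N, ‖(∑ k ∈ range (n + N), (mu π K g k - mu π' K' g' k))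
      - ∑ k ∈ range n, (mu π K g k - mu π' K' g' k)‖ ≤ 3 * p * ℓ ^ (n + 1) := by
    intro N
    rw [sum_range_add_sub_sum_range']
    refine (norm_sum_le _ _).trans ?_
    have h2 : ∀ k ∈ range N, ‖mu π K g (n + k) - mu π' K' g' (n + k)‖
        ≤ 2 * p * ℓ ^ (n + 1) * ℓ ^ k := by
      intro k _
      refine (norm_sub_le _ _).trans ?_
      have e1 := S.mu_le (n + k)
      have e2 := S'.mu_le (n + k)
      have e3 : ℓ * ℓ ^ (n + k) = ℓ ^ (n + 1) * ℓ ^ k := by ring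
      calc ‖mu π K g (n + k)‖ + ‖mu π' K' g' (n + k)‖
          ≤ p * ℓ * ℓ ^ (n + k) + p * ℓ * ℓ ^ (n + k) := add_le_add e1 e2
        _ = 2 * p * (ℓ * ℓ ^ (n + k)) := by ring
        _ = _ := by rw [e3]; ring
    refine (sum_le_sum h2).trans ?_
    rw [← mul_sum]
    have h3 := geom_le (r := ℓ) hℓ0 (by linarith) N
    have h4 : (1 - ℓ)⁻¹ ≤ 3 / 2 := by
      rw [inv_le_comm₀ (by linarith) (by norm_num)]
      linarith
    have h5 : 0 ≤ 2 * p * ℓ ^ (n + 1) := by positivity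
    calc 2 * p * ℓ ^ (n + 1) * ∑ k ∈ range N, ℓ ^ k ≤ 2 * p * ℓ ^ (n + 1) * (3 / 2) :=
          mul_le_mul_of_nonneg_left (h3.trans h4) h5
      _ = _ := by ring
  have h6 : Tendsto (fun N => ‖(∑ k ∈ range (n + N), (mu π K g k - mu π' K' g' k))
      - ∑ k ∈ range n, (mu π K g k - mu π' K' g' k)‖) atTop
      (𝓝 ‖0 - ∑ k ∈ range n, (mu π K g k - mu π' K' g' k)‖) := by
    apply Tendsto.norm
    apply Tendsto.sub_const
    have h7 : Tendsto (fun N : ℕ => n + N) atTop atTop := tendsto_add_atTop_nat' n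
    exact hm.comp h7
  have h8 := le_of_tendsto h6 (Eventually.of_forall h1)
  rwa [zero_sub, norm_neg] at h8
where
  tendsto_add_atTop_nat' (n : ℕ) : Tendsto (fun N : ℕ => n + N) atTop atTop := by
    simpa [add_comm] using tendsto_add_atTop_nat n
  sum_range_add_sub_sum_range' {f : ℕ → ℂ} {n N : ℕ} :
      (∑ k ∈ range (n + N), f k) - ∑ k ∈ range n, f k = ∑ k ∈ range N, f (n + k) := by
    rw [sum_range_add]; ring

lemma sum_k_pow {q : ℝ} (hq : 0 ≤ q) (hq1 : q ≤ 1 / 32) (n : ℕ) :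
    ∑ k ∈ range n, (k : ℝ) * q ^ k ≤ 9 / 4 * q := by
  rcases n with _ | n
  · simp; positivity
  · rw [sum_range_succ']
    simp only [Nat.cast_zero, zero_mul, add_zero]
    have h1 : ∀ k ∈ range n, ((k + 1 : ℕ) : ℝ) * q ^ (k + 1) ≤ q * (((k : ℝ) + 1) * (1 / 3 : ℝ) ^ k) := by
      intro k _
      have : q ^ k ≤ (1 / 3 : ℝ) ^ k := pow_le_pow_left₀ hq (by linarith) k
      push_cast
      calc ((k : ℝ) + 1) * q ^ (k + 1) = q * (((k : ℝ) + 1) * q ^ k) := by ring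
        _ ≤ _ := by gcongr
    refine (sum_le_sum h1).trans ?_
    rw [← mul_sum]
    have := sum_third n
    nlinarith

/-- The main comparison: two chains with a two-valued observable and the same asymptotic
variance have almost the same generating functions. -/
lemma two_sys {p0 p1 η θ : ℝ} (h0 : 0 < p0) (h1 : 0 < p1) (hp : p0 + p1 = 1)
    (hη : |η| ≤ 1 / 4) (hθ : |θ| ≤ Real.pi) (hℓ : ℓ ≤ 1 / 50)
    (S : Sys π K g (p0 * p1) ℓ) (S' : Sys π' K' g' (p0 * p1) ℓ)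
    (hg : ∀ v, g v = p0 ∨ g v = -p1) (hg' : ∀ v, g' v = p0 ∨ g' v = -p1)
    (hm : Tendsto (fun n => ∑ k ∈ range n, (mu π K g k - mu π' K' g' k)) atTop (𝓝 0)) (n : ℕ) :
    ‖phi π K (fun v => Complex.exp (zt η θ * (g v : ℝ))) n
        - phi π' K' (fun v => Complex.exp (zt η θ * (g' v : ℝ))) n‖
      ≤ 1200 * ℓ ^ 2 * (n * ‖zt η θ‖ ^ 3 + ‖zt η θ‖ ^ 2)
        * Real.exp (n * (η ^ 2 - p0 * p1 * Real.sin (θ / 2) ^ 2)) := by
  set z := ‖zt η θ‖ with hz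
  have hz0 : 0 ≤ z := norm_nonneg _
  set s := Real.sin (θ / 2) ^ 2 with hs
  have hs0 : 0 ≤ s := sq_nonneg _
  have hs1 : s ≤ 1 := Real.sin_sq_le_one _
  set p := p0 * p1 with hpdef
  have hp4 : p ≤ 1 / 4 := p_le h0 h1 hp
  have hpp : 0 < p := mul_pos h0 h1
  have hℓ0 : 0 ≤ ℓ := S.ℓ0
  set R := 1 + η ^ 2 - p * s with hR
  set q := 4 / 3 * ℓ with hq
  set M := Mz p0 p1 η θ with hM
  set κ := kz p0 p1 η θ with hκ
  have hη' := abs_le.mp hη
  have hz4 : z ≤ 4 := by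
    have e1 : z ≤ |η| + |θ| := by
      have : z ≤ ‖(η : ℂ)‖ + ‖(θ : ℂ) * Complex.I‖ := norm_add_le _ _
      simpa using this
    have := Real.pi_lt_d2
    norm_num at this
    linarith
  have hκ1 : ‖κ‖ ^ 2 ≤ 256 / 81 * η ^ 2 + 256 / 27 * s := kz_sq h0 h1 hp hη
  have hκ2 : ‖κ‖ ^ 2 ≤ 4 * z ^ 2 := kz_sq' h0 h1 hp hη
  have hM1 : ‖M‖ ≤ 1 + p * η ^ 2 - 7 / 5 * p * s := Mz_le h0 h1 hp hη
  have hM2 : ‖M - 1‖ ≤ z := Mz_sub_one h0 h1 hp hη
  have hκ0 : 0 ≤ ‖κ‖ ^ 2 := by positivity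
  have hpl : p * ℓ * (7 / 5) ≤ 7 / 250 * p := by nlinarith
  have hpl0 : 0 ≤ p * ℓ * (7 / 5) := by positivity
  have hbR : ‖M‖ + ‖κ‖ ^ 2 * (p * ℓ * (7 / 5)) ≤ R := by
    have e1 : ‖κ‖ ^ 2 * (p * ℓ * (7 / 5)) ≤ (256 / 81 * η ^ 2 + 256 / 27 * s) * (7 / 250 * p) :=
      mul_le_mul hκ1 hpl hpl0 (by positivity)
    have e2 : 0 ≤ p * s := by positivity
    have e3 : 0 ≤ η ^ 2 := sq_nonneg _
    have e4 : p * η ^ 2 ≤ 1 / 4 * η ^ 2 := mul_le_mul_of_nonneg_right hp4 e3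
    rw [hR]
    nlinarith
  have hR34 : 3 / 4 ≤ R := by
    rw [hR]; nlinarith [sq_nonneg η, mul_le_mul hp4 hs1 hs0 (by norm_num : (0:ℝ) ≤ 1 / 4)]
  have hD : ∀ {W : Type} (f : W → ℝ), (∀ v, f v = p0 ∨ f v = -p1) →
      ∀ v, Complex.exp (zt η θ * (f v : ℝ)) = M + κ * (f v : ℝ) := by
    intro W f hf v
    have hp' : (p0 : ℂ) + p1 = 1 := by rw [← Complex.ofReal_add, hp, Complex.ofReal_one]
    rcases hf v with h | h <;> rw [h, hM, hκ] <;> unfold Mz kz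
    · linear_combination (-Complex.exp (zt η θ * (p0 : ℝ))) * hp'
    · push_cast
      linear_combination (-Complex.exp (zt η θ * (-p1))) * hp'
  have hDn : ∀ {W : Type} (f : W → ℝ), (∀ v, f v = p0 ∨ f v = -p1) →
      ∀ v, ‖Complex.exp (zt η θ * (f v : ℝ))‖ ≤ 4 / 3 := by
    intro W f hf v
    rw [Complex.norm_exp, zt_mul]
    have : (((η * f v : ℝ) : ℂ) + ((θ * f v : ℝ) : ℂ) * Complex.I).re = η * f v := by simp
    rw [this]
    apply exp_le_43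
    rcases hf v with h | h <;> rw [h] <;> nlinarith
  have hD1 : ∀ {W : Type} (f : W → ℝ), (∀ v, f v = p0 ∨ f v = -p1) →
      ∀ v, ‖Complex.exp (zt η θ * (f v : ℝ)) - 1‖ ≤ 3 / 2 * z := by
    intro W f hf v
    have e1 : |f v| ≤ 1 := by
      rcases hf v with h | h <;> rw [h, abs_le] <;> constructor <;> linarith
    refine (norm_exp_zt_sub_one hη e1).trans ?_
    have := abs_nonneg (f v)
    nlinarith
  have hq0 : 0 ≤ q := by positivity
  have hq1 : q ≤ 1 / 32 := by rw [hq]; linarith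
  have ren : Ren (phi π K (fun v => Complex.exp (zt η θ * (g v : ℝ))))
      (ee π K g (fun v => Complex.exp (zt η θ * (g v : ℝ)))) M κ p ℓ q R :=
    { p0 := hpp.le, ℓ0 := hℓ0, q0 := hq0, q1 := hq1, R34 := hR34
      zero := S.phi_zero _
      recu := fun n => S.phi_succ (hD g hg) n
      be := fun k => S.ee_le (by norm_num) (hDn g hg) k
      bR := hbR }
  have ren' : Ren (phi π' K' (fun v => Complex.exp (zt η θ * (g' v : ℝ))))
      (ee π' K' g' (fun v => Complex.exp (zt η θ * (g' v : ℝ)))) M κ p ℓ q R :=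
    { p0 := hpp.le, ℓ0 := hℓ0, q0 := hq0, q1 := hq1, R34 := hR34
      zero := S'.phi_zero _
      recu := fun n => S'.phi_succ (hD g' hg') n
      be := fun k => S'.ee_le (by norm_num) (hDn g' hg') k
      bR := hbR }
  set e := ee π K g (fun v => Complex.exp (zt η θ * (g v : ℝ))) with he
  set e' := ee π' K' g' (fun v => Complex.exp (zt η θ * (g' v : ℝ))) with he'
  have hml := match_le S S' hℓ hm
  have he0 : e 0 = mu π K g 0 := rfl
  have he0' : e' 0 = mu π' K' g' 0 := rfl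
  have hb : ∀ k, ‖e k - e' k‖ ≤ 24 * ℓ ^ 2 * (1 / 4 : ℝ) ^ k := by
    intro k
    rcases k with _ | k
    · have := hml 1
      simp only [sum_range_one] at this
      rw [he0, he0', pow_zero, mul_one]
      refine this.trans ?_
      have : 0 ≤ ℓ ^ 2 := sq_nonneg _
      norm_num
      nlinarith
    · refine (norm_sub_le _ _).trans ?_
      have e1 := ren.be (k + 1)
      have e2 := ren'.be (k + 1)
      have e3 : q ^ k ≤ (1 / 4 : ℝ) ^ k := pow_le_pow_left₀ hq0 (by linarith) k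
      have e3' : q ^ (k + 1) ≤ 4 / 3 * ℓ * (1 / 4 : ℝ) ^ k := by
        rw [pow_succ, mul_comm, hq]
        rw [← hq]
        rw [hq] at e3 ⊢
        exact mul_le_mul_of_nonneg_left e3 (by positivity)
      have e4 : 0 ≤ (1 / 4 : ℝ) ^ k := by positivity
      have e5 : p * ℓ * q ^ (k + 1) ≤ p * ℓ * (4 / 3 * ℓ * (1 / 4 : ℝ) ^ k) :=
        mul_le_mul_of_nonneg_left e3' (by positivity)
      have e6 : p * ℓ * (4 / 3 * ℓ * (1 / 4 : ℝ) ^ k) ≤ 1 / 4 * (4 / 3 * (ℓ ^ 2 * (1 / 4 : ℝ) ^ k)) := by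
        have : 0 ≤ ℓ ^ 2 * (1 / 4 : ℝ) ^ k := by positivity
        nlinarith
      have e7 : 0 ≤ ℓ ^ 2 * (1 / 4 : ℝ) ^ k := by positivity
      have e8 : 24 * ℓ ^ 2 * (1 / 4 : ℝ) ^ (k + 1) = 6 * (ℓ ^ 2 * (1 / 4 : ℝ) ^ k) := by
        rw [pow_succ]; ring
      rw [e8]
      linarith
  have hsum : ∀ n, ‖∑ k ∈ range n, (e k - e' k)‖ ≤ ℓ ^ 2 * (3 * z + 4 * (1 / 4 : ℝ) ^ n) := by
    intro n
    rcases Nat.eq_zero_or_pos n with rfl | hn
    · simp; positivity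
    have e1 : ∑ k ∈ range n, (e k - e' k) = (∑ k ∈ range n, (e k - mu π K g k))
        - (∑ k ∈ range n, (e' k - mu π' K' g' k))
        + ∑ k ∈ range n, (mu π K g k - mu π' K' g' k) := by
      rw [← sum_sub_distrib, ← sum_add_distrib]
      refine sum_congr rfl fun k _ => ?_
      ring
    have hgen : ∀ (f h : ℕ → ℂ), (∀ k, ‖f k - h k‖ ≤ p * ℓ * (k * (3 / 2 * z) * (4 / 3 * ℓ) ^ k)) →
        ‖∑ k ∈ range n, (f k - h k)‖ ≤ 9 / 8 * (ℓ ^ 2 * z) := by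
      intro f h hfh
      refine (norm_sum_le _ _).trans ((sum_le_sum fun k _ => hfh k).trans ?_)
      have e2 : ∑ k ∈ range n, p * ℓ * (k * (3 / 2 * z) * (4 / 3 * ℓ) ^ k)
          = p * ℓ * (3 / 2 * z) * ∑ k ∈ range n, (k : ℝ) * q ^ k := by
        rw [mul_sum]
        refine sum_congr rfl fun k _ => ?_
        rw [hq]; ring
      rw [e2]
      have e3 := sum_k_pow hq0 hq1 n
      calc p * ℓ * (3 / 2 * z) * ∑ k ∈ range n, (k : ℝ) * q ^ k
          ≤ p * ℓ * (3 / 2 * z) * (9 / 4 * q) := mul_le_mul_of_nonneg_left e3 (by positivity)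
        _ = 9 / 2 * p * (ℓ ^ 2 * z) := by rw [hq]; ring
        _ ≤ 9 / 8 * (ℓ ^ 2 * z) := by
            have : 0 ≤ ℓ ^ 2 * z := by positivity
            nlinarith
    have e4 := hgen e (mu π K g) (fun k =>
      S.ee_sub (by norm_num) (by positivity) (hDn g hg) (hD1 g hg) k)
    have e5 := hgen e' (mu π' K' g') (fun k =>
      S'.ee_sub (by norm_num) (by positivity) (hDn g' hg') (hD1 g' hg') k)
    have e6 : 3 * p * ℓ ^ (n + 1) ≤ ℓ ^ 2 * (4 * (1 / 4 : ℝ) ^ n) := by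
      obtain ⟨m, rfl⟩ : ∃ m, n = m + 1 := ⟨n - 1, by omega⟩
      have e7 : ℓ ^ m ≤ (1 / 4 : ℝ) ^ m := pow_le_pow_left₀ hℓ0 (by linarith) m
      have e8 : 0 ≤ (1 / 4 : ℝ) ^ m := by positivity
      have e9 : ℓ ^ (m + 1 + 1) ≤ ℓ ^ 2 * (1 / 4 : ℝ) ^ m := by
        have : ℓ ^ (m + 1 + 1) = ℓ ^ 2 * ℓ ^ m := by ring
        rw [this]
        exact mul_le_mul_of_nonneg_left e7 (sq_nonneg _)
      have e10 : ℓ ^ 2 * (4 * (1 / 4 : ℝ) ^ (m + 1)) = ℓ ^ 2 * (1 / 4 : ℝ) ^ m := by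
        rw [pow_succ]; ring
      rw [e10]
      have e11 : 0 ≤ ℓ ^ 2 * (1 / 4 : ℝ) ^ m := by positivity
      nlinarith
    rw [e1]
    refine (norm_add_le _ _).trans ?_
    have e12 := (norm_sub_le (∑ k ∈ range n, (e k - mu π K g k))
      (∑ k ∈ range n, (e' k - mu π' K' g' k)))
    have e13 := hml n
    have e14 : 0 ≤ ℓ ^ 2 * z := by positivity
    nlinarith
  have hcmp := ren.compare ren' (d := 3 * z) (by positivity) hb hsum n
  refine hcmp.trans ?_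
  have hRn : R ^ n ≤ Real.exp (n * (η ^ 2 - p * s)) := by
    rw [Real.exp_nat_mul]
    apply pow_le_pow_left₀ (by linarith)
    have := Real.add_one_le_exp (η ^ 2 - p * s)
    rw [hR]; linarith
  set g0 := ‖M - 1‖ + ‖κ‖ ^ 2 * (p * ℓ * (7 / 5)) with hg0
  have hg1 : g0 ≤ 2 * z := by
    have e1 : ‖κ‖ ^ 2 * (p * ℓ * (7 / 5)) ≤ (4 * z ^ 2) * (7 / 250 * p) :=
      mul_le_mul hκ2 hpl hpl0 (by positivity)
    have e2 : (4 * z ^ 2) * (7 / 250 * p) ≤ z := by nlinarith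
    rw [hg0]; linarith
  have hg00 : 0 ≤ g0 := by positivity
  have hmain : ‖κ‖ ^ 2 * ℓ ^ 2 * (2 * n * (3 * z + 72 * g0) + 8)
      ≤ 1200 * ℓ ^ 2 * (n * z ^ 3 + z ^ 2) := by
    have e1 : 2 * (n : ℝ) * (3 * z + 72 * g0) + 8 ≤ 294 * (n * z) + 8 := by
      have : (n : ℝ) * g0 ≤ n * (2 * z) := mul_le_mul_of_nonneg_left hg1 (Nat.cast_nonneg n)
      nlinarith
    have e2 : 0 ≤ 2 * (n : ℝ) * (3 * z + 72 * g0) + 8 := by positivity
    calc ‖κ‖ ^ 2 * ℓ ^ 2 * (2 * n * (3 * z + 72 * g0) + 8)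
        = ℓ ^ 2 * (‖κ‖ ^ 2 * (2 * n * (3 * z + 72 * g0) + 8)) := by ring
      _ ≤ ℓ ^ 2 * ((4 * z ^ 2) * (294 * (n * z) + 8)) :=
          mul_le_mul_of_nonneg_left (mul_le_mul hκ2 e1 e2 (by positivity)) (sq_nonneg _)
      _ = ℓ ^ 2 * (1176 * (n * z ^ 3) + 32 * z ^ 2) := by ring
      _ ≤ ℓ ^ 2 * (1200 * (n * z ^ 3) + 1200 * z ^ 2) := by
          apply mul_le_mul_of_nonneg_left _ (sq_nonneg _)
          have : 0 ≤ (n : ℝ) * z ^ 3 := by positivity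
          nlinarith [sq_nonneg z]
      _ = _ := by ring
  calc R ^ n * (‖κ‖ ^ 2 * ℓ ^ 2 * (2 * n * (3 * z + 72 * g0) + 8))
      ≤ Real.exp (n * (η ^ 2 - p * s)) * (1200 * ℓ ^ 2 * (n * z ^ 3 + z ^ 2)) :=
        mul_le_mul hRn hmain (by positivity) (Real.exp_pos _).le
    _ = _ := by ring

end Pool.Agent.H148.EW
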