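import Mathlib
import Pool.Agent.H148.EW4

/-!
# From generating functions to coefficients
-/

set_option autoImplicit false
set_option maxHeartbeats 4000000

namespace Pool.Agent.H148.EW

open Finset Filter Topology MeasureTheory intervalIntegral

lemma orth (m : ℤ) : ∫ θ in (-Real.pi)..Real.pi, Complex.exp ((m : ℂ) * Complex.I * (θ : ℂ))
    = if m = 0 then 2 * (Real.pi : ℂ) else 0 := by
  split_ifs with h
  · subst h
    simp
    ring
  · have hc : (m : ℂ) * Complex.I ≠ 0 := by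
      simp [h]
    rw [integral_exp_mul_complex hc]
    have : Complex.exp ((m : ℂ) * Complex.I * (Real.pi : ℂ))
        = Complex.exp ((m : ℂ) * Complex.I * ((-Real.pi : ℝ) : ℂ)) := by
      rw [Complex.exp_eq_exp_iff_exists_int]
      exact ⟨m, by push_cast; ring⟩
    rw [this, sub_self, zero_div]

/-- extraction of a coefficient of an exponential polynomial -/
lemma coeff_le (c : ℕ → ℝ) (N : ℕ) (η x : ℝ) (j : ℕ) (hj : j < N) :
    |c j| * Real.exp (η * (j - x)) * (2 * Real.pi)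
      ≤ ∫ θ in (-Real.pi)..Real.pi,
        ‖∑ k ∈ range N, (c k : ℂ) * Complex.exp (zt η θ * ((k - x : ℝ) : ℂ))‖ := by
  have h1 : ∫ θ in (-Real.pi)..Real.pi,
      (∑ k ∈ range N, (c k : ℂ) * Complex.exp (zt η θ * ((k - x : ℝ) : ℂ)))
        * Complex.exp (-((θ * (j - x) : ℝ) : ℂ) * Complex.I)
      = (c j : ℂ) * Complex.exp ((η * (j - x) : ℝ) : ℂ) * (2 * (Real.pi : ℂ)) := by
    have h2 : ∀ θ : ℝ, (∑ k ∈ range N, (c k : ℂ) * Complex.exp (zt η θ * ((k - x : ℝ) : ℂ)))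
        * Complex.exp (-((θ * (j - x) : ℝ) : ℂ) * Complex.I)
        = ∑ k ∈ range N, ((c k : ℂ) * Complex.exp ((η * (k - x) : ℝ) : ℂ))
          * Complex.exp ((((k : ℤ) - (j : ℤ) : ℤ) : ℂ) * Complex.I * (θ : ℂ)) := by
      intro θ
      rw [sum_mul]
      refine sum_congr rfl fun k _ => ?_
      rw [mul_assoc, mul_assoc, ← Complex.exp_add, ← Complex.exp_add]
      congr 2
      simp only [zt]
      push_cast
      ring
    simp only [h2]
    rw [intervalIntegral.integral_finsetSum]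
    · have h3 : ∀ k ∈ range N, ∫ θ in (-Real.pi)..Real.pi,
          ((c k : ℂ) * Complex.exp ((η * (k - x) : ℝ) : ℂ))
          * Complex.exp ((((k : ℤ) - (j : ℤ) : ℤ) : ℂ) * Complex.I * (θ : ℂ))
          = if k = j then (c j : ℂ) * Complex.exp ((η * (j - x) : ℝ) : ℂ) * (2 * (Real.pi : ℂ))
            else 0 := by
        intro k _
        rw [intervalIntegral.integral_const_mul, orth]
        by_cases hkj : k = j
        · subst hkj; simp
        · have : ((k : ℤ) - (j : ℤ)) ≠ 0 := by omega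
          rw [if_neg this, if_neg hkj, mul_zero]
      rw [sum_congr rfl h3, sum_ite_eq' (range N) j, if_pos (mem_range.mpr hj)]
    · intro k _
      apply Continuous.intervalIntegrable
      fun_prop
  have h4 : ‖(c j : ℂ) * Complex.exp ((η * (j - x) : ℝ) : ℂ) * (2 * (Real.pi : ℂ))‖
      = |c j| * Real.exp (η * (j - x)) * (2 * Real.pi) := by
    rw [norm_mul, norm_mul, Complex.norm_real, Real.norm_eq_abs, Complex.norm_exp, norm_mul,
      Complex.norm_real, Real.norm_of_nonneg Real.pi_pos.le]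
    simp
  rw [← h4, ← h1]
  have hπ : -Real.pi ≤ Real.pi := by linarith [Real.pi_pos]
  refine (intervalIntegral.norm_integral_le_integral_norm hπ).trans (le_of_eq ?_)
  congr 1
  funext θ
  rw [norm_mul]
  have : ‖Complex.exp (-((θ * (j - x) : ℝ) : ℂ) * Complex.I)‖ = 1 := by
    rw [← Complex.ofReal_neg, Complex.norm_exp_ofReal_mul_I]
  rw [this, mul_one]

lemma sum_exp_abs (x a : ℝ) (ha : 0 < a) (N : ℕ) :
    ∑ j ∈ range N, Real.exp (-(a * |(j : ℝ) - x|)) ≤ 2 * (1 - Real.exp (-a))⁻¹ := by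
  set r := Real.exp (-a) with hr
  have hr0 : 0 < r := Real.exp_pos _
  have hr1 : r < 1 := by rw [hr, Real.exp_lt_one_iff]; linarith
  set m := ⌈x⌉₊ with hm
  have hxm : x ≤ m := Nat.le_ceil x
  have h1 : ∑ j ∈ range N, Real.exp (-(a * |(j : ℝ) - x|))
      ≤ ∑ j ∈ range (m + N), Real.exp (-(a * |(j : ℝ) - x|)) := by
    apply sum_le_sum_of_subset_of_nonneg
    · intro j hj; simp only [mem_range] at *; omega
    · intro j _ _; exact (Real.exp_pos _).le
  refine h1.trans ?_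
  rw [sum_range_add]
  have h2 : ∑ j ∈ range m, Real.exp (-(a * |(j : ℝ) - x|)) ≤ (1 - r)⁻¹ := by
    refine le_trans ?_ (geom_le hr0.le hr1 m)
    rw [← sum_range_reflect (fun i => r ^ i) m]
    refine sum_le_sum fun j hj => ?_
    have hj' : j < m := mem_range.mp hj
    have h3 : ((m - 1 : ℕ) : ℝ) < x := by
      have : m - 1 < ⌈x⌉₊ := by omega
      exact Nat.lt_ceil.mp this
    have h4 : ((m - 1 - j : ℕ) : ℝ) = ((m - 1 : ℕ) : ℝ) - j := by
      rw [Nat.cast_sub (by omega)]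
    have h5 : ((m - 1 - j : ℕ) : ℝ) ≤ |(j : ℝ) - x| := by
      rw [h4, abs_sub_comm]
      exact le_trans (by linarith) (le_abs_self _)
    rw [hr, ← Real.exp_nat_mul]
    apply Real.exp_le_exp.mpr
    nlinarith
  have h6 : ∑ i ∈ range N, Real.exp (-(a * |((m + i : ℕ) : ℝ) - x|)) ≤ (1 - r)⁻¹ := by
    refine le_trans ?_ (geom_le hr0.le hr1 N)
    refine sum_le_sum fun i _ => ?_
    have h5 : (i : ℝ) ≤ |((m + i : ℕ) : ℝ) - x| := by
      push_cast
      exact le_trans (by linarith) (le_abs_self _)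
    rw [hr, ← Real.exp_nat_mul]
    apply Real.exp_le_exp.mpr
    nlinarith
  linarith

/-- pointwise bound of the integrand by a Gaussian -/
lemma integrand_le {p ℓ η θ : ℝ} (hp : 0 < p) (n : ℕ) (hn : 1 ≤ n)
    (hη : η ^ 2 * n = 1 / 16) (hθ : |θ| ≤ Real.pi) :
    1200 * ℓ ^ 2 * (n * ‖zt η θ‖ ^ 3 + ‖zt η θ‖ ^ 2)
        * Real.exp (n * (η ^ 2 - p * Real.sin (θ / 2) ^ 2))
      ≤ (3200 * (8 + 16 / (p / 20) ^ 2)) * ℓ ^ 2 / Real.sqrt n * Real.exp (-(p / 20 * n) * θ ^ 2) := by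
  have hn' : (1 : ℝ) ≤ n := by exact_mod_cast hn
  have hn0 : (0 : ℝ) < n := by linarith
  set u := Real.sqrt n with hu
  have hu1 : 1 ≤ u := by rw [hu]; exact Real.one_le_sqrt.mpr hn'
  have hu0 : 0 < u := by linarith
  have hu2 : u ^ 2 = n := Real.sq_sqrt hn0.le
  set z := ‖zt η θ‖ with hz
  have hz0 : 0 ≤ z := norm_nonneg _
  set w := u * |θ| with hw
  have hw0 : 0 ≤ w := by positivity
  have hw2 : w ^ 2 = n * θ ^ 2 := by rw [hw, mul_pow, hu2, sq_abs]
  set b := p / 20 with hb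
  have hb0 : 0 < b := by positivity
  -- `u z ≤ 1 + w`
  have huz : u * z ≤ 1 + w := by
    have e1 : z ≤ |η| + |θ| := by
      have : z ≤ ‖(η : ℂ)‖ + ‖(θ : ℂ) * Complex.I‖ := norm_add_le _ _
      simpa using this
    have e2 : (u * |η|) ^ 2 = 1 / 16 := by rw [mul_pow, hu2, sq_abs]; linarith
    have e3 : u * |η| ≤ 1 := by
      have : 0 ≤ u * |η| := by positivity
      nlinarith
    calc u * z ≤ u * (|η| + |θ|) := mul_le_mul_of_nonneg_left e1 hu0.le
      _ = u * |η| + w := by rw [hw]; ring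
      _ ≤ _ := by linarith
  have hpoly : n * z ^ 3 + z ^ 2 ≤ 2 * (1 + w) ^ 3 / u := by
    rw [le_div_iff₀ hu0]
    have e0 : 0 ≤ u * z := by positivity
    have e1 : (u * z) ^ 3 ≤ (1 + w) ^ 3 := pow_le_pow_left₀ e0 huz 3
    have e2 : (u * z) ^ 2 ≤ (1 + w) ^ 2 := pow_le_pow_left₀ e0 huz 2
    have e3 : (1 + w) ^ 2 ≤ (1 + w) ^ 3 := pow_le_pow_right₀ (by linarith) (by norm_num)
    have e4 : z ^ 2 * u ≤ (u * z) ^ 2 := by
      rw [mul_pow]
      have : 0 ≤ z ^ 2 := sq_nonneg _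
      nlinarith [mul_nonneg this (mul_nonneg hu0.le (sub_nonneg.mpr hu1))]
    have e5 : (n * z ^ 3 + z ^ 2) * u = (u * z) ^ 3 + z ^ 2 * u := by
      rw [← hu2]; ring
    rw [e5]; linarith
  have hgauss : (1 + w) ^ 3 ≤ (8 + 16 / b ^ 2) * Real.exp (b * w ^ 2) := by
    have e1 : (1 + w) ^ 3 ≤ 8 + 8 * w ^ 4 := by
      rcases le_total w 1 with h | h
      · have e2 : (1 + w) ^ 3 ≤ 2 ^ 3 := pow_le_pow_left₀ (by linarith) (by linarith) 3
        have : 0 ≤ w ^ 4 := by positivity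
        norm_num at e2
        linarith
      · have e2 : (1 + w) ^ 3 ≤ (2 * w) ^ 3 := pow_le_pow_left₀ (by linarith) (by linarith) 3
        have e3 : w ^ 3 ≤ w ^ 4 := pow_le_pow_right₀ h (by norm_num)
        nlinarith
    have hx : 0 ≤ b * w ^ 2 := by positivity
    have e4 := Real.quadratic_le_exp_of_nonneg hx
    have e5 : 1 ≤ Real.exp (b * w ^ 2) := Real.one_le_exp hx
    have e6 : w ^ 4 ≤ 2 / b ^ 2 * Real.exp (b * w ^ 2) := by
      rw [div_mul_eq_mul_div, le_div_iff₀ (by positivity)]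
      have : (b * w ^ 2) ^ 2 / 2 ≤ Real.exp (b * w ^ 2) := by linarith
      nlinarith
    have e7 : 8 + 8 * w ^ 4 ≤ 8 * Real.exp (b * w ^ 2) + 8 * (2 / b ^ 2 * Real.exp (b * w ^ 2)) := by
      linarith
    refine e1.trans (e7.trans (le_of_eq ?_))
    ring
  have hexp : Real.exp (n * (η ^ 2 - p * Real.sin (θ / 2) ^ 2))
      ≤ 4 / 3 * Real.exp (-(2 * b) * w ^ 2) := by
    have e1 : θ ^ 2 / 10 ≤ Real.sin (θ / 2) ^ 2 := by
      have e2 : 2 / Real.pi * (|θ| / 2) ≤ Real.sin (|θ| / 2) :=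
        Real.mul_le_sin (by positivity) (by linarith)
      have e3 : Real.sin (|θ| / 2) ^ 2 = Real.sin (θ / 2) ^ 2 := by
        rcases abs_choice θ with h | h <;> rw [h]
        rw [neg_div, Real.sin_neg, neg_sq]
      have e4 : 0 ≤ 2 / Real.pi * (|θ| / 2) := by positivity
      have e5 : (2 / Real.pi * (|θ| / 2)) ^ 2 ≤ Real.sin (|θ| / 2) ^ 2 :=
        pow_le_pow_left₀ e4 e2 2
      have e6 : (2 / Real.pi * (|θ| / 2)) ^ 2 = θ ^ 2 / Real.pi ^ 2 := by
        rw [← sq_abs θ]; field_simp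
      have e7 : Real.pi ^ 2 ≤ 10 := by
        have := Real.pi_lt_d2
        have := Real.pi_pos
        nlinarith
      have e8 : θ ^ 2 / 10 ≤ θ ^ 2 / Real.pi ^ 2 :=
        div_le_div_of_nonneg_left (sq_nonneg _) (by positivity) e7
      rw [e3, e6] at e5
      linarith
    have e9 : n * (η ^ 2 - p * Real.sin (θ / 2) ^ 2) ≤ 1 / 16 + -(2 * b) * w ^ 2 := by
      rw [hw2, hb]
      have : p * n * (θ ^ 2 / 10) ≤ p * n * Real.sin (θ / 2) ^ 2 :=
        mul_le_mul_of_nonneg_left e1 (by positivity)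
      nlinarith
    calc Real.exp (n * (η ^ 2 - p * Real.sin (θ / 2) ^ 2))
        ≤ Real.exp (1 / 16 + -(2 * b) * w ^ 2) := Real.exp_le_exp.mpr e9
      _ = Real.exp (1 / 16) * Real.exp (-(2 * b) * w ^ 2) := Real.exp_add _ _
      _ ≤ _ := mul_le_mul_of_nonneg_right (exp_le_43 (by norm_num)) (Real.exp_pos _).le
  have hE : Real.exp (b * w ^ 2) * Real.exp (-(2 * b) * w ^ 2) = Real.exp (-(b * n) * θ ^ 2) := by
    rw [← Real.exp_add, hw2]; congr 1; ring
  have hA : 0 ≤ (8 + 16 / b ^ 2) := by positivity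
  calc 1200 * ℓ ^ 2 * (n * z ^ 3 + z ^ 2)
        * Real.exp (n * (η ^ 2 - p * Real.sin (θ / 2) ^ 2))
      ≤ 1200 * ℓ ^ 2 * (2 * ((8 + 16 / b ^ 2) * Real.exp (b * w ^ 2)) / u)
        * (4 / 3 * Real.exp (-(2 * b) * w ^ 2)) := by
        apply mul_le_mul _ hexp (Real.exp_pos _).le (by positivity)
        apply mul_le_mul_of_nonneg_left _ (by positivity)
        refine hpoly.trans ?_
        apply div_le_div_of_nonneg_right _ hu0.le
        linarith
    _ = (3200 * (8 + 16 / b ^ 2)) * ℓ ^ 2 / u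
        * (Real.exp (b * w ^ 2) * Real.exp (-(2 * b) * w ^ 2)) := by ring
    _ = _ := by rw [hE]

/-- From bounds of the difference of generating functions to an `ℓ¹` bound. -/
lemma l1_bound {p ℓ : ℝ} (hp : 0 < p) (n : ℕ) (hn : 1 ≤ n) (c : ℕ → ℝ) (x : ℝ)
    (hc : ∀ η θ : ℝ, |η| ≤ 1 / 4 → |θ| ≤ Real.pi →
      ‖∑ k ∈ range (n + 1), (c k : ℂ) * Complex.exp (zt η θ * ((k - x : ℝ) : ℂ))‖
        ≤ 1200 * ℓ ^ 2 * (n * ‖zt η θ‖ ^ 3 + ‖zt η θ‖ ^ 2)
          * Real.exp (n * (η ^ 2 - p * Real.sin (θ / 2) ^ 2))) :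
    ∑ k ∈ range (n + 1), |c k|
      ≤ 10 * (3200 * (8 + 16 / (p / 20) ^ 2)) * Real.sqrt (Real.pi / (p / 20)) * ℓ ^ 2
        / Real.sqrt n := by
  have hn' : (1 : ℝ) ≤ n := by exact_mod_cast hn
  have hn0 : (0 : ℝ) < n := by linarith
  set u := Real.sqrt n with hu
  have hu1 : 1 ≤ u := by rw [hu]; exact Real.one_le_sqrt.mpr hn'
  have hu0 : 0 < u := by linarith
  have hu2 : u ^ 2 = n := Real.sq_sqrt hn0.le
  set C1 := 3200 * (8 + 16 / (p / 20) ^ 2) with hC1
  have hC10 : 0 ≤ C1 := by positivity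
  set a := 1 / (4 * u) with ha
  have ha0 : 0 < a := by positivity
  have ha1 : a ≤ 1 / 4 := by
    rw [ha, div_le_div_iff₀ (by positivity) (by norm_num)]; linarith
  have ha2 : a ^ 2 * n = 1 / 16 := by
    rw [ha, ← hu2]; field_simp; norm_num
  have hπ := Real.pi_pos
  -- the integral bound
  have hint : ∀ η : ℝ, |η| ≤ 1 / 4 → η ^ 2 * n = 1 / 16 →
      ∫ θ in (-Real.pi)..Real.pi,
        ‖∑ k ∈ range (n + 1), (c k : ℂ) * Complex.exp (zt η θ * ((k - x : ℝ) : ℂ))‖
      ≤ C1 * Real.sqrt (Real.pi / (p / 20)) * ℓ ^ 2 / n := by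
    intro η hη hη2
    have h1 : ∫ θ in (-Real.pi)..Real.pi,
        ‖∑ k ∈ range (n + 1), (c k : ℂ) * Complex.exp (zt η θ * ((k - x : ℝ) : ℂ))‖
        ≤ ∫ θ in (-Real.pi)..Real.pi, C1 * ℓ ^ 2 / u * Real.exp (-(p / 20 * n) * θ ^ 2) := by
      apply intervalIntegral.integral_mono_on (by linarith)
      · apply Continuous.intervalIntegrable
        simp only [zt]
        fun_prop
      · apply Continuous.intervalIntegrable
        fun_prop
      · intro θ hθ
        have hθ' : |θ| ≤ Real.pi := abs_le.mpr ⟨hθ.1, hθ.2⟩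
        exact (hc η θ hη hθ').trans (integrand_le hp n hn hη2 hθ')
    have hb : 0 < p / 20 * n := by positivity
    have h2 : ∫ θ in (-Real.pi)..Real.pi, C1 * ℓ ^ 2 / u * Real.exp (-(p / 20 * n) * θ ^ 2)
        ≤ C1 * ℓ ^ 2 / u * Real.sqrt (Real.pi / (p / 20 * n)) := by
      rw [intervalIntegral.integral_const_mul]
      apply mul_le_mul_of_nonneg_left _ (by positivity)
      rw [intervalIntegral.integral_of_le (by linarith), ← integral_gaussian]
      exact setIntegral_le_integral (integrable_exp_neg_mul_sq hb)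
        (Eventually.of_forall fun θ => (Real.exp_pos _).le)
    refine h1.trans (h2.trans (le_of_eq ?_))
    have h3 : Real.sqrt (Real.pi / (p / 20 * n)) = Real.sqrt (Real.pi / (p / 20)) / u := by
      rw [hu, ← Real.sqrt_div (by positivity)]
      congr 1
      field_simp
    rw [h3, ← hu2]
    field_simp
  -- bound of a single coefficient
  set C2 := C1 * Real.sqrt (Real.pi / (p / 20)) * ℓ ^ 2 / n with hC2
  have hC20 : 0 ≤ C2 := by positivity
  have hcoef : ∀ k ∈ range (n + 1), |c k| ≤ C2 * Real.exp (-(a * |(k : ℝ) - x|)) := by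
    intro k hk
    have hk' : k < n + 1 := mem_range.mp hk
    have key : ∀ η : ℝ, |η| ≤ 1 / 4 → η ^ 2 * n = 1 / 16 → η * (k - x) = a * |(k : ℝ) - x| →
        |c k| ≤ C2 * Real.exp (-(a * |(k : ℝ) - x|)) := by
      intro η hη hη2 he
      have h1 := (coeff_le c (n + 1) η x k hk').trans (hint η hη hη2)
      rw [he] at h1
      have h2 : |c k| * Real.exp (a * |(k : ℝ) - x|) ≤ C2 := by
        have h3 : 0 ≤ |c k| * Real.exp (a * |(k : ℝ) - x|) := by positivity
        have h4 : (1 : ℝ) ≤ 2 * Real.pi := by linarith [Real.pi_gt_three]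
        nlinarith
      have h5 : Real.exp (a * |(k : ℝ) - x|) * Real.exp (-(a * |(k : ℝ) - x|)) = 1 := by
        rw [← Real.exp_add]; simp
      calc |c k| = (|c k| * Real.exp (a * |(k : ℝ) - x|)) * Real.exp (-(a * |(k : ℝ) - x|)) := by
            rw [mul_assoc, h5, mul_one]
        _ ≤ _ := mul_le_mul_of_nonneg_right h2 (Real.exp_pos _).le
    rcases le_total 0 ((k : ℝ) - x) with h | h
    · exact key a (by rw [abs_of_pos ha0]; exact ha1) ha2 (by rw [abs_of_nonneg h])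
    · exact key (-a) (by rw [abs_neg, abs_of_pos ha0]; exact ha1) (by rw [neg_sq]; exact ha2)
        (by rw [abs_of_nonpos h]; ring)
  have hs := sum_exp_abs x a ha0 (n + 1)
  have hr : (1 - Real.exp (-a))⁻¹ ≤ 5 * u := by
    have h1 : Real.exp (-a) ≤ 1 / (1 + a) := by
      rw [Real.exp_neg, inv_eq_one_div]
      apply one_div_le_one_div_of_le (by linarith)
      linarith [Real.add_one_le_exp a]
    have h2 : a / (1 + a) ≤ 1 - Real.exp (-a) := by
      have : a / (1 + a) = 1 - 1 / (1 + a) := by field_simp; ring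
      rw [this]; linarith
    have h3 : 1 / (5 * u) ≤ a / (1 + a) := by
      rw [div_le_div_iff₀ (by positivity) (by linarith)]
      have : a * u = 1 / 4 := by rw [ha]; field_simp
      nlinarith
    have h4 : 0 < 1 / (5 * u) := by positivity
    rw [inv_le_comm₀ (by linarith) (by positivity)]
    rw [← one_div]
    linarith
  calc ∑ k ∈ range (n + 1), |c k|
      ≤ ∑ k ∈ range (n + 1), C2 * Real.exp (-(a * |(k : ℝ) - x|)) := sum_le_sum hcoef
    _ = C2 * ∑ k ∈ range (n + 1), Real.exp (-(a * |(k : ℝ) - x|)) := by rw [mul_sum]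
    _ ≤ C2 * (10 * u) := mul_le_mul_of_nonneg_left (by linarith) hC20
    _ = _ := by
        rw [hC2, ← hu2]
        field_simp

end Pool.Agent.H148.EW
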