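import Mathlib
import Pool.Agent.H148.EW2

/-!
# Sums over paths: generating function and second moment
-/

set_option autoImplicit false
set_option maxHeartbeats 4000000

namespace Pool.Agent.H148.EW

open Finset Filter Topology

variable {V : Type} [Fintype V]

/-- sums over paths with weights -/
def psum {R : Type} [CommSemiring R] (f : V → R) (K : V → V → R) (n : ℕ)
    (F : (Fin (n + 1) → V) → R) : R :=
  ∑ x : Fin (n + 1) → V, f (x 0) * (∏ i : Fin n, K (x i.castSucc) (x i.succ)) * F x

lemma psum_zero {R : Type} [CommSemiring R] (f : V → R) (K : V → V → R)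
    (F : (Fin (0 + 1) → V) → R) : psum f K 0 F = ∑ v, f v * F (fun _ => v) := by
  unfold psum
  rw [← (Equiv.funUnique (Fin 1) V).symm.sum_comp]
  refine sum_congr rfl fun v _ => ?_
  simp only [univ_eq_empty, prod_empty, mul_one]
  rfl

lemma psum_succ {R : Type} [CommSemiring R] (f : V → R) (K : V → V → R) (n : ℕ)
    (F : (Fin (n + 1 + 1) → V) → R) :
    psum f K (n + 1) F = ∑ v, f v * psum (K v) K n (fun x => F (Fin.cons v x)) := by
  unfold psum
  rw [← (Fin.consEquiv (fun _ : Fin (n + 1 + 1) => V)).sum_comp, Fintype.sum_prod_type]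
  refine sum_congr rfl fun v _ => ?_
  rw [mul_sum]
  refine sum_congr rfl fun x _ => ?_
  have hx : (Fin.consEquiv (fun _ : Fin (n + 1 + 1) => V)) (v, x) = Fin.cons v x := rfl
  rw [hx, Fin.prod_univ_succ]
  simp only [Fin.castSucc_zero, Fin.cons_zero, Fin.cons_succ]
  have h1 : ∀ i : Fin n, (Fin.cons v x : Fin (n + 1 + 1) → V) i.succ.castSucc = x i.castSucc := by
    intro i
    rw [← Fin.succ_castSucc, Fin.cons_succ]
  simp only [h1]
  ring

lemma psum_add {R : Type} [CommSemiring R] (f : V → R) (K : V → V → R) (n : ℕ)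
    (F G : (Fin (n + 1) → V) → R) :
    psum f K n (fun x => F x + G x) = psum f K n F + psum f K n G := by
  simp only [psum, mul_add, sum_add_distrib]

lemma psum_smul {R : Type} [CommSemiring R] (f : V → R) (K : V → V → R) (n : ℕ) (c : R)
    (F : (Fin (n + 1) → V) → R) :
    psum f K n (fun x => c * F x) = c * psum f K n F := by
  simp only [psum, mul_sum]
  refine sum_congr rfl fun x _ => ?_
  ring

/-- generating function as a sum over paths -/
lemma psum_prod {K : V → V → ℝ} (hK : ∀ v, ∑ w, K v w = 1) (D : V → ℂ) (n : ℕ) (f : V → ℂ) :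
    psum f (fun v w => (K v w : ℂ)) n (fun x => ∏ i, D (x i)) = ∑ v, f v * hh K D (n + 1) v := by
  induction n generalizing f with
  | zero =>
    rw [psum_zero]
    refine sum_congr rfl fun v _ => ?_
    have h1 : ∑ w, (K v w : ℂ) = 1 := by rw [← Complex.ofReal_sum, hK v, Complex.ofReal_one]
    simp [hh, h1]
  | succ n ih =>
    rw [psum_succ]
    refine sum_congr rfl fun v _ => ?_
    have h1 : (fun x : Fin (n + 1) → V => ∏ i, D ((Fin.cons v x : Fin (n + 1 + 1) → V) i))
        = fun x => D v * ∏ i, D (x i) := by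
      funext x
      rw [Fin.prod_univ_succ]
      simp only [Fin.cons_zero, Fin.cons_succ]
    rw [h1, psum_smul, ih]
    congr 1

/-- first moments -/
noncomputable def bet (K : V → V → ℝ) (g : V → ℝ) : ℕ → V → ℝ
  | 0 => g
  | n + 1 => fun v => g v + ∑ w, K v w * bet K g n w

/-- second moments -/
noncomputable def gam (K : V → V → ℝ) (g : V → ℝ) : ℕ → V → ℝ
  | 0 => fun v => g v ^ 2
  | n + 1 => fun v => g v ^ 2 + 2 * g v * (∑ w, K v w * bet K g n w) + ∑ w, K v w * gam K g n w

lemma psum_one {K : V → V → ℝ} (hK : ∀ v, ∑ w, K v w = 1) (n : ℕ) (f : V → ℝ) :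
    psum f K n (fun _ => 1) = ∑ v, f v := by
  induction n generalizing f with
  | zero => rw [psum_zero]; simp
  | succ n ih =>
    rw [psum_succ]
    refine sum_congr rfl fun v _ => ?_
    rw [ih, hK v, mul_one]

lemma psum_sum {K : V → V → ℝ} (hK : ∀ v, ∑ w, K v w = 1) (g : V → ℝ) (n : ℕ) (f : V → ℝ) :
    psum f K n (fun x => ∑ i, g (x i)) = ∑ v, f v * bet K g n v := by
  induction n generalizing f with
  | zero => rw [psum_zero]; simp [bet]
  | succ n ih =>
    rw [psum_succ]
    refine sum_congr rfl fun v _ => ?_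
    have h1 : (fun x : Fin (n + 1) → V => ∑ i, g ((Fin.cons v x : Fin (n + 1 + 1) → V) i))
        = fun x => g v * 1 + ∑ i, g (x i) := by
      funext x
      rw [Fin.sum_univ_succ]
      simp only [Fin.cons_zero, Fin.cons_succ, mul_one]
    rw [h1, psum_add, psum_smul, psum_one hK, hK v, ih]
    simp only [bet, mul_one]

lemma psum_sq {K : V → V → ℝ} (hK : ∀ v, ∑ w, K v w = 1) (g : V → ℝ) (n : ℕ) (f : V → ℝ) :
    psum f K n (fun x => (∑ i, g (x i)) ^ 2) = ∑ v, f v * gam K g n v := by
  induction n generalizing f with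
  | zero => rw [psum_zero]; simp [gam]
  | succ n ih =>
    rw [psum_succ]
    refine sum_congr rfl fun v _ => ?_
    have h1 : (fun x : Fin (n + 1) → V => (∑ i, g ((Fin.cons v x : Fin (n + 1 + 1) → V) i)) ^ 2)
        = fun x => (g v ^ 2 * 1 + (2 * g v) * ∑ i, g (x i)) + (∑ i, g (x i)) ^ 2 := by
      funext x
      rw [Fin.sum_univ_succ]
      simp only [Fin.cons_zero, Fin.cons_succ, mul_one]
      ring
    rw [h1, psum_add, psum_add, psum_smul, psum_smul, psum_one hK, hK v, psum_sum hK, ih]
    simp only [gam, mul_one]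

variable {π : V → ℝ} {K : V → V → ℝ} {g : V → ℝ} {p ℓ : ℝ}

lemma Sys.bet_mean (S : Sys π K g p ℓ) (n : ℕ) : ∑ v, π v * bet K g n v = 0 := by
  induction n with
  | zero => simpa [bet] using S.mean
  | succ n ih =>
    simp only [bet, mul_add, sum_add_distrib, S.mean, zero_add]
    have h1 : ∑ v, π v * ∑ w, K v w * bet K g n w = ∑ w, (∑ v, π v * K v w) * bet K g n w := by
      simp only [mul_sum, sum_mul]
      rw [sum_comm]
      refine sum_congr rfl fun w _ => sum_congr rfl fun v _ => ?_
      ring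
    rw [h1]
    simp only [S.stat]
    exact ih

lemma Sys.K_bet (S : Sys π K g p ℓ) (n : ℕ) (v : V) :
    ((∑ w, K v w * bet K g n w : ℝ) : ℂ) = Eop π K (fun w => (bet K g n w : ℂ)) v := by
  have h := S.bet_mean n
  simp only [Eop, sub_mul, sum_sub_distrib]
  have h1 : ∑ w, (π w : ℂ) * (bet K g n w : ℂ) = 0 := by
    have : ∑ w, (π w : ℂ) * (bet K g n w : ℂ) = ((∑ w, π w * bet K g n w : ℝ) : ℂ) := by
      push_cast; rfl
    rw [this, h, Complex.ofReal_zero]
  rw [h1, sub_zero]
  push_cast
  rfl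

lemma Sys.bet_eq (S : Sys π K g p ℓ) (n : ℕ) (v : V) :
    (bet K g n v : ℂ) = ∑ k ∈ range (n + 1), yy π K g (fun _ => 1) k v := by
  induction n generalizing v with
  | zero => simp [bet, yy]
  | succ n ih =>
    have h1 : (bet K g (n + 1) v : ℂ) = (g v : ℂ) + ((∑ w, K v w * bet K g n w : ℝ) : ℂ) := by
      simp only [bet]; push_cast; rfl
    rw [h1, S.K_bet]
    have h2 : (fun w => (bet K g n w : ℂ))
        = fun w => ∑ k ∈ range (n + 1), (1 : ℂ) * yy π K g (fun _ => 1) k w := by
      funext w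
      rw [ih w]; simp only [one_mul]
    rw [h2, Eop_sum, sum_range_succ' _ (n + 1)]
    simp only [yy, one_mul]
    ring

/-- the second moment of the sum of the first `n+1` values -/
noncomputable def Zn (π : V → ℝ) (K : V → V → ℝ) (g : V → ℝ) (n : ℕ) : ℝ :=
  ∑ v, π v * gam K g n v

lemma Sys.Zn_zero (S : Sys π K g p ℓ) : Zn π K g 0 = p := by
  rw [← S.sq]; rfl

lemma Sys.Zn_succ (S : Sys π K g p ℓ) (n : ℕ) :
    ((Zn π K g (n + 1) - Zn π K g n : ℝ) : ℂ) = p + 2 * ∑ k ∈ range (n + 1), mu π K g k := by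
  have h1 : Zn π K g (n + 1) = p + 2 * (∑ v, π v * (g v * ∑ w, K v w * bet K g n w))
      + Zn π K g n := by
    unfold Zn
    simp only [gam, mul_add, sum_add_distrib]
    rw [S.sq, mul_sum]
    congr 1
    · congr 1
      refine sum_congr rfl fun v _ => ?_
      ring
    · have h1 : ∑ v, π v * ∑ w, K v w * gam K g n w = ∑ w, (∑ v, π v * K v w) * gam K g n w := by
        simp only [mul_sum, sum_mul]
        rw [sum_comm]
        refine sum_congr rfl fun w _ => sum_congr rfl fun v _ => ?_
        ring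
      rw [h1]
      simp only [S.stat]
  rw [h1]
  have h2 : ((∑ v, π v * (g v * ∑ w, K v w * bet K g n w) : ℝ) : ℂ)
      = ∑ k ∈ range (n + 1), mu π K g k := by
    have h3 : ((∑ v, π v * (g v * ∑ w, K v w * bet K g n w) : ℝ) : ℂ)
        = ∑ v, (π v : ℂ) * ((g v : ℂ) * ((∑ w, K v w * bet K g n w : ℝ) : ℂ)) := by
      rw [Complex.ofReal_sum]
      refine sum_congr rfl fun v _ => ?_
      rw [Complex.ofReal_mul, Complex.ofReal_mul]
    rw [h3]
    simp only [S.K_bet]
    have h4 : (fun w => (bet K g n w : ℂ))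
        = fun w => ∑ k ∈ range (n + 1), (1 : ℂ) * yy π K g (fun _ => 1) k w := by
      funext w
      rw [S.bet_eq n w]; simp only [one_mul]
    rw [h4]
    have h5 : ∀ v, Eop π K (fun w => ∑ k ∈ range (n + 1), (1 : ℂ) * yy π K g (fun _ => 1) k w) v
        = ∑ k ∈ range (n + 1), Eop π K (yy π K g (fun _ => 1) k) v := by
      intro v
      rw [Eop_sum]; simp only [one_mul]
    simp only [h5, mu, ee, ip, mul_sum]
    rw [sum_comm]
  push_cast at h2 ⊢
  rw [h2]
  ring

/-- The variance per step converges to `p + 2 ∑ mu k`. -/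
lemma Sys.tendsto_Zn (S : Sys π K g p ℓ) (hℓ : ℓ < 1) :
    ∃ σ2 : ℝ, Tendsto (fun n => ∑ k ∈ range n, mu π K g k) atTop (𝓝 (((σ2 - p) / 2 : ℝ) : ℂ)) ∧
      Tendsto (fun n : ℕ => Zn π K g n / (n + 1)) atTop (𝓝 σ2) := by
  have hsum : Summable (fun k => mu π K g k) := by
    apply Summable.of_norm_bounded (g := fun k => p * ℓ * ℓ ^ k)
    · exact (summable_geometric_of_lt_one S.ℓ0 hℓ).mul_left _
    · intro k
      have := S.ee_le (D := fun _ => 1) (c := 1) (by norm_num) (fun _ => by simp) k
      simpa using this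
  obtain ⟨A, hA⟩ := hsum
  have hA' := hA.tendsto_sum_nat
  -- increments
  set u : ℕ → ℝ := fun n => if n = 0 then Zn π K g 0 else Zn π K g n - Zn π K g (n - 1) with hu
  have hus : ∀ n, ∑ i ∈ range (n + 1), u i = Zn π K g n := by
    intro n
    induction n with
    | zero => simp [hu]
    | succ n ih =>
      rw [sum_range_succ, ih]
      simp [hu]
  have hul : Tendsto (fun n => ((u (n + 1) : ℝ) : ℂ)) atTop (𝓝 (p + 2 * A)) := by
    have h1 : (fun n => ((u (n + 1) : ℝ) : ℂ))
        = fun n => (p : ℂ) + 2 * ∑ k ∈ range (n + 1), mu π K g k := by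
      funext n
      rw [← S.Zn_succ n]
      simp [hu]
    rw [h1]
    exact ((hA'.comp (tendsto_add_atTop_nat 1)).const_mul 2).const_add _
  have hre : Tendsto (fun n => u (n + 1)) atTop (𝓝 (p + 2 * A).re) := by
    have := (Complex.continuous_re.tendsto _).comp hul
    simpa [Function.comp_def] using this
  have him : (p + 2 * A : ℂ).im = 0 := by
    have h1 := (Complex.continuous_im.tendsto _).comp hul
    have h2 : (Complex.im ∘ fun n => ((u (n + 1) : ℝ) : ℂ)) = fun _ => (0 : ℝ) := by
      funext n; simp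
    rw [h2] at h1
    exact (tendsto_nhds_unique h1 tendsto_const_nhds)
  have hre' : Tendsto u atTop (𝓝 (p + 2 * A).re) := (tendsto_add_atTop_iff_nat 1).mp hre
  have hces := hre'.cesaro
  have hces' : Tendsto (fun n : ℕ => Zn π K g n / (n + 1)) atTop (𝓝 (p + 2 * A).re) := by
    have h1 := hces.comp (tendsto_add_atTop_nat 1)
    refine h1.congr fun n => ?_
    simp only [Function.comp_apply]
    rw [hus n]
    push_cast
    rw [inv_mul_eq_div]
  refine ⟨(p + 2 * A).re, ?_, hces'⟩
  have hAeq : A = ((((p + 2 * A).re - p) / 2 : ℝ) : ℂ) := by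
    apply Complex.ext
    · simp
    · have : (2 * A : ℂ).im = 0 := by simpa using him
      simp at this
      simp [this]
  rw [← hAeq]
  exact hA'

end Pool.Agent.H148.EW
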