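import Mathlib
import Pool.Agent.H148.EW2

/-!
# Spectral expanders and the sticky chain
-/

set_option autoImplicit false
set_option maxHeartbeats 4000000

namespace Pool.Agent.H148.EW

open Finset Filter Topology

section spectral

variable {V : Type} [Fintype V]

lemma spectral_real [Nonempty V] {W : V → V → ℝ} (sym : ∀ v w, W v w = W w v)
    (row : ∀ v, ∑ w, W v w = 1) {lam : ℝ} (hl : 0 ≤ lam)
    (hspec : ∀ (μ : ℝ) (f : V → ℝ), f ≠ 0 → ∑ v, f v = 0 →
      (∀ v, ∑ w, W v w * f w = μ * f v) → |μ| ≤ lam) (f : V → ℝ) :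
    ∑ v, (∑ w, (W v w - 1 / (Fintype.card V : ℝ)) * f w) ^ 2 ≤ lam ^ 2 * ∑ v, f v ^ 2 := by
  classical
  set N : ℝ := (Fintype.card V : ℝ) with hN
  have hN0 : N ≠ 0 := by
    rw [hN]; exact_mod_cast Fintype.card_ne_zero
  set E : Matrix V V ℝ := Matrix.of fun v w => W v w - 1 / N with hE
  have hEh : E.IsHermitian := by
    ext v w
    simp [hE, sym v w]
  have hcol : ∀ w, ∑ v, W v w = 1 := by
    intro w
    rw [← row w]
    exact sum_congr rfl fun v _ => sym v w
  have hev : ∀ i, |hEh.eigenvalues i| ≤ lam := by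
    intro i
    set b : V → ℝ := fun v => hEh.eigenvectorBasis i v with hb
    have h1 : ∀ v, ∑ w, (W v w - 1 / N) * b w = hEh.eigenvalues i * b v := by
      intro v
      have := congrFun (hEh.mulVec_eigenvectorBasis i) v
      simpa [Matrix.mulVec, dotProduct, hE, hb] using this
    by_cases h0 : hEh.eigenvalues i = 0
    · rw [h0, abs_zero]; exact hl
    · have h2 : ∑ v, b v = 0 := by
        have h3 : ∑ v, ∑ w, (W v w - 1 / N) * b w = 0 := by
          rw [sum_comm]
          apply sum_eq_zero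
          intro w _
          rw [← sum_mul, sum_sub_distrib, hcol w]
          simp [← hN, hN0]
        have h4 : ∑ v, ∑ w, (W v w - 1 / N) * b w = hEh.eigenvalues i * ∑ v, b v := by
          rw [mul_sum]
          exact sum_congr rfl fun v _ => h1 v
        rw [h4] at h3
        exact (mul_eq_zero.mp h3).resolve_left h0
      apply hspec _ b
      · intro hb0
        have h5 : hEh.eigenvectorBasis i = 0 := by
          ext v
          exact congrFun hb0 v
        have h6 := hEh.eigenvectorBasis.orthonormal.1 i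
        rw [h5, norm_zero] at h6
        exact zero_ne_one h6
      · exact h2
      · intro v
        rw [← h1 v]
        simp only [sub_mul, sum_sub_distrib]
        rw [← mul_sum, h2]
        ring
  set F : EuclideanSpace ℝ V := WithLp.toLp 2 f with hF
  set T : EuclideanSpace ℝ V := WithLp.toLp 2 (fun v => ∑ w, (W v w - 1 / N) * f w) with hT
  have hinner : ∀ i, inner ℝ (hEh.eigenvectorBasis i) T
      = hEh.eigenvalues i * inner ℝ (hEh.eigenvectorBasis i) F := by
    intro i
    set b : V → ℝ := fun v => hEh.eigenvectorBasis i v with hb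
    have h1 : ∀ v, ∑ w, (W v w - 1 / N) * b w = hEh.eigenvalues i * b v := by
      intro v
      have := congrFun (hEh.mulVec_eigenvectorBasis i) v
      simpa [Matrix.mulVec, dotProduct, hE, hb] using this
    have h2 : inner ℝ (hEh.eigenvectorBasis i) T = ∑ v, b v * ∑ w, (W v w - 1 / N) * f w := by
      rw [PiLp.inner_apply]
      refine sum_congr rfl fun v _ => ?_
      simp [hT, hb, mul_comm]
    have h3 : inner ℝ (hEh.eigenvectorBasis i) F = ∑ v, b v * f v := by
      rw [PiLp.inner_apply]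
      refine sum_congr rfl fun v _ => ?_
      simp [hF, hb, mul_comm]
    rw [h2, h3]
    have h4 : ∑ v, b v * ∑ w, (W v w - 1 / N) * f w
        = ∑ w, (∑ v, (W w v - 1 / N) * b v) * f w := by
      simp only [mul_sum, sum_mul]
      rw [sum_comm]
      refine sum_congr rfl fun w _ => sum_congr rfl fun v _ => ?_
      rw [sym v w]; ring
    rw [h4, mul_sum]
    refine sum_congr rfl fun w _ => ?_
    rw [h1 w]; ring
  have hTn : ‖T‖ ^ 2 = ∑ v, (∑ w, (W v w - 1 / N) * f w) ^ 2 := by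
    rw [EuclideanSpace.norm_sq_eq]
    refine sum_congr rfl fun v _ => ?_
    rw [Real.norm_eq_abs, sq_abs]
  have hFn : ‖F‖ ^ 2 = ∑ v, f v ^ 2 := by
    rw [EuclideanSpace.norm_sq_eq]
    refine sum_congr rfl fun v _ => ?_
    rw [Real.norm_eq_abs, sq_abs]
  rw [← hTn, ← hFn, ← hEh.eigenvectorBasis.sum_sq_norm_inner_right T,
    ← hEh.eigenvectorBasis.sum_sq_norm_inner_right F, mul_sum]
  refine sum_le_sum fun i _ => ?_
  rw [hinner i, norm_mul, mul_pow, Real.norm_eq_abs]
  apply mul_le_mul_of_nonneg_right _ (by positivity)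
  exact pow_le_pow_left₀ (abs_nonneg _) (hev i) 2

lemma norm_sq_re_im (z : ℂ) : ‖z‖ ^ 2 = z.re ^ 2 + z.im ^ 2 := by
  rw [← Complex.normSq_eq_norm_sq, Complex.normSq_apply]; ring

/-- contraction for complex functions from contraction for real ones -/
lemma contr_complex {E : V → V → ℝ} {π : V → ℝ} {lam : ℝ}
    (h : ∀ f : V → ℝ, ∑ v, π v * (∑ w, E v w * f w) ^ 2 ≤ lam ^ 2 * ∑ v, π v * f v ^ 2)
    (f : V → ℂ) : ∑ v, π v * ‖∑ w, (E v w : ℂ) * f w‖ ^ 2 ≤ lam ^ 2 * ∑ v, π v * ‖f v‖ ^ 2 := by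
  have h1 : ∀ v, ‖∑ w, (E v w : ℂ) * f w‖ ^ 2
      = (∑ w, E v w * (f w).re) ^ 2 + (∑ w, E v w * (f w).im) ^ 2 := by
    intro v
    rw [norm_sq_re_im]
    congr 2
    · rw [Complex.re_sum]
      exact sum_congr rfl fun w _ => by rw [Complex.re_ofReal_mul]
    · rw [Complex.im_sum]
      exact sum_congr rfl fun w _ => by rw [Complex.im_ofReal_mul]
  simp only [h1, norm_sq_re_im, mul_add, sum_add_distrib]
  have := h (fun v => (f v).re)
  have := h (fun v => (f v).im)
  linarith

/-- A regular graph with a two-valued labelling is a system. -/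
lemma graph_sys [Nonempty V] {W : V → V → ℝ} (sym : ∀ v w, W v w = W w v)
    (row : ∀ v, ∑ w, W v w = 1) {lam : ℝ} (hl : 0 ≤ lam)
    (hspec : ∀ (μ : ℝ) (f : V → ℝ), f ≠ 0 → ∑ v, f v = 0 →
      (∀ v, ∑ w, W v w * f w = μ * f v) → |μ| ≤ lam)
    {g : V → ℝ} {p : ℝ} (hmean : ∑ v, g v = 0)
    (hsq : ∑ v, g v ^ 2 = p * (Fintype.card V : ℝ)) :
    Sys (fun _ => 1 / (Fintype.card V : ℝ)) W g p lam := by
  have hN0 : (Fintype.card V : ℝ) ≠ 0 := by exact_mod_cast Fintype.card_ne_zero
  have hNpos : (0 : ℝ) < (Fintype.card V : ℝ) := by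
    exact_mod_cast Fintype.card_pos
  refine ⟨fun v => by positivity, row, ?_, ?_, ?_, ?_, hl, ?_⟩
  · intro w
    rw [← mul_sum]
    have : ∑ v, W v w = 1 := by
      rw [← row w]; exact sum_congr rfl fun v _ => sym v w
    rw [this, mul_one]
  · simp [hN0]
  · rw [← mul_sum, hmean, mul_zero]
  · rw [← mul_sum, hsq]; field_simp
  · intro f
    have h := contr_complex (E := fun v w => W v w - 1 / (Fintype.card V : ℝ))
      (π := fun _ => 1 / (Fintype.card V : ℝ)) (lam := lam) (fun f => by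
        have := spectral_real sym row hl hspec f
        rw [← mul_sum, ← mul_sum]
        have h0 : (0 : ℝ) ≤ 1 / (Fintype.card V : ℝ) := by positivity
        calc 1 / (Fintype.card V : ℝ) * ∑ v, (∑ w, (W v w - 1 / (Fintype.card V : ℝ)) * f w) ^ 2
            ≤ 1 / (Fintype.card V : ℝ) * (lam ^ 2 * ∑ v, f v ^ 2) :=
              mul_le_mul_of_nonneg_left this h0
          _ = _ := by ring) f
    simpa only [Complex.ofReal_sub] using h

end spectral

section sticky

/-- kernel of the sticky walk -/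
def stickyK (p : Fin 2 → ℝ) (ν : ℝ) (b b' : Fin 2) : ℝ :=
  (1 - ν) * p b' + ν * (if b = b' then 1 else 0)

lemma sticky_Eop {p : Fin 2 → ℝ} (ν : ℝ) (f : Fin 2 → ℂ) (b : Fin 2) :
    Eop p (stickyK p ν) f b = ν * (f b - (p 0 * f 0 + p 1 * f 1)) := by
  unfold Eop stickyK
  fin_cases b <;> simp [Fin.sum_univ_two] <;> ring

lemma sticky_sys {p0 p1 ν ℓ : ℝ} (h0 : 0 < p0) (h1 : 0 < p1) (hp : p0 + p1 = 1)
    (hν : |ν| ≤ ℓ) :
    Sys ![p0, p1] (stickyK ![p0, p1] ν) ![-p1, p0] (p0 * p1) ℓ := by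
  have hℓ : 0 ≤ ℓ := (abs_nonneg _).trans hν
  refine ⟨?_, ?_, ?_, ?_, ?_, ?_, hℓ, ?_⟩
  · intro v; fin_cases v
    · exact h0.le
    · exact h1.le
  · intro v; fin_cases v <;> simp [stickyK, Fin.sum_univ_two]
    · linear_combination (1 - ν) * hp
    · linear_combination (1 - ν) * hp
  · intro w; fin_cases w <;> simp [stickyK, Fin.sum_univ_two]
    · linear_combination (1 - ν) * p0 * hp
    · linear_combination (1 - ν) * p1 * hp
  · simp [Fin.sum_univ_two, hp]
  · simp [Fin.sum_univ_two]; ring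
  · simp [Fin.sum_univ_two]; linear_combination p0 * p1 * hp
  · intro f
    have h2 : ∀ b, ∑ w, ((stickyK ![p0, p1] ν b w : ℂ) - ((![p0, p1] w : ℝ) : ℂ)) * f w
        = ν * (f b - (p0 * f 0 + p1 * f 1)) := by
      intro b
      have := sticky_Eop (p := ![p0, p1]) ν f b
      simpa [Eop] using this
    simp only [h2]
    rw [Fin.sum_univ_two, Fin.sum_univ_two]
    simp only [norm_mul, mul_pow, Complex.norm_real, Real.norm_eq_abs, sq_abs, norm_sq_re_im]
    simp only [Matrix.cons_val_zero, Matrix.cons_val_one, Complex.sub_re, Complex.add_re,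
      Complex.sub_im, Complex.add_im, Complex.re_ofReal_mul, Complex.im_ofReal_mul]
    have hν2 : ν ^ 2 ≤ ℓ ^ 2 := by
      rw [← sq_abs ν]; exact pow_le_pow_left₀ (abs_nonneg _) hν 2
    have hp1 : p1 = 1 - p0 := by linarith
    set a := (f 0).re
    set b := (f 0).im
    set c := (f 1).re
    set d := (f 1).im
    have key : p0 * (ν ^ 2 * ((a - (p0 * a + p1 * c)) ^ 2 + (b - (p0 * b + p1 * d)) ^ 2))
        + p1 * (ν ^ 2 * ((c - (p0 * a + p1 * c)) ^ 2 + (d - (p0 * b + p1 * d)) ^ 2))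
        = ν ^ 2 * (p0 * (a ^ 2 + b ^ 2) + p1 * (c ^ 2 + d ^ 2)
          - ((p0 * a + p1 * c) ^ 2 + (p0 * b + p1 * d) ^ 2)) := by
      rw [hp1]; ring
    rw [key]
    have h3 : 0 ≤ p0 * (a ^ 2 + b ^ 2) + p1 * (c ^ 2 + d ^ 2) := by positivity
    have h4 : 0 ≤ (p0 * a + p1 * c) ^ 2 + (p0 * b + p1 * d) ^ 2 := by positivity
    nlinarith [sq_nonneg ν]

lemma sticky_mu {p0 p1 ν : ℝ} (hp : p0 + p1 = 1) (k : ℕ) :
    mu ![p0, p1] (stickyK ![p0, p1] ν) ![-p1, p0] k = p0 * p1 * ν ^ (k + 1) := by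
  have hp' : (p0 : ℂ) + p1 = 1 := by rw [← Complex.ofReal_add, hp, Complex.ofReal_one]
  have h1 : ∀ k b, yy ![p0, p1] (stickyK ![p0, p1] ν) ![-p1, p0] (fun _ => 1) k b
      = ν ^ k * ((![-p1, p0] b : ℝ) : ℂ) := by
    intro k
    induction k with
    | zero => intro b; simp [yy]
    | succ k ih =>
      intro b
      simp only [yy, one_mul]
      rw [sticky_Eop, ih, ih, ih]
      simp only [Matrix.cons_val_zero, Matrix.cons_val_one]
      push_cast
      ring
  simp only [mu, ee, ip]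
  rw [Fin.sum_univ_two, sticky_Eop, sticky_Eop, h1, h1]
  simp only [Matrix.cons_val_zero, Matrix.cons_val_one]
  push_cast
  linear_combination (p0 * p1 * ν ^ (k + 1) : ℂ) * hp'

end sticky

end Pool.Agent.H148.EW
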