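import Mathlib

set_option autoImplicit false

namespace Pool.Agent.H148.PfA

open Equiv Finset

/-- the index `2i` (zero based) -/
def ev {n : ℕ} (i : Fin n) : Fin (2 * n) := ⟨2 * i.val, by omega⟩

/-- the index `2i+1` (zero based) -/
def od {n : ℕ} (i : Fin n) : Fin (2 * n) := ⟨2 * i.val + 1, by omega⟩

/-- the signed sum in the definition of the Pfaffian, before division by `2^n n!` -/
def pfSum {R : Type*} [CommRing R] {n : ℕ} (A : Matrix (Fin (2 * n)) (Fin (2 * n)) R) : R :=
  ∑ σ : Perm (Fin (2 * n)), ((Perm.sign σ : ℤ) : R) * ∏ i : Fin n, A (σ (ev i)) (σ (od i))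

theorem cases_idx {n : ℕ} {P : Fin (2 * n) → Prop} (h1 : ∀ i, P (ev i)) (h2 : ∀ i, P (od i)) :
    ∀ m, P m := by
  intro m
  rcases Nat.even_or_odd' m.val with ⟨c, hc | hc⟩
  · have : m = ev ⟨c, by omega⟩ := by
      apply Fin.ext; simp [ev, hc]
    rw [this]; exact h1 _
  · have : m = od ⟨c, by omega⟩ := by
      apply Fin.ext; simp [od, hc]
    rw [this]; exact h2 _

theorem ev_inj {n : ℕ} {i j : Fin n} : ev i = ev j ↔ i = j := by
  simp only [ev, Fin.mk.injEq, Fin.ext_iff]; omega

theorem od_inj {n : ℕ} {i j : Fin n} : od i = od j ↔ i = j := by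
  simp only [od, Fin.mk.injEq, Fin.ext_iff]; omega

theorem ev_ne_od {n : ℕ} (i j : Fin n) : ev i ≠ od j := by
  simp only [ev, od, ne_eq, Fin.mk.injEq]; omega

section mul

variable {R : Type*} [CommRing R] {n : ℕ}

/-- the multilinear map `v ↦ ∏ i, v_{2i}ᵀ A v_{2i+1}` -/
def phi (A : Matrix (Fin (2 * n)) (Fin (2 * n)) R) :
    MultilinearMap R (fun _ : Fin (2 * n) => (Fin (2 * n) → R)) R where
  toFun v := ∏ i : Fin n, (v (ev i)) ⬝ᵥ (A.mulVec (v (od i)))
  map_update_add' := by
    intro inst v m x y
    have hinst : inst = instDecidableEqFin (2 * n) := Subsingleton.elim _ _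
    subst hinst
    revert m
    apply cases_idx
    · intro i0
      rw [← Finset.mul_prod_erase _ _ (Finset.mem_univ i0),
        ← Finset.mul_prod_erase _ _ (Finset.mem_univ i0),
        ← Finset.mul_prod_erase _ _ (Finset.mem_univ i0)]
      have key : ∀ z : Fin (2 * n) → R, (∏ i ∈ univ.erase i0,
          (Function.update v (ev i0) z (ev i)) ⬝ᵥ
            (A.mulVec (Function.update v (ev i0) z (od i)))) =
          ∏ i ∈ univ.erase i0, (v (ev i)) ⬝ᵥ (A.mulVec (v (od i))) := by
        intro z
        apply Finset.prod_congr rfl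
        intro i hi
        have h1 : ev i ≠ ev i0 := fun h => (Finset.ne_of_mem_erase hi) (ev_inj.1 h)
        have h2 : od i ≠ ev i0 := fun h => ev_ne_od _ _ h.symm
        rw [Function.update_of_ne h1, Function.update_of_ne h2]
      rw [key, key, key]
      have h2 : od i0 ≠ ev i0 := fun h => ev_ne_od _ _ h.symm
      simp only [Function.update_self, Function.update_of_ne h2]
      rw [add_dotProduct, add_mul]
    · intro i0
      rw [← Finset.mul_prod_erase _ _ (Finset.mem_univ i0),
        ← Finset.mul_prod_erase _ _ (Finset.mem_univ i0),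
        ← Finset.mul_prod_erase _ _ (Finset.mem_univ i0)]
      have key : ∀ z : Fin (2 * n) → R, (∏ i ∈ univ.erase i0,
          (Function.update v (od i0) z (ev i)) ⬝ᵥ
            (A.mulVec (Function.update v (od i0) z (od i)))) =
          ∏ i ∈ univ.erase i0, (v (ev i)) ⬝ᵥ (A.mulVec (v (od i))) := by
        intro z
        apply Finset.prod_congr rfl
        intro i hi
        have h1 : od i ≠ od i0 := fun h => (Finset.ne_of_mem_erase hi) (od_inj.1 h)
        have h2 : ev i ≠ od i0 := ev_ne_od _ _
        rw [Function.update_of_ne h1, Function.update_of_ne h2]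
      rw [key, key, key]
      have h2 : ev i0 ≠ od i0 := ev_ne_od _ _
      simp only [Function.update_self, Function.update_of_ne h2]
      rw [Matrix.mulVec_add, dotProduct_add, add_mul]
  map_update_smul' := by
    intro inst v m c x
    have hinst : inst = instDecidableEqFin (2 * n) := Subsingleton.elim _ _
    subst hinst
    revert m
    apply cases_idx
    · intro i0
      rw [← Finset.mul_prod_erase _ _ (Finset.mem_univ i0),
        ← Finset.mul_prod_erase _ _ (Finset.mem_univ i0)]
      have key : ∀ z : Fin (2 * n) → R, (∏ i ∈ univ.erase i0,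
          (Function.update v (ev i0) z (ev i)) ⬝ᵥ
            (A.mulVec (Function.update v (ev i0) z (od i)))) =
          ∏ i ∈ univ.erase i0, (v (ev i)) ⬝ᵥ (A.mulVec (v (od i))) := by
        intro z
        apply Finset.prod_congr rfl
        intro i hi
        have h1 : ev i ≠ ev i0 := fun h => (Finset.ne_of_mem_erase hi) (ev_inj.1 h)
        have h2 : od i ≠ ev i0 := fun h => ev_ne_od _ _ h.symm
        rw [Function.update_of_ne h1, Function.update_of_ne h2]
      rw [key, key]
      have h2 : od i0 ≠ ev i0 := fun h => ev_ne_od _ _ h.symm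
      simp only [Function.update_self, Function.update_of_ne h2]
      rw [smul_dotProduct, smul_eq_mul, smul_eq_mul, mul_assoc]
    · intro i0
      rw [← Finset.mul_prod_erase _ _ (Finset.mem_univ i0),
        ← Finset.mul_prod_erase _ _ (Finset.mem_univ i0)]
      have key : ∀ z : Fin (2 * n) → R, (∏ i ∈ univ.erase i0,
          (Function.update v (od i0) z (ev i)) ⬝ᵥ
            (A.mulVec (Function.update v (od i0) z (od i)))) =
          ∏ i ∈ univ.erase i0, (v (ev i)) ⬝ᵥ (A.mulVec (v (od i))) := by
        intro z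
        apply Finset.prod_congr rfl
        intro i hi
        have h1 : od i ≠ od i0 := fun h => (Finset.ne_of_mem_erase hi) (od_inj.1 h)
        have h2 : ev i ≠ od i0 := ev_ne_od _ _
        rw [Function.update_of_ne h1, Function.update_of_ne h2]
      rw [key, key]
      have h2 : ev i0 ≠ od i0 := ev_ne_od _ _
      simp only [Function.update_self, Function.update_of_ne h2]
      rw [Matrix.mulVec_smul, dotProduct_smul, smul_eq_mul, smul_eq_mul, mul_assoc]

theorem alt_phi (A M : Matrix (Fin (2 * n)) (Fin (2 * n)) R) :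
    MultilinearMap.alternatization (phi A) (fun i j => M i j) = pfSum (M * A * M.transpose) := by
  rw [MultilinearMap.alternatization_apply, pfSum]
  apply Finset.sum_congr rfl
  intro σ _
  rw [Units.smul_def, zsmul_eq_mul]
  congr 1
  rw [MultilinearMap.domDomCongr_apply]
  change ∏ i : Fin n, (M (σ (ev i))) ⬝ᵥ (A.mulVec (M (σ (od i)))) = _
  apply Finset.prod_congr rfl
  intro i _
  rw [Matrix.mul_mul_apply]
  rfl

theorem pfSum_mul (M A : Matrix (Fin (2 * n)) (Fin (2 * n)) R) :
    pfSum (M * A * M.transpose) = M.det * pfSum A := by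
  have h := AlternatingMap.eq_smul_basis_det (Pi.basisFun R (Fin (2 * n)))
    (MultilinearMap.alternatization (phi A))
  have h1 := DFunLike.congr_fun h (fun i j => M i j)
  rw [AlternatingMap.smul_apply, Pi.basisFun_det, alt_phi, smul_eq_mul] at h1
  rw [h1, mul_comm]
  have h2 := alt_phi A (1 : Matrix (Fin (2 * n)) (Fin (2 * n)) R)
  rw [Matrix.transpose_one, Matrix.mul_one, Matrix.one_mul] at h2
  rw [← h2]
  congr 2
  ext i j
  simp [Matrix.one_apply, Pi.single_apply, eq_comm]

end mul

end Pool.Agent.H148.PfA
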