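import Mathlib
import Pool.Agent.H148.PfA

set_option autoImplicit false

namespace Pool.Agent.H148.PfA

open Equiv Finset

/-- `Fin n × Fin 2 ≃ Fin (2n)`, `(i,s) ↦ 2i+s` -/
def eqv (n : ℕ) : Fin n × Fin 2 ≃ Fin (2 * n) where
  toFun p := ⟨2 * p.1.val + p.2.val, by omega⟩
  invFun m := (⟨m.val / 2, by omega⟩, ⟨m.val % 2, by omega⟩)
  left_inv := by
    rintro ⟨i, s⟩
    apply Prod.ext
    · apply Fin.ext; simp only; omega
    · apply Fin.ext; simp only; omega
  right_inv := by
    intro m
    apply Fin.ext; simp only; omega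

theorem eqv_zero {n : ℕ} (i : Fin n) : eqv n (i, 0) = ev i := rfl
theorem eqv_one {n : ℕ} (i : Fin n) : eqv n (i, 1) = od i := rfl

/-- the sign pattern on `Fin 2` -/
def jj (R : Type*) [CommRing R] (s t : Fin 2) : R := if s = t then 0 else if s = 0 then 1 else -1

variable {R : Type*} [CommRing R] {n : ℕ}

/-- the standard symplectic form on `Fin n × Fin 2` -/
def J' (p q : Fin n × Fin 2) : R := if p.1 = q.1 then jj R p.2 q.2 else 0

/-- signed permutation from a permutation of pairs and flips -/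
def psi (x : Perm (Fin n) × (Fin n → Perm (Fin 2))) : Perm (Fin n × Fin 2) :=
  (Equiv.prodCongrLeft (fun _ => x.1) : Perm (Fin n × Fin 2)) * Equiv.prodCongrRight x.2

theorem psi_apply (x : Perm (Fin n) × (Fin n → Perm (Fin 2))) (i : Fin n) (s : Fin 2) :
    psi x (i, s) = (x.1 i, x.2 i s) := rfl

theorem psi_inj : Function.Injective (psi (n := n)) := by
  intro x y h
  apply Prod.ext
  · ext i
    have := congrArg (fun f => (f (i, 0)).1) h
    simpa [psi_apply] using congrArg Fin.val this
  · funext i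
    ext s
    have := congrArg (fun f => (f (i, s)).2) h
    simpa [psi_apply] using congrArg Fin.val this

theorem sign_psi (x : Perm (Fin n) × (Fin n → Perm (Fin 2))) :
    Perm.sign (psi x) = ∏ i, Perm.sign (x.2 i) := by
  rw [psi, Perm.sign_mul, Perm.sign_prodCongrLeft, Perm.sign_prodCongrRight]
  simp

theorem sign_two (e : Perm (Fin 2)) : ((Perm.sign e : ℤ) : R) = jj R (e 0) (e 1) := by
  have h : e = 1 ∨ e = Equiv.swap 0 1 := by
    revert e; decide
  rcases h with rfl | rfl
  · simp [jj]
  · simp [jj]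

theorem jj_sq (e : Perm (Fin 2)) : jj R (e 0) (e 1) * jj R (e 0) (e 1) = 1 := by
  rw [← sign_two]
  rcases Int.units_eq_one_or (Perm.sign e) with h | h <;> simp [h]

theorem mem_range_psi (τ : Perm (Fin n × Fin 2))
    (h : ∀ i, (τ (i, 0)).1 = (τ (i, 1)).1) : ∃ x, psi x = τ := by
  have hs : ∀ i s, (τ (i, s)).1 = (τ (i, 0)).1 := by
    intro i s
    fin_cases s
    · rfl
    · exact (h i).symm
  have hp : Function.Surjective (fun i => (τ (i, 0)).1) := by
    intro k
    obtain ⟨⟨i, s⟩, his⟩ := τ.surjective (k, 0)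
    refine ⟨i, ?_⟩
    simp only
    rw [← hs i s, his]
  have hp' := Finite.surjective_iff_bijective.1 hp
  have he : ∀ i, Function.Injective (fun s => (τ (i, s)).2) := by
    intro i s t hst
    simp only at hst
    have h1 : τ (i, s) = τ (i, t) := Prod.ext (by rw [hs i s, hs i t]) hst
    have h2 := τ.injective h1
    exact (Prod.ext_iff.1 h2).2
  refine ⟨(Equiv.ofBijective _ hp', fun i => Equiv.ofBijective _ (Finite.injective_iff_bijective.1 (he i))), ?_⟩
  ext ⟨i, s⟩
  · rw [psi_apply]
    simp only [Equiv.ofBijective_apply]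
    rw [hs i s]
  · rw [psi_apply]
    simp only [Equiv.ofBijective_apply]

theorem sum_J' : (∑ τ : Perm (Fin n × Fin 2), ((Perm.sign τ : ℤ) : R) *
    ∏ i : Fin n, J' (τ (i, 0)) (τ (i, 1))) = 2 ^ n * (n.factorial : R) := by
  have h := Finset.sum_of_injOn (s := (univ : Finset (Perm (Fin n) × (Fin n → Perm (Fin 2)))))
    (t := (univ : Finset (Perm (Fin n × Fin 2)))) (f := fun _ => (1 : R))
    (g := fun τ => ((Perm.sign τ : ℤ) : R) * ∏ i : Fin n, J' (τ (i, 0)) (τ (i, 1)))
    psi (psi_inj.injOn) (by intro x _; simp) ?_ ?_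
  · rw [← h]
    simp only [sum_const, card_univ, Fintype.card_prod, Fintype.card_perm, Fintype.card_fin,
      Fintype.card_pi, prod_const, nsmul_eq_mul, mul_one, Nat.cast_mul, Nat.cast_pow]
    norm_num [Nat.factorial]
    ring
  · intro τ _ hτ
    by_contra hne
    apply hτ
    have h1 : ∀ i, (τ (i, 0)).1 = (τ (i, 1)).1 := by
      intro i
      by_contra hi
      apply hne
      rw [Finset.prod_eq_zero (Finset.mem_univ i), mul_zero]
      rw [J', if_neg hi]
    obtain ⟨x, hx⟩ := mem_range_psi τ h1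
    exact ⟨x, by simp, hx⟩
  · intro x _
    rw [sign_psi]
    push_cast
    rw [← Finset.prod_mul_distrib]
    symm
    apply Finset.prod_eq_one
    intro i _
    rw [psi_apply, psi_apply, sign_two, J', if_pos rfl]
    exact jj_sq _

/-- the standard form on `Fin (2n)` -/
def J (R : Type*) [CommRing R] (n : ℕ) : Matrix (Fin (2 * n)) (Fin (2 * n)) R :=
  fun a b => J' ((eqv n).symm a) ((eqv n).symm b)

theorem pfSum_J : pfSum (J R n) = 2 ^ n * (n.factorial : R) := by
  rw [← sum_J', pfSum, ← Equiv.sum_comp (Equiv.permCongr (eqv n))]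
  apply Finset.sum_congr rfl
  intro τ _
  rw [Perm.sign_permCongr]
  congr 1
  apply Finset.prod_congr rfl
  intro i _
  rw [← eqv_zero, ← eqv_one]
  simp [J, Equiv.permCongr_apply]

theorem J_ev_od (i j : Fin n) : J R n (ev i) (od j) = if i = j then 1 else 0 := by
  rw [← eqv_zero, ← eqv_one, J, Equiv.symm_apply_apply, Equiv.symm_apply_apply]
  simp [J', jj]

theorem J_od_ev (i j : Fin n) : J R n (od i) (ev j) = if i = j then -1 else 0 := by
  rw [← eqv_zero, ← eqv_one, J, Equiv.symm_apply_apply, Equiv.symm_apply_apply]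
  simp [J', jj]

theorem J_ev_ev (i j : Fin n) : J R n (ev i) (ev j) = 0 := by
  rw [← eqv_zero, ← eqv_zero, J, Equiv.symm_apply_apply, Equiv.symm_apply_apply]
  simp [J', jj]

theorem J_od_od (i j : Fin n) : J R n (od i) (od j) = 0 := by
  rw [← eqv_one, ← eqv_one, J, Equiv.symm_apply_apply, Equiv.symm_apply_apply]
  simp [J', jj]

theorem elim_bij : Function.Bijective (Sum.elim ev od : Fin n ⊕ Fin n → Fin (2 * n)) := by
  constructor
  · rintro (i | i) (j | j) h
    · rw [Sum.elim_inl, Sum.elim_inl] at h; rw [ev_inj.1 h]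
    · exact absurd h (ev_ne_od _ _)
    · exact absurd h.symm (ev_ne_od _ _)
    · rw [Sum.elim_inr, Sum.elim_inr] at h; rw [od_inj.1 h]
  · refine cases_idx ?_ ?_
    · intro i; exact ⟨Sum.inl i, rfl⟩
    · intro i; exact ⟨Sum.inr i, rfl⟩

/-- `Fin n ⊕ Fin n ≃ Fin (2n)`, left to even, right to odd. -/
noncomputable def seqv (n : ℕ) : Fin n ⊕ Fin n ≃ Fin (2 * n) := Equiv.ofBijective _ elim_bij

theorem seqv_symm_ev (i : Fin n) : (seqv n).symm (ev i) = Sum.inl i := by
  rw [Equiv.symm_apply_eq]; rfl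
theorem seqv_symm_od (i : Fin n) : (seqv n).symm (od i) = Sum.inr i := by
  rw [Equiv.symm_apply_eq]; rfl

/-- A checkerboard skew matrix has Pfaffian equal to a determinant. -/
theorem pfSum_checker (W : Matrix (Fin (2 * n)) (Fin (2 * n)) R) (B : Matrix (Fin n) (Fin n) R)
    (h1 : ∀ s t, W (ev s) (od t) = B s t) (h2 : ∀ s t, W (od s) (ev t) = - B t s)
    (h3 : ∀ s t, W (ev s) (ev t) = 0) (h4 : ∀ s t, W (od s) (od t) = 0) :
    pfSum W = B.det * (2 ^ n * (n.factorial : R)) := by
  have hJ : J R n = (Matrix.fromBlocks 0 1 (-1) 0 : Matrix (Fin n ⊕ Fin n) (Fin n ⊕ Fin n) R).submatrix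
      (seqv n).symm (seqv n).symm := by
    ext a b
    revert a b
    refine cases_idx ?_ ?_
    · intro i
      refine cases_idx ?_ ?_
      · intro j
        rw [J_ev_ev]
        simp [Matrix.submatrix_apply, seqv_symm_ev]
      · intro j
        rw [J_ev_od]
        simp [Matrix.submatrix_apply, seqv_symm_ev, seqv_symm_od, Matrix.one_apply]
    · intro i
      refine cases_idx ?_ ?_
      · intro j
        rw [J_od_ev]
        simp only [Matrix.submatrix_apply, seqv_symm_ev, seqv_symm_od, Matrix.fromBlocks_apply₂₁,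
          Matrix.neg_apply, Matrix.one_apply]
        split_ifs <;> simp
      · intro j
        rw [J_od_od]
        simp [Matrix.submatrix_apply, seqv_symm_od]
  have hW : W = (Matrix.fromBlocks 0 B (-B.transpose) 0 : Matrix (Fin n ⊕ Fin n) (Fin n ⊕ Fin n) R).submatrix
      (seqv n).symm (seqv n).symm := by
    ext a b
    revert a b
    refine cases_idx ?_ ?_
    · intro i
      refine cases_idx ?_ ?_
      · intro j
        rw [h3]
        simp [Matrix.submatrix_apply, seqv_symm_ev]
      · intro j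
        rw [h1]
        simp [Matrix.submatrix_apply, seqv_symm_ev, seqv_symm_od]
    · intro i
      refine cases_idx ?_ ?_
      · intro j
        rw [h2]
        simp [Matrix.submatrix_apply, seqv_symm_ev, seqv_symm_od]
      · intro j
        rw [h4]
        simp [Matrix.submatrix_apply, seqv_symm_od]
  have hM : W = ((Matrix.fromBlocks B 0 0 1 : Matrix (Fin n ⊕ Fin n) (Fin n ⊕ Fin n) R).submatrix
      (seqv n).symm (seqv n).symm) * J R n *
      (((Matrix.fromBlocks B 0 0 1 : Matrix (Fin n ⊕ Fin n) (Fin n ⊕ Fin n) R).submatrix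
      (seqv n).symm (seqv n).symm)).transpose := by
    rw [hJ, Matrix.transpose_submatrix, Matrix.submatrix_mul_equiv, Matrix.submatrix_mul_equiv, hW]
    congr 1
    rw [Matrix.fromBlocks_transpose, Matrix.fromBlocks_multiply, Matrix.fromBlocks_multiply]
    simp
  rw [hM, pfSum_mul, pfSum_J, Matrix.det_submatrix_equiv_self, Matrix.det_fromBlocks_zero₂₁]
  simp

end Pool.Agent.H148.PfA
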