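import Mathlib
import Pool.Agent.H148.PfB

set_option autoImplicit false

namespace Pool.Agent.H148.PfA

open Equiv Finset Polynomial

variable {R : Type*} [CommRing R]

/-- the linear functional with moments `μ` -/
noncomputable def Lin (μ : ℕ → R) : R[X] →ₗ[R] R :=
  Polynomial.lsum (fun n => (μ n) • (LinearMap.id : R →ₗ[R] R))

theorem Lin_monomial (μ : ℕ → R) (n : ℕ) (c : R) : Lin μ (monomial n c) = c * μ n := by
  rw [Lin, Polynomial.lsum_apply, Polynomial.sum_monomial_index]
  · simp [mul_comm]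
  · simp

theorem Lin_X_pow (μ : ℕ → R) (n : ℕ) : Lin μ (X ^ n) = μ n := by
  rw [← Polynomial.monomial_one_right_eq_X_pow, Lin_monomial, one_mul]

theorem Lin_C_mul (μ : ℕ → R) (c : R) (f : R[X]) : Lin μ (C c * f) = c * Lin μ f := by
  rw [← Polynomial.smul_eq_C_mul, map_smul, smul_eq_mul]

/-- the skew form -/
noncomputable def om (μ : ℕ → R) (f g : R[X]) : R :=
  Lin μ (f * derivative g - derivative f * g)

theorem om_self (μ : ℕ → R) (f : R[X]) : om μ f f = 0 := by
  rw [om, mul_comm f, sub_self, map_zero]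

theorem om_symm (μ : ℕ → R) (f g : R[X]) : om μ f g = - om μ g f := by
  rw [om, om, ← map_neg]; congr 1; ring

theorem om_X_pow (μ : ℕ → R) (a b : ℕ) :
    om μ (X ^ a) (X ^ b) = ((b : R) - (a : R)) * μ (a + b - 1) := by
  rw [om, map_sub, sub_mul, derivative_X_pow, derivative_X_pow]
  have h1 : Lin μ (X ^ a * (C (b : R) * X ^ (b - 1))) = (b : R) * μ (a + b - 1) := by
    rcases b with _ | b
    · simp
    · have : (X : R[X]) ^ a * (C ((b + 1 : ℕ) : R) * X ^ (b + 1 - 1)) =
          C ((b + 1 : ℕ) : R) * X ^ (a + b) := by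
        rw [Nat.add_sub_cancel]; ring
      rw [this, Lin_C_mul, Lin_X_pow]
      congr 2
  have h2 : Lin μ ((C (a : R) * X ^ (a - 1)) * X ^ b) = (a : R) * μ (a + b - 1) := by
    rcases a with _ | a
    · simp
    · have : (C ((a + 1 : ℕ) : R) * X ^ (a + 1 - 1)) * (X : R[X]) ^ b =
          C ((a + 1 : ℕ) : R) * X ^ (a + b) := by
        rw [Nat.add_sub_cancel]; ring
      rw [this, Lin_C_mul, Lin_X_pow]
      congr 2; omega
  rw [h1, h2]

/-- monic of degree `k`, in terms of coefficients -/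
def MD (f : R[X]) (k : ℕ) : Prop := f.coeff k = 1 ∧ ∀ j, k < j → f.coeff j = 0

theorem MD.sum {f : R[X]} {k N : ℕ} (h : MD f k) (hN : k < N) :
    f = ∑ j : Fin N, C (f.coeff j) * X ^ (j : ℕ) := by
  have h1 : f.natDegree ≤ k := Polynomial.natDegree_le_iff_coeff_eq_zero.2 h.2
  rw [Fin.sum_univ_eq_sum_range (fun j => C (f.coeff j) * X ^ j) N]
  conv_lhs => rw [f.as_sum_range' N (by omega)]
  simp only [← Polynomial.C_mul_X_pow_eq_monomial]

theorem MD.sum_range {f : R[X]} {k N : ℕ} (h : MD f k) (hN : k < N) :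
    f = ∑ j ∈ range N, C (f.coeff j) * X ^ j := by
  rw [← Fin.sum_univ_eq_sum_range (fun j => C (f.coeff j) * X ^ j) N]
  exact h.sum hN

/-- The matrix in question. -/
def mat (n : ℕ) (μ : ℕ → R) : Matrix (Fin (2 * n)) (Fin (2 * n)) R :=
  fun i j => (((j : ℕ) : R) - ((i : ℕ) : R)) * μ ((i : ℕ) + (j : ℕ) - 1)

theorem om_sum_sum {ι κ : Type*} [Fintype ι] [Fintype κ] (μ : ℕ → R) (f : ι → R[X])
    (g : κ → R[X]) : om μ (∑ i, f i) (∑ j, g j) = ∑ j, ∑ i, om μ (f i) (g j) := by
  simp only [om]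
  rw [derivative_sum, derivative_sum, Finset.sum_mul_sum, Finset.sum_mul_sum,
    ← Finset.sum_sub_distrib, map_sum, Finset.sum_comm]
  apply Finset.sum_congr rfl
  intro i _
  rw [← Finset.sum_sub_distrib, map_sum]

theorem om_C_mul (μ : ℕ → R) (a b : R) (f g : R[X]) :
    om μ (C a * f) (C b * g) = a * om μ f g * b := by
  simp only [om]
  have e : (C a * f) * derivative (C b * g) - derivative (C a * f) * (C b * g) =
      C (a * b) * (f * derivative g - derivative f * g) := by
    rw [derivative_C_mul, derivative_C_mul, C_mul]; ring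
  rw [e, Lin_C_mul]; ring

theorem om_sum {N : ℕ} (μ : ℕ → R) (a b : Fin N → R) :
    om μ (∑ i, C (a i) * X ^ (i : ℕ)) (∑ j, C (b j) * X ^ (j : ℕ)) =
      ∑ j, (∑ i, a i * (((((j : Fin N) : ℕ) : R) - (((i : Fin N) : ℕ) : R)) *
        μ ((i : ℕ) + (j : ℕ) - 1))) * b j := by
  rw [om_sum_sum]
  apply Finset.sum_congr rfl
  intro j _
  rw [Finset.sum_mul]
  apply Finset.sum_congr rfl
  intro i _
  rw [om_C_mul, om_X_pow]

/-- coefficient matrix -/
def cmat (n : ℕ) (p : ℕ → R[X]) : Matrix (Fin (2 * n)) (Fin (2 * n)) R :=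
  fun i k => (p i).coeff k

theorem cmat_det {n : ℕ} (p : ℕ → R[X]) (hp : ∀ k, MD (p k) k) : (cmat n p).det = 1 := by
  rw [Matrix.det_of_lowerTriangular]
  · apply Finset.prod_eq_one
    intro i _
    exact (hp i).1
  · intro i j hij
    exact (hp i).2 j hij

theorem pfSum_basis {n : ℕ} (μ : ℕ → R) (p : ℕ → R[X]) (hp : ∀ k, MD (p k) k) :
    pfSum (mat n μ) = pfSum (n := n) (fun i j => om μ (p i) (p j)) := by
  have h : (fun i j : Fin (2 * n) => om μ (p i) (p j) : Matrix (Fin (2 * n)) (Fin (2 * n)) R) =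
      cmat n p * mat n μ * (cmat n p).transpose := by
    ext i j
    conv_lhs => rw [(hp i).sum i.isLt, (hp j).sum j.isLt]
    rw [om_sum, Matrix.mul_apply]
    apply Finset.sum_congr rfl
    intro k _
    rw [Matrix.mul_apply]
    rfl
  rw [h, pfSum_mul, cmat_det p hp, one_mul]

/-- the even/odd block -/
noncomputable def bmat (n : ℕ) (μ : ℕ → R) (p : ℕ → R[X]) : Matrix (Fin n) (Fin n) R :=
  fun s t => om μ (p (2 * s)) (p (2 * t + 1))

theorem pfSum_det {n : ℕ} (μ : ℕ → R) (p : ℕ → R[X]) (hp : ∀ k, MD (p k) k)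
    (hee : ∀ i j, i < j → om μ (p (2 * i)) (p (2 * j)) = 0)
    (hoo : ∀ i j, i < j → om μ (p (2 * i + 1)) (p (2 * j + 1)) = 0) :
    pfSum (mat n μ) = (bmat n μ p).det * (2 ^ n * (n.factorial : R)) := by
  rw [pfSum_basis μ p hp]
  apply pfSum_checker
  · intro s t; rfl
  · intro s t; exact om_symm _ _ _
  · intro s t
    change om μ (p (2 * s)) (p (2 * t)) = 0
    rcases lt_trichotomy s.val t.val with h | h | h
    · exact hee _ _ h
    · rw [h]; exact om_self _ _
    · rw [om_symm, hee _ _ h, neg_zero]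
  · intro s t
    change om μ (p (2 * s + 1)) (p (2 * t + 1)) = 0
    rcases lt_trichotomy s.val t.val with h | h | h
    · exact hoo _ _ h
    · rw [h]; exact om_self _ _
    · rw [om_symm, hoo _ _ h, neg_zero]

/-! ### the two polynomial families -/

/-- second kind -/
noncomputable def u (b a : R) : ℕ → R[X]
  | 0 => 1
  | 1 => X - C b
  | (k + 2) => (X - C b) * u b a (k + 1) - C a * u b a k

/-- first kind -/
noncomputable def p (b a : R) : ℕ → R[X]
  | 0 => 1
  | 1 => X - C b
  | (k + 2) => u b a (k + 2) - C a * u b a k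

theorem MD_step {b a : R} {f g : R[X]} {k : ℕ} (hf : MD f (k + 1)) (hg : MD g k) :
    MD ((X - C b) * f - C a * g) (k + 2) := by
  constructor
  · rw [coeff_sub, sub_mul, coeff_sub, coeff_X_mul, coeff_C_mul, coeff_C_mul, hf.1,
      hf.2 _ (by omega), hg.2 _ (by omega)]
    ring
  · intro j hj
    obtain ⟨j, rfl⟩ : ∃ j', j = j' + 1 := ⟨j - 1, by omega⟩
    rw [coeff_sub, sub_mul, coeff_sub, coeff_X_mul, coeff_C_mul, coeff_C_mul, hf.2 _ (by omega),
      hf.2 _ (by omega), hg.2 _ (by omega)]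
    ring

theorem MD_X_sub (b : R) : MD (X - C b) 1 := by
  constructor
  · simp
  · intro j hj
    rw [coeff_sub, coeff_X, coeff_C, if_neg (by omega), if_neg (by omega), sub_zero]

theorem MD_one : MD (1 : R[X]) 0 := by
  constructor
  · simp
  · intro j hj
    rw [coeff_one, if_neg (by omega)]

theorem MD_u (b a : R) : ∀ k, MD (u b a k) k
  | 0 => MD_one
  | 1 => MD_X_sub b
  | (k + 2) => MD_step (MD_u b a (k + 1)) (MD_u b a k)

theorem MD_p (b a : R) : ∀ k, MD (p b a k) k
  | 0 => MD_one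
  | 1 => MD_X_sub b
  | (k + 2) => by
    have h1 := MD_u b a (k + 2)
    have h2 := MD_u b a k
    constructor
    · rw [p, coeff_sub, coeff_C_mul, h1.1, h2.2 _ (by omega)]; ring
    · intro j hj
      rw [p, coeff_sub, coeff_C_mul, h1.2 _ hj, h2.2 _ (by omega)]; ring

theorem u_rec (b a : R) (k : ℕ) :
    u b a (k + 2) = (X - C b) * u b a (k + 1) - C a * u b a k := rfl

theorem p_def (b a : R) (k : ℕ) : p b a (k + 2) = u b a (k + 2) - C a * u b a k := rfl

theorem p_rec (b a : R) : ∀ k, p b a (k + 3) = (X - C b) * p b a (k + 2) - C a * p b a (k + 1)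
  | 0 => by
    rw [p_def, p_def, u_rec b a 1]
    simp only [u, p]
    ring
  | (k + 1) => by
    rw [p_def, p_def, p_def, u_rec b a (k + 2), u_rec b a k]
    ring

theorem deriv_p (b a : R) : ∀ k, derivative (p b a (k + 1)) = C ((k : R) + 1) * u b a k
  | 0 => by simp [p, u]
  | 1 => by
    simp only [p, u, Nat.cast_one, map_add, map_one]
    simp
    ring
  | (k + 2) => by
    have h1 := deriv_p b a (k + 1)
    have h2 := deriv_p b a k
    rw [p_rec, derivative_sub, derivative_mul, derivative_mul, derivative_sub, derivative_X,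
      derivative_C, derivative_C, h1, h2, p_def, u_rec b a k]
    push_cast
    simp only [map_add, map_one, map_ofNat]
    ring

end Pool.Agent.H148.PfA
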