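import Mathlib
import Pool.Agent.H148.PfC

set_option autoImplicit false

namespace Pool.Agent.H148.PfA

open Equiv Finset Polynomial

variable {R : Type*} [CommRing R]

theorem Lin_mul_of {μ : ℕ → R} {f g : R[X]} {m k : ℕ} {w : R} {c : ℕ → R} (hf : MD f m)
    (hg : ∀ r, Lin μ (X ^ r * g) = w * c r) (hlt : ∀ r, r < k → c r = 0) (heq : c k = 1) :
    (m < k → Lin μ (f * g) = 0) ∧ (m = k → Lin μ (f * g) = w) := by
  have h : Lin μ (f * g) = ∑ j ∈ range (m + 1), f.coeff j * (w * c j) := by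
    conv_lhs => rw [hf.sum_range (N := m + 1) (by omega)]
    rw [Finset.sum_mul, map_sum]
    apply Finset.sum_congr rfl
    intro j _
    rw [mul_assoc, Lin_C_mul, hg]
  constructor
  · intro hm
    rw [h]
    apply Finset.sum_eq_zero
    intro j hj
    rw [Finset.mem_range] at hj
    rw [hlt j (by omega)]; ring
  · intro hm
    subst hm
    rw [h, Finset.sum_range_succ, Finset.sum_eq_zero, hf.1, heq]
    · ring
    · intro j hj
      rw [Finset.mem_range] at hj
      rw [hlt j hj]; ring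

section semi

variable (b a : R) (c : ℕ → ℕ → R)

/-- path recursion of second kind -/
structure Semi : Prop where
  h00 : c 0 0 = 1
  h0 : ∀ k, c 0 (k + 1) = 0
  hr0 : ∀ r, c (r + 1) 0 = b * c r 0 + a * c r 1
  hr : ∀ r k, c (r + 1) (k + 1) = c r k + b * c r (k + 1) + a * c r (k + 2)

variable {b a c}

theorem Semi.lt (h : Semi b a c) : ∀ r k, r < k → c r k = 0
  | 0, 0, hk => absurd hk (by omega)
  | 0, (k + 1), _ => h.h0 k
  | (r + 1), 0, hk => absurd hk (by omega)
  | (r + 1), (k + 1), hk => by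
    rw [h.hr, h.lt r k (by omega), h.lt r (k + 1) (by omega), h.lt r (k + 2) (by omega)]; ring

theorem Semi.eq (h : Semi b a c) : ∀ r, c r r = 1
  | 0 => h.h00
  | (r + 1) => by
    rw [h.hr, h.eq r, h.lt r (r + 1) (by omega), h.lt r (r + 2) (by omega)]; ring

theorem Semi.lin (h : Semi b a c) : ∀ k r, Lin (fun r => c r 0) (X ^ r * u b a k) = a ^ k * c r k
  | 0, r => by rw [u, mul_one, Lin_X_pow, pow_zero, one_mul]
  | 1, r => by
    have e : (X ^ r * u b a 1 : R[X]) = X ^ (r + 1) - C b * X ^ r := by rw [u]; ring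
    rw [e, map_sub, Lin_C_mul, Lin_X_pow, Lin_X_pow, h.hr0]; ring
  | (k + 2), r => by
    have e : (X ^ r * u b a (k + 2) : R[X]) = X ^ (r + 1) * u b a (k + 1) -
        C b * (X ^ r * u b a (k + 1)) - C a * (X ^ r * u b a k) := by
      rw [u_rec]; ring
    rw [e, map_sub, map_sub, Lin_C_mul, Lin_C_mul, h.lin (k + 1), h.lin (k + 1), h.lin k, h.hr]
    ring

theorem Semi.orth (h : Semi b a c) {f : R[X]} {m k : ℕ} (hf : MD f m) :
    (m < k → Lin (fun r => c r 0) (f * u b a k) = 0) ∧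
    (m = k → Lin (fun r => c r 0) (f * u b a k) = a ^ k) :=
  Lin_mul_of hf (h.lin k) (fun r hr => h.lt r k hr) (h.eq k)

theorem Semi.om_far (h : Semi b a c) {i j : ℕ} (hij : i + 1 < j) :
    om (fun r => c r 0) (p b a i) (p b a j) = 0 := by
  obtain ⟨j, rfl⟩ : ∃ j', j = j' + 2 := ⟨j - 2, by omega⟩
  rw [om, map_sub]
  have h1 : Lin (fun r => c r 0) (p b a i * derivative (p b a (j + 2))) = 0 := by
    rw [deriv_p, mul_left_comm, Lin_C_mul, (h.orth (MD_p b a i)).1 (by omega), mul_zero]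
  have h2 : Lin (fun r => c r 0) (derivative (p b a i) * p b a (j + 2)) = 0 := by
    rcases i with _ | i
    · simp [p]
    · rw [deriv_p, mul_assoc, Lin_C_mul, p_def, mul_sub, map_sub,
        (h.orth (MD_u b a i)).1 (by omega), mul_left_comm, Lin_C_mul,
        (h.orth (MD_u b a i)).1 (by omega)]
      ring
  rw [h1, h2, sub_zero]

theorem Semi.om_near (h : Semi b a c) (i : ℕ) :
    om (fun r => c r 0) (p b a i) (p b a (i + 1)) = (2 * (i : R) + 1) * a ^ i := by
  rw [om, map_sub]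
  have h1 : Lin (fun r => c r 0) (p b a i * derivative (p b a (i + 1))) = ((i : R) + 1) * a ^ i := by
    rw [deriv_p, mul_left_comm, Lin_C_mul, (h.orth (MD_p b a i)).2 rfl]
  have h2 : Lin (fun r => c r 0) (derivative (p b a i) * p b a (i + 1)) = - (i : R) * a ^ i := by
    rcases i with _ | i
    · simp [p]
    · rw [deriv_p, mul_assoc, Lin_C_mul, p_def, mul_sub, map_sub,
        (h.orth (MD_u b a i)).1 (by omega), mul_left_comm, Lin_C_mul,
        (h.orth (MD_u b a i)).2 rfl]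
      push_cast
      ring
  rw [h1, h2]; ring

/-- Pfaffian for second-kind moments. -/
theorem Semi.pf (h : Semi b a c) (n : ℕ) : pfSum (mat n (fun r => c r 0)) =
    (a ^ (n * (n - 1)) * ∏ k ∈ range n, (4 * (k : R) + 1)) * (2 ^ n * (n.factorial : R)) := by
  rw [pfSum_det _ (p b a) (MD_p b a) (fun i j hij => h.om_far (by omega))
    (fun i j hij => h.om_far (by omega))]
  congr 1
  rw [Matrix.det_of_isLowerTriangular]
  · have e : ∀ i : Fin n, om (fun r => c r 0) (p b a (2 * (i : ℕ))) (p b a (2 * (i : ℕ) + 1)) =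
        (4 * ((i : ℕ) : R) + 1) * a ^ (2 * (i : ℕ)) := by
      intro i
      rw [h.om_near]
      push_cast
      ring
    have e' : ∀ i : Fin n, bmat n (fun r => c r 0) (p b a) i i =
        (4 * ((i : ℕ) : R) + 1) * a ^ (2 * (i : ℕ)) := e
    rw [Finset.prod_congr rfl (fun i _ => e' i)]
    rw [Fin.prod_univ_eq_prod_range (fun i => (4 * (i : R) + 1) * a ^ (2 * i)) n,
      Finset.prod_mul_distrib, Finset.prod_pow_eq_pow_sum, mul_comm]
    congr 2
    rw [← Finset.mul_sum, mul_comm, Finset.sum_range_id_mul_two]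
  · intro s t hst
    have hst' : (s : ℕ) < (t : ℕ) := hst
    exact h.om_far (by omega)

end semi

section arc

variable (b a : R) (g : ℕ → ℕ → R)

/-- path recursion of first kind -/
structure Arc : Prop where
  h00 : g 0 0 = 1
  h0 : ∀ k, g 0 (k + 1) = 0
  hr0 : ∀ r, g (r + 1) 0 = b * g r 0 + 2 * a * g r 1
  hr : ∀ r k, g (r + 1) (k + 1) = g r k + b * g r (k + 1) + a * g r (k + 2)

variable {b a g}

theorem Arc.lt (h : Arc b a g) : ∀ r k, r < k → g r k = 0
  | 0, 0, hk => absurd hk (by omega)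
  | 0, (k + 1), _ => h.h0 k
  | (r + 1), 0, hk => absurd hk (by omega)
  | (r + 1), (k + 1), hk => by
    rw [h.hr, h.lt r k (by omega), h.lt r (k + 1) (by omega), h.lt r (k + 2) (by omega)]; ring

theorem Arc.eq (h : Arc b a g) : ∀ r, g r r = 1
  | 0 => h.h00
  | (r + 1) => by
    rw [h.hr, h.eq r, h.lt r (r + 1) (by omega), h.lt r (r + 2) (by omega)]; ring

theorem Arc.lin (h : Arc b a g) : ∀ k r,
    Lin (fun r => g r 0) (X ^ r * p b a (k + 1)) = (2 * a ^ (k + 1)) * g r (k + 1)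
  | 0, r => by
    have e : (X ^ r * p b a 1 : R[X]) = X ^ (r + 1) - C b * X ^ r := by rw [p]; ring
    rw [e, map_sub, Lin_C_mul, Lin_X_pow, Lin_X_pow, h.hr0]; ring
  | 1, r => by
    have e : (X ^ r * p b a 2 : R[X]) = X ^ (r + 1) * p b a 1 -
        C b * (X ^ r * p b a 1) - C (2 * a) * X ^ r := by
      simp only [p, u, C_mul, map_ofNat]; ring
    rw [e, map_sub, map_sub, Lin_C_mul, Lin_C_mul, h.lin 0, h.lin 0, Lin_X_pow, h.hr]
    ring
  | (k + 2), r => by
    have e : (X ^ r * p b a (k + 3) : R[X]) = X ^ (r + 1) * p b a (k + 2) -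
        C b * (X ^ r * p b a (k + 2)) - C a * (X ^ r * p b a (k + 1)) := by
      rw [p_rec]; ring
    rw [e, map_sub, map_sub, Lin_C_mul, Lin_C_mul, h.lin (k + 1), h.lin (k + 1), h.lin k,
      h.hr r (k + 1)]
    ring

theorem Arc.orth (h : Arc b a g) {f : R[X]} {m k : ℕ} (hf : MD f m) :
    (m < k + 1 → Lin (fun r => g r 0) (f * p b a (k + 1)) = 0) ∧
    (m = k + 1 → Lin (fun r => g r 0) (f * p b a (k + 1)) = 2 * a ^ (k + 1)) :=
  Lin_mul_of hf (h.lin k) (fun r hr => h.lt r (k + 1) hr) (h.eq (k + 1))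

/-- `L(u_{2d}) = a^d` -/
theorem Arc.lin_u_even (h : Arc b a g) : ∀ d, Lin (fun r => g r 0) (u b a (2 * d)) = a ^ d
  | 0 => by
    rw [mul_zero, u, ← pow_zero (X : R[X]), Lin_X_pow, pow_zero, h.h00]
  | (d + 1) => by
    have e : u b a (2 * (d + 1)) = 1 * p b a (2 * d + 1 + 1) + C a * u b a (2 * d) := by
      rw [one_mul, show 2 * d + 1 + 1 = 2 * d + 2 from rfl, p_def]; ring_nf
    rw [e, map_add, Lin_C_mul, (h.orth MD_one).1 (by omega), h.lin_u_even d]; ring

/-- `L(p_i u_{i+2d}) = 2a^{i+d}` for `i ≥ 1` -/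
theorem Arc.lin_p_u_even (h : Arc b a g) (i : ℕ) : ∀ d,
    Lin (fun r => g r 0) (p b a (i + 1) * u b a (i + 1 + 2 * d)) = 2 * a ^ (i + 1 + d)
  | 0 => by
    rw [mul_zero, add_zero, mul_comm, (h.orth (MD_u b a (i + 1))).2 rfl]
  | (d + 1) => by
    have e : p b a (i + 1) * u b a (i + 1 + 2 * (d + 1)) =
        p b a (i + 1) * p b a (i + 1 + 2 * d + 1 + 1) +
          C a * (p b a (i + 1) * u b a (i + 1 + 2 * d)) := by
      rw [show i + 1 + 2 * d + 1 + 1 = (i + 1 + 2 * d) + 2 from rfl, p_def,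
        show i + 1 + 2 * (d + 1) = (i + 1 + 2 * d) + 2 from by ring]
      ring
    rw [e, map_add, Lin_C_mul, (h.orth (MD_p b a (i + 1))).1 (by omega), h.lin_p_u_even i d]; ring

/-- `L(p_i u_m) = 0` if `m - i` is odd, `i ≥ 1`, `m + 1 ≥ i`. -/
theorem Arc.lin_p_u_zero (h : Arc b a g) (i : ℕ) : ∀ d,
    Lin (fun r => g r 0) (p b a (i + 1) * u b a (i + 2 * d)) = 0
  | 0 => by
    rw [mul_zero, add_zero, mul_comm, (h.orth (MD_u b a i)).1 (by omega)]
  | (d + 1) => by
    have e : p b a (i + 1) * u b a (i + 2 * (d + 1)) =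
        p b a (i + 1) * p b a (i + 2 * d + 1 + 1) +
          C a * (p b a (i + 1) * u b a (i + 2 * d)) := by
      rw [show i + 2 * d + 1 + 1 = (i + 2 * d) + 2 from rfl, p_def,
        show i + 2 * (d + 1) = (i + 2 * d) + 2 from by ring]
      ring
    rw [e, map_add, Lin_C_mul, (h.orth (MD_p b a (i + 1))).1 (by omega), h.lin_p_u_zero i d]; ring

theorem Arc.lin_u_odd (h : Arc b a g) : ∀ d, Lin (fun r => g r 0) (u b a (2 * d + 1)) = 0
  | 0 => by
    have : u b a (2 * 0 + 1) = 1 * p b a (0 + 1) := by simp [u, p]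
    rw [this, (h.orth MD_one).1 (by omega)]
  | (d + 1) => by
    have e : u b a (2 * (d + 1) + 1) = 1 * p b a (2 * d + 1 + 1 + 1) + C a * u b a (2 * d + 1) := by
      rw [one_mul, show 2 * d + 1 + 1 + 1 = (2 * d + 1) + 2 from rfl, p_def]; ring_nf
    rw [e, map_add, Lin_C_mul, (h.orth MD_one).1 (by omega), h.lin_u_odd d]; ring

/-- second term vanishes -/
theorem Arc.lin_second (h : Arc b a g) {i j : ℕ} (hij : i < j) :
    Lin (fun r => g r 0) (derivative (p b a i) * p b a j) = 0 := by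
  obtain ⟨j, rfl⟩ : ∃ j', j = j' + 1 := ⟨j - 1, by omega⟩
  rcases i with _ | i
  · simp [p]
  · rw [deriv_p, mul_assoc, Lin_C_mul, (h.orth (MD_u b a i)).1 (by omega), mul_zero]

theorem Arc.om_same (h : Arc b a g) {i d : ℕ} (hd : 0 < d) :
    om (fun r => g r 0) (p b a i) (p b a (i + 2 * d)) = 0 := by
  obtain ⟨d, rfl⟩ : ∃ d', d = d' + 1 := ⟨d - 1, by omega⟩
  rw [om, map_sub, h.lin_second (by omega), sub_zero]
  rw [show i + 2 * (d + 1) = (i + 2 * d + 1) + 1 from by ring, deriv_p, mul_left_comm, Lin_C_mul]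
  rcases i with _ | i
  · rw [show 0 + 2 * d + 1 = 2 * d + 1 from by ring, show p b a 0 = 1 from rfl, one_mul,
      h.lin_u_odd, mul_zero]
  · rw [show i + 1 + 2 * d + 1 = i + 2 * (d + 1) from by ring, h.lin_p_u_zero, mul_zero]

/-- upper entries, first row -/
theorem Arc.om_zero (h : Arc b a g) (d : ℕ) :
    om (fun r => g r 0) (p b a 0) (p b a (2 * d + 1)) = (2 * (d : R) + 1) * a ^ d := by
  rw [om, map_sub, h.lin_second (by omega), sub_zero, deriv_p, mul_left_comm, Lin_C_mul,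
    show p b a 0 = 1 from rfl, one_mul, h.lin_u_even]
  push_cast; ring

theorem Arc.om_diff (h : Arc b a g) (i d : ℕ) :
    om (fun r => g r 0) (p b a (i + 1)) (p b a (i + 1 + 2 * d + 1)) =
      2 * ((i : R) + 1 + 2 * d + 1) * a ^ (i + 1 + d) := by
  rw [om, map_sub, h.lin_second (by omega), sub_zero, deriv_p, mul_left_comm, Lin_C_mul,
    h.lin_p_u_even]
  push_cast; ring

end arc

end Pool.Agent.H148.PfA
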