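import Mathlib
import Pool.Agent.H148.PfD

set_option autoImplicit false

namespace Pool.Agent.H148.PfA

open Equiv Finset Polynomial

variable {R : Type*} [CommRing R]

/-- reduced block -/
def B0 (R : Type*) [CommRing R] (m : ℕ) : Matrix (Fin (m + 1)) (Fin (m + 1)) R := fun s t =>
  if (s : ℕ) = 0 then 2 * ((t : ℕ) : R) + 1 else if (t : ℕ) < (s : ℕ) then -4 * ((s : ℕ) : R)
    else 2 * (2 * ((t : ℕ) : R) + 1)

/-- after row operations -/
def B1 (R : Type*) [CommRing R] (m : ℕ) : Matrix (Fin (m + 1)) (Fin (m + 1)) R := fun s t =>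
  if (s : ℕ) = 0 then 2 * ((t : ℕ) : R) + 1 else if (t : ℕ) < (s : ℕ) then
    -(4 * ((s : ℕ) : R) + 4 * ((t : ℕ) : R) + 2) else 0

theorem det_B0 (m : ℕ) : (B0 R m).det = (B1 R m).det := by
  apply Matrix.det_eq_of_forall_row_eq_smul_add_const
    (fun i : Fin (m + 1) => if (i : ℕ) = 0 then (0 : R) else 2) (0 : Fin (m + 1))
  · simp
  · intro i j
    simp only [B0, B1]
    by_cases hi : (i : ℕ) = 0
    · simp [hi]
    · simp only [hi, if_false, Fin.val_zero, if_true]
      by_cases hj : (j : ℕ) < (i : ℕ)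
      · simp only [hj, if_true]; ring
      · simp only [hj, if_false]; ring

theorem det_B1 (m : ℕ) : (B1 R m).det =
    2 ^ m * (2 * (m : R) + 1) * ∏ k ∈ range m, (4 * (k : R) + 3) := by
  have h1 : ((B1 R m).submatrix (finRotate (m + 1)) id).det = (-1) ^ m * (B1 R m).det := by
    rw [Matrix.det_permute, sign_finRotate]
    push_cast; rfl
  have hval : ∀ s : Fin (m + 1), (s : ℕ) ≠ m → ((finRotate (m + 1) s : Fin (m + 1)) : ℕ) = s + 1 := by
    intro s hs
    apply coe_finRotate_of_ne_last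
    intro h
    apply hs
    rw [h]; rfl
  have h2 : ((B1 R m).submatrix (finRotate (m + 1)) id).det =
      (∏ k ∈ range m, (-(8 * (k : R) + 6))) * (2 * (m : R) + 1) := by
    rw [Matrix.det_of_isLowerTriangular]
    · rw [Fin.prod_univ_castSucc]
      congr 1
      · rw [← Fin.prod_univ_eq_prod_range (fun k => (-(8 * (k : R) + 6))) m]
        apply Finset.prod_congr rfl
        intro i _
        rw [Matrix.submatrix_apply]
        simp only [B1, id]
        rw [hval _ (by simp [i.isLt.ne])]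
        simp only [Fin.val_castSucc]
        rw [if_neg (by omega), if_pos (by omega)]
        push_cast; ring
      · rw [Matrix.submatrix_apply, finRotate_last]
        simp [B1]
    · intro s t hst
      have hst' : (s : ℕ) < (t : ℕ) := hst
      rw [Matrix.submatrix_apply]
      simp only [B1, id]
      rw [hval s (by have := t.isLt; omega), if_neg (by omega), if_neg (by omega)]
  have h3 : (B1 R m).det = (-1) ^ m * ((B1 R m).submatrix (finRotate (m + 1)) id).det := by
    rw [h1, ← mul_assoc, ← mul_pow]; simp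
  rw [h3, h2]
  have h4 : ∀ k ∈ range m, (-(8 * (k : R) + 6)) = (-1) * 2 * (4 * (k : R) + 3) := by
    intro k _; ring
  rw [Finset.prod_congr rfl h4, Finset.prod_mul_distrib, Finset.prod_const, Finset.card_range,
    mul_pow]
  have h5 : ((-1 : R)) ^ m * (-1) ^ m = 1 := by rw [← mul_pow]; simp
  linear_combination (2 ^ m * (∏ k ∈ range m, (4 * (k : R) + 3)) * (2 * (m : R) + 1)) * h5

section arc

variable {b a : R} {g : ℕ → ℕ → R}

theorem Arc.bmat_eq (h : Arc b a g) (m : ℕ) (s t : Fin (m + 1)) :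
    bmat (m + 1) (fun r => g r 0) (p b a) s t = a ^ (t : ℕ) * (a ^ (s : ℕ) * B0 R m s t) := by
  simp only [bmat, B0]
  by_cases hs : (s : ℕ) = 0
  · rw [hs, if_pos rfl, mul_zero, h.om_zero]; ring
  · rw [if_neg hs]
    by_cases hst : (t : ℕ) < (s : ℕ)
    · rw [if_pos hst, om_symm]
      obtain ⟨d, hd⟩ : ∃ d, (s : ℕ) = (t : ℕ) + d + 1 := ⟨(s : ℕ) - t - 1, by omega⟩
      have := h.om_diff (2 * (t : ℕ)) d
      rw [show 2 * (t : ℕ) + 1 + 2 * d + 1 = 2 * (s : ℕ) by omega] at this
      rw [this, hd]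
      push_cast
      ring
    · rw [if_neg hst]
      obtain ⟨d, hd⟩ : ∃ d, (t : ℕ) = (s : ℕ) + d := ⟨(t : ℕ) - s, by omega⟩
      have := h.om_diff (2 * (s : ℕ) - 1) d
      rw [show 2 * (s : ℕ) - 1 + 1 + 2 * d + 1 = 2 * (t : ℕ) + 1 by omega,
        show 2 * (s : ℕ) - 1 + 1 = 2 * (s : ℕ) by omega] at this
      rw [this, hd, Nat.cast_sub (by omega)]
      push_cast
      ring

/-- Pfaffian for first-kind moments. -/
theorem Arc.pf (h : Arc b a g) (m : ℕ) : pfSum (mat (m + 1) (fun r => g r 0)) =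
    (a ^ ((m + 1) * m) * (2 ^ m * (2 * (m : R) + 1) * ∏ k ∈ range m, (4 * (k : R) + 3))) *
      (2 ^ (m + 1) * ((m + 1).factorial : R)) := by
  rw [pfSum_det _ (p b a) (MD_p b a) (fun i j hij => by
      have := h.om_same (i := 2 * i) (d := j - i) (by omega)
      rwa [show 2 * i + 2 * (j - i) = 2 * j by omega] at this)
    (fun i j hij => by
      have := h.om_same (i := 2 * i + 1) (d := j - i) (by omega)
      rwa [show 2 * i + 1 + 2 * (j - i) = 2 * j + 1 by omega] at this)]
  congr 1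
  have e1 : bmat (m + 1) (fun r => g r 0) (p b a) = Matrix.of (fun i j : Fin (m + 1) =>
      (fun j : Fin (m + 1) => a ^ (j : ℕ)) j * (Matrix.of (fun i j : Fin (m + 1) =>
        (fun i : Fin (m + 1) => a ^ (i : ℕ)) i * B0 R m i j)) i j) := by
    ext s t
    exact h.bmat_eq m s t
  rw [e1, Matrix.det_mul_row, Matrix.det_mul_column, det_B0, det_B1]
  have e2 : ∏ i : Fin (m + 1), a ^ (i : ℕ) = a ^ (∑ i ∈ range (m + 1), i) := by
    rw [Fin.prod_univ_eq_prod_range (fun i => a ^ i) (m + 1), Finset.prod_pow_eq_pow_sum]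
  simp only [e2]
  rw [← mul_assoc, ← pow_add, ← mul_two, Finset.sum_range_id_mul_two, Nat.add_sub_cancel]

end arc

end Pool.Agent.H148.PfA
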