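import Mathlib
import Pool.Agent.H148.PfE

set_option autoImplicit false

namespace Pool.Agent.H148.PfA

open Finset

/-! ### Motzkin paths -/

/-- ballot numbers -/
def bal (k : ℕ) : ℕ → ℚ
  | 0 => 1
  | (j + 1) => ((k + 2 * j + 2).choose (j + 1) : ℚ) - ((k + 2 * j + 2).choose j : ℚ)

theorem bal_rec (k j : ℕ) : bal (k + 1) (j + 1) = bal k (j + 1) + bal (k + 2) j := by
  rcases j with _ | j
  · simp [bal]; ring
  · simp only [bal]
    have e1 : k + 1 + 2 * (j + 1) + 2 = (k + 2 * j + 4) + 1 := by ring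
    have e2 : k + 2 * (j + 1) + 2 = k + 2 * j + 4 := by ring
    have e3 : k + 2 + 2 * j + 2 = k + 2 * j + 4 := by ring
    rw [e1, e2, e3, Nat.choose_succ_succ, Nat.choose_succ_succ (k + 2 * j + 4) j]
    push_cast; ring

theorem bal_zero (j : ℕ) : bal 0 (j + 1) = bal 1 j := by
  rcases j with _ | j
  · norm_num [bal]
  · simp only [bal]
    have e1 : 0 + 2 * (j + 1) + 2 = (2 * j + 3) + 1 := by ring
    have e2 : 1 + 2 * j + 2 = 2 * j + 3 := by ring
    rw [e1, e2, Nat.choose_succ_succ, Nat.choose_succ_succ (2 * j + 3) j]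
    have e3 : (2 * j + 3).choose (j + 1 + 1) = (2 * j + 3).choose (j + 1) := by
      apply Nat.choose_symm_of_eq_add; ring
    rw [e3]
    push_cast; ring

theorem bal_catalan (j : ℕ) : bal 0 j = (catalan j : ℚ) := by
  rcases j with _ | j
  · simp [bal]
  · have h1 := succ_mul_catalan_eq_centralBinom (j + 1)
    have h2 := Nat.choose_succ_right_eq (2 * (j + 1)) j
    rw [show 2 * (j + 1) - j = j + 2 by omega] at h2
    simp only [bal]
    rw [show 0 + 2 * j + 2 = 2 * (j + 1) by ring]
    rw [Nat.centralBinom] at h1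
    have h1' : ((j : ℚ) + 1 + 1) * (catalan (j + 1) : ℚ) = ((2 * (j + 1)).choose (j + 1) : ℚ) := by
      exact_mod_cast h1
    have h2' : ((2 * (j + 1)).choose (j + 1) : ℚ) * (j + 1) = ((2 * (j + 1)).choose j : ℚ) * (j + 2) := by
      exact_mod_cast h2
    have h3 : ((j : ℚ) + 1 + 1) ≠ 0 := by positivity
    apply mul_left_cancel₀ h3
    rw [h1']
    linear_combination h2'

/-- weighted Motzkin path counts with all weights one -/
def cm (r k : ℕ) : ℚ := ∑ j ∈ range (r + 1), (r.choose (k + 2 * j) : ℚ) * bal k j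

theorem cm_eq (r k N : ℕ) (hN : r + 1 ≤ N) :
    cm r k = ∑ j ∈ range N, (r.choose (k + 2 * j) : ℚ) * bal k j := by
  rw [cm]
  symm
  apply Finset.eventually_constant_sum _ hN
  intro j hj
  rw [Nat.choose_eq_zero_of_lt (by omega)]
  simp

theorem semi_cm : Semi (1 : ℚ) 1 cm where
  h00 := by simp [cm, bal]
  h0 := by intro k; simp [cm]
  hr0 := by
    intro r
    rw [cm, Finset.sum_range_succ', cm_eq r 0 (r + 2) (by omega), Finset.sum_range_succ' _ (r + 1), cm]
    have h : ∀ j ∈ range (r + 1), ((r + 1).choose (0 + 2 * (j + 1)) : ℚ) * bal 0 (j + 1) =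
        (r.choose (0 + 2 * (j + 1)) : ℚ) * bal 0 (j + 1) + (r.choose (1 + 2 * j) : ℚ) * bal 1 j := by
      intro j _
      rw [show 0 + 2 * (j + 1) = (1 + 2 * j) + 1 by ring, Nat.choose_succ_succ, ← bal_zero]
      push_cast; ring
    rw [Finset.sum_congr rfl h, Finset.sum_add_distrib]
    simp
    ring
  hr := by
    intro r k
    rw [cm, Finset.sum_range_succ', cm_eq r k (r + 2) (by omega), Finset.sum_range_succ' _ (r + 1),
      cm_eq r (k + 1) (r + 2) (by omega), Finset.sum_range_succ' _ (r + 1), cm]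
    have h : ∀ j ∈ range (r + 1), ((r + 1).choose (k + 1 + 2 * (j + 1)) : ℚ) * bal (k + 1) (j + 1) =
        (r.choose (k + 2 * (j + 1)) : ℚ) * bal k (j + 1) +
        (r.choose (k + 1 + 2 * (j + 1)) : ℚ) * bal (k + 1) (j + 1)
          + (r.choose (k + 2 + 2 * j) : ℚ) * bal (k + 2) j := by
      intro j _
      rw [show k + 1 + 2 * (j + 1) = (k + 2 + 2 * j) + 1 by ring, Nat.choose_succ_succ, bal_rec,
        show k + 2 * (j + 1) = k + 2 + 2 * j by ring]
      push_cast; ring
    rw [Finset.sum_congr rfl h, Finset.sum_add_distrib, Finset.sum_add_distrib]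
    simp [Nat.choose_succ_succ, bal]
    ring

/-! ### Legendre type sums -/

variable {R : Type*} [CommRing R]

/-- coefficient of `z^m` in `((1+z)(1+a/z))^r` -/
def gg (a : R) (r m : ℕ) : R := ∑ j ∈ range (r + 1), (r.choose (j + m) : R) * (r.choose j : R) * a ^ j

theorem gg_eq (a : R) (r m N : ℕ) (hN : r + 1 ≤ N) :
    gg a r m = ∑ j ∈ range N, (r.choose (j + m) : R) * (r.choose j : R) * a ^ j := by
  rw [gg]
  symm
  apply Finset.eventually_constant_sum _ hN
  intro j hj
  rw [Nat.choose_eq_zero_of_lt (show r < j by omega)]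
  simp

theorem arc_gg (a : R) : Arc (1 + a) a (gg a) where
  h00 := by simp [gg]
  h0 := by intro k; simp [gg]
  hr0 := by
    intro r
    rw [gg, Finset.sum_range_succ', gg_eq a r 0 (r + 2) (by omega), Finset.sum_range_succ' _ (r + 1)]
    have h : ∀ j ∈ range (r + 1), ((r + 1).choose (j + 1 + 0) : R) * ((r + 1).choose (j + 1) : R) *
        a ^ (j + 1) = (r.choose (j + 1 + 0) : R) * (r.choose (j + 1) : R) * a ^ (j + 1) +
        a * ((r.choose (j + 0) : R) * (r.choose j : R) * a ^ j) +
        2 * a * ((r.choose (j + 1) : R) * (r.choose j : R) * a ^ j) := by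
      intro j _
      rw [add_zero, add_zero, Nat.choose_succ_succ]
      push_cast; ring
    have h2 : gg a r 0 = ∑ j ∈ range (r + 1), (r.choose (j + 1 + 0) : R) * (r.choose (j + 1) : R) *
        a ^ (j + 1) + 1 := by
      rw [gg_eq a r 0 (r + 2) (by omega), Finset.sum_range_succ' _ (r + 1)]
      simp
    rw [Finset.sum_congr rfl h, Finset.sum_add_distrib, Finset.sum_add_distrib, ← Finset.mul_sum,
      ← Finset.mul_sum]
    have h3 : ∑ j ∈ range (r + 1), (r.choose (j + 0) : R) * (r.choose j : R) * a ^ j = gg a r 0 := rfl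
    have h4 : ∑ j ∈ range (r + 1), (r.choose (j + 1) : R) * (r.choose j : R) * a ^ j = gg a r 1 := rfl
    rw [h3, h4]
    simp
    rw [h2]
    simp
    ring
  hr := by
    intro r m
    rw [gg, Finset.sum_range_succ']
    have h : ∀ j ∈ range (r + 1), ((r + 1).choose (j + 1 + (m + 1)) : R) *
        ((r + 1).choose (j + 1) : R) * a ^ (j + 1) =
        (r.choose (j + 1 + m) : R) * (r.choose (j + 1) : R) * a ^ (j + 1) +
        (r.choose (j + 1 + (m + 1)) : R) * (r.choose (j + 1) : R) * a ^ (j + 1) +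
        a * ((r.choose (j + (m + 1)) : R) * (r.choose j : R) * a ^ j) +
        a * ((r.choose (j + (m + 2)) : R) * (r.choose j : R) * a ^ j) := by
      intro j _
      rw [show j + 1 + (m + 1) = (j + 1 + m) + 1 by ring, Nat.choose_succ_succ,
        Nat.choose_succ_succ r j, show j + (m + 1) = j + 1 + m by ring,
        show j + (m + 2) = j + 1 + m + 1 by ring]
      push_cast; ring
    rw [Finset.sum_congr rfl h, Finset.sum_add_distrib, Finset.sum_add_distrib,
      Finset.sum_add_distrib, ← Finset.mul_sum, ← Finset.mul_sum]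
    have h1 : gg a r m = ∑ j ∈ range (r + 1), (r.choose (j + 1 + m) : R) * (r.choose (j + 1) : R) *
        a ^ (j + 1) + (r.choose m : R) := by
      rw [gg_eq a r m (r + 2) (by omega), Finset.sum_range_succ' _ (r + 1)]
      simp
    have h2 : gg a r (m + 1) = ∑ j ∈ range (r + 1), (r.choose (j + 1 + (m + 1)) : R) *
        (r.choose (j + 1) : R) * a ^ (j + 1) + (r.choose (m + 1) : R) := by
      rw [gg_eq a r (m + 1) (r + 2) (by omega), Finset.sum_range_succ' _ (r + 1)]
      simp
    have h3 : ∑ j ∈ range (r + 1), (r.choose (j + (m + 1)) : R) * (r.choose j : R) * a ^ j =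
      gg a r (m + 1) := rfl
    have h4 : ∑ j ∈ range (r + 1), (r.choose (j + (m + 2)) : R) * (r.choose j : R) * a ^ j =
      gg a r (m + 2) := rfl
    rw [h3, h4]
    have h5 : (((r + 1).choose (0 + (m + 1)) : ℕ) : R) = (r.choose m : R) + (r.choose (m + 1) : R) := by
      rw [zero_add, Nat.choose_succ_succ]; push_cast; ring
    rw [h5]
    simp only [Nat.choose_zero_right, Nat.cast_one, mul_one, pow_zero]
    linear_combination (-1) * h1 - h2

theorem semi_gg (a : R) : Semi (1 + a) a (fun r k => gg a r k - a * gg a r (k + 2)) where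
  h00 := by rw [(arc_gg a).h00, (arc_gg a).h0]; ring
  h0 := by intro k; rw [(arc_gg a).h0, (arc_gg a).h0]; ring
  hr0 := by
    intro r
    rw [(arc_gg a).hr0, (arc_gg a).hr]; ring
  hr := by
    intro r k
    rw [(arc_gg a).hr, (arc_gg a).hr]; ring

/-! ### binomial identities -/

theorem sum_choose_mul_choose (n m : ℕ) :
    ∑ k ∈ range (n + 1), n.choose k * k.choose m = n.choose m * 2 ^ (n - m) := by
  rcases le_or_gt m n with hm | hm
  · have h : ∀ k ∈ range (n + 1), n.choose k * k.choose m =
        n.choose m * (if m ≤ k then (n - m).choose (k - m) else 0) := by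
      intro k hk
      rw [Finset.mem_range] at hk
      split_ifs with h
      · exact Nat.choose_mul h
      · rw [Nat.choose_eq_zero_of_lt (show k < m by omega)]; simp
    rw [Finset.sum_congr rfl h, ← Finset.mul_sum]
    congr 1
    rw [← Finset.sum_filter]
    rw [← Nat.sum_range_choose (n - m)]
    symm
    apply Finset.sum_bij (fun k _ => k + m)
    · intro k hk
      simp only [Finset.mem_range, Finset.mem_filter] at hk ⊢
      omega
    · intro a _ b _ hab
      simpa using hab
    · intro k hk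
      simp only [Finset.mem_range, Finset.mem_filter] at hk
      exact ⟨k - m, by simp only [Finset.mem_range]; omega, by omega⟩
    · intro k _
      simp
  · rw [Nat.choose_eq_zero_of_lt hm, zero_mul]
    apply Finset.sum_eq_zero
    intro k hk
    rw [Finset.mem_range] at hk
    rw [Nat.choose_eq_zero_of_lt (show k < m by omega), mul_zero]

theorem delannoy_sum (n : ℕ) : ∑ k ∈ range (n + 1), n.choose k * (n + k).choose k =
    ∑ j ∈ range (n + 1), n.choose j * n.choose j * 2 ^ j := by
  have h : ∀ k ∈ range (n + 1), n.choose k * (n + k).choose k =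
      ∑ j ∈ range (n + 1), n.choose j * (n.choose k * k.choose (n - j)) := by
    intro k _
    rw [show (n + k).choose k = (n + k).choose n from by
      rw [Nat.choose_symm_of_eq_add (show n + k = k + n by ring)],
      Nat.add_choose_eq, Finset.Nat.sum_antidiagonal_eq_sum_range_succ_mk, Finset.mul_sum]
    apply Finset.sum_congr rfl
    intro j _
    ring
  rw [Finset.sum_congr rfl h, Finset.sum_comm]
  apply Finset.sum_congr rfl
  intro j hj
  rw [Finset.mem_range] at hj
  rw [← Finset.mul_sum, sum_choose_mul_choose, Nat.choose_symm (by omega),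
    show n - (n - j) = j by omega]
  ring

theorem schroder_term (n k : ℕ) (hn : 1 ≤ n) :
    n * ((n + k).choose (2 * k) * catalan k) = n.choose k * (n + k).choose (n - 1) := by
  apply Nat.eq_of_mul_eq_mul_left (show 0 < k + 1 by omega)
  have h1 := succ_mul_catalan_eq_centralBinom k
  have h2 : (n + k).choose (2 * k) * (2 * k).choose k = (n + k).choose k * n.choose k := by
    rw [Nat.choose_mul (by omega), show n + k - k = n by omega, show 2 * k - k = k by omega]
  have h3 : (n + k).choose (k + 1) * (k + 1) = (n + k).choose k * n := by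
    rw [Nat.choose_succ_right_eq, show n + k - k = n by omega]
  have h4 : (n + k).choose (n - 1) = (n + k).choose (k + 1) :=
    Nat.choose_symm_of_eq_add (by omega)
  rw [Nat.centralBinom] at h1
  calc (k + 1) * (n * ((n + k).choose (2 * k) * catalan k)) =
      n * ((n + k).choose (2 * k) * ((k + 1) * catalan k)) := by ring
    _ = n * ((n + k).choose k * n.choose k) := by rw [h1, h2]
    _ = ((n + k).choose k * n) * n.choose k := by ring
    _ = ((n + k).choose (k + 1) * (k + 1)) * n.choose k := by rw [h3]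
    _ = (k + 1) * (n.choose k * (n + k).choose (n - 1)) := by rw [h4]; ring

/-- `n · Schröder = Σ C(n,i) C(n,i+1) 2^{i+1}` -/
theorem schroder_sum (n : ℕ) (hn : 1 ≤ n) :
    n * ∑ k ∈ range (n + 1), (n + k).choose (2 * k) * catalan k =
    ∑ i ∈ range n, n.choose i * n.choose (i + 1) * 2 ^ (i + 1) := by
  rw [Finset.mul_sum]
  have h : ∀ k ∈ range (n + 1), n * ((n + k).choose (2 * k) * catalan k) =
      ∑ i ∈ range n, n.choose i * (n.choose k * k.choose (n - 1 - i)) := by
    intro k _
    rw [schroder_term n k hn, Nat.add_choose_eq, Finset.Nat.sum_antidiagonal_eq_sum_range_succ_mk,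
      Finset.mul_sum, Nat.succ_eq_add_one, show n - 1 + 1 = n by omega]
    apply Finset.sum_congr rfl
    intro j _
    ring
  rw [Finset.sum_congr rfl h, Finset.sum_comm]
  apply Finset.sum_congr rfl
  intro i hi
  rw [Finset.mem_range] at hi
  rw [← Finset.mul_sum, sum_choose_mul_choose, show n - (n - 1 - i) = i + 1 by omega,
    show n.choose (n - 1 - i) = n.choose (i + 1) from Nat.choose_symm_of_eq_add (by omega)]
  ring

theorem nar_term_zero (n : ℕ) : ((n + 1).choose 0 : ℤ) * ((n + 1).choose (0 + 1) : ℤ) =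
    (n + 1) * ((n.choose 0 : ℤ) * (n.choose 0 : ℤ)) := by
  simp

theorem nar_term (n j : ℕ) : ((n + 1).choose (j + 1) : ℤ) * ((n + 1).choose (j + 1 + 1) : ℤ) =
    (n + 1) * ((n.choose (j + 1) : ℤ) * (n.choose (j + 1) : ℤ) -
      (n.choose (j + 2) : ℤ) * (n.choose j : ℤ)) := by
  rcases le_or_gt (j + 1) n with h | h
  · have e1 := Nat.choose_succ_right_eq n (j + 1)
    have e2 := Nat.choose_succ_right_eq n j
    have e1' : ((n.choose (j + 2) : ℤ)) * ((j : ℤ) + 2) = (n.choose (j + 1) : ℤ) * ((n : ℤ) - (j + 1)) := by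
      have : (((n - (j + 1) : ℕ)) : ℤ) = (n : ℤ) - (j + 1) := by
        rw [Nat.cast_sub h]; push_cast; ring
      rw [← this]
      exact_mod_cast e1
    have e2' : ((n.choose (j + 1) : ℤ)) * ((j : ℤ) + 1) = (n.choose j : ℤ) * ((n : ℤ) - j) := by
      have : (((n - j : ℕ)) : ℤ) = (n : ℤ) - j := by
        rw [Nat.cast_sub (by omega)]
      rw [← this]
      exact_mod_cast e2
    rw [Nat.choose_succ_succ n (j + 1), Nat.choose_succ_succ n j]
    push_cast
    linear_combination ((n.choose j : ℤ) + n.choose (j + 1)) * e1' -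
      ((n.choose (j + 2) : ℤ) + n.choose (j + 1)) * e2'
  · rw [Nat.choose_eq_zero_of_lt (show n + 1 < j + 1 + 1 by omega),
      Nat.choose_eq_zero_of_lt (show n < j + 1 by omega),
      Nat.choose_eq_zero_of_lt (show n < j + 2 by omega)]
    simp

theorem nar_sum (a : R) (n : ℕ) :
    ∑ i ∈ range (n + 1), ((n + 1).choose i : R) * ((n + 1).choose (i + 1) : R) * a ^ (i + 1) =
      ((n : R) + 1) * (a * (gg a n 0 - a * gg a n 2)) := by
  rw [Finset.sum_range_succ']
  have h : ∀ j ∈ range n, ((n + 1).choose (j + 1) : R) * ((n + 1).choose (j + 1 + 1) : R) *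
      a ^ (j + 1 + 1) = ((n : R) + 1) * (a * ((n.choose (j + 1 + 0) : R) * (n.choose (j + 1) : R) *
      a ^ (j + 1))) - ((n : R) + 1) * (a * a) * ((n.choose (j + 2) : R) * (n.choose j : R) * a ^ j) := by
    intro j _
    have := congrArg (fun z : ℤ => (z : R)) (nar_term n j)
    push_cast at this
    rw [this, add_zero]
    ring
  rw [Finset.sum_congr rfl h, Finset.sum_sub_distrib, ← Finset.mul_sum, ← Finset.mul_sum,
    ← Finset.mul_sum]
  have h0 := congrArg (fun z : ℤ => (z : R)) (nar_term_zero n)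
  push_cast at h0
  have h1 : gg a n 0 = ∑ j ∈ range n, (n.choose (j + 1 + 0) : R) * (n.choose (j + 1) : R) *
      a ^ (j + 1) + 1 := by
    rw [gg, Finset.sum_range_succ']
    simp
  have h2 : gg a n 2 = ∑ j ∈ range n, (n.choose (j + 2) : R) * (n.choose j : R) * a ^ j := by
    rw [gg, Finset.sum_range_succ, Nat.choose_eq_zero_of_lt (show n < n + 2 by omega)]
    simp
  rw [h1, h2, h0]
  simp
  ring

theorem pfSum_smul {n : ℕ} (a : R) (A : Matrix (Fin (2 * n)) (Fin (2 * n)) R) :
    pfSum (n := n) (fun i j => a * A i j) = a ^ n * pfSum A := by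
  unfold pfSum
  rw [Finset.mul_sum]
  apply Finset.sum_congr rfl
  intro σ _
  rw [Finset.prod_mul_distrib, Finset.prod_const, Finset.card_univ, Fintype.card_fin]
  ring

/-- the matrix with unshifted index -/
def matS (n : ℕ) (x : ℕ → R) : Matrix (Fin (2 * n)) (Fin (2 * n)) R :=
  fun i j => (((j : ℕ) : R) - ((i : ℕ) : R)) * x ((i : ℕ) + (j : ℕ))

theorem matS_eq (n : ℕ) (x μ : ℕ → R) (a : R) (h : ∀ m, x (m + 1) = a * μ m) :
    matS n x = fun i j => a * mat n μ i j := by
  ext i j
  simp only [matS, mat]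
  by_cases h0 : (i : ℕ) + (j : ℕ) = 0
  · have hi : (i : ℕ) = 0 := by omega
    have hj : (j : ℕ) = 0 := by omega
    rw [hi, hj]; ring
  · obtain ⟨m, hm⟩ : ∃ m, (i : ℕ) + (j : ℕ) = m + 1 := ⟨(i : ℕ) + j - 1, by omega⟩
    rw [hm, h, Nat.add_sub_cancel]; ring

end Pool.Agent.H148.PfA
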