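import Mathlib

/-!
# The discrete fundamental group of a graph

Homotopy of walks by the moves (Sub), (Ins), (Del), and the group of homotopy classes of closed
walks at a vertex.
-/

set_option autoImplicit false

namespace Pool.Agent.H148.WalkHomotopy

open SimpleGraph

universe u

variable {V : Type u} {G : SimpleGraph V}

/-- A single move between walks with the same end points.
* `sub`: an inner vertex `b` with neighbours `a`, `c` on the walk is replaced by any common
  neighbour `b'` of `a` and `c`;
* `ins`: a vertex `a` of the walk is replaced by `a w a`, with `w` a neighbour of `a`;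
* `del`: a stretch `a w a` of the walk is replaced by `a`. -/
inductive Move (G : SimpleGraph V) : {u v : V} → G.Walk u v → G.Walk u v → Prop
  | sub {u a b b' c v : V} (p : G.Walk u a) (hab : G.Adj a b) (hbc : G.Adj b c)
      (hab' : G.Adj a b') (hbc' : G.Adj b' c) (q : G.Walk c v) :
      Move G (p.append (.cons hab (.cons hbc q))) (p.append (.cons hab' (.cons hbc' q)))
  | ins {u a w v : V} (p : G.Walk u a) (haw : G.Adj a w) (hwa : G.Adj w a) (q : G.Walk a v) :
      Move G (p.append q) (p.append (.cons haw (.cons hwa q)))
  | del {u a w v : V} (p : G.Walk u a) (haw : G.Adj a w) (hwa : G.Adj w a) (q : G.Walk a v) :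
      Move G (p.append (.cons haw (.cons hwa q))) (p.append q)

/-- Two walks are homotopic if one can be turned into the other by finitely many moves. -/
def Homotopic {u v : V} (p q : G.Walk u v) : Prop := Relation.ReflTransGen (Move G) p q

lemma Move.symm {u v : V} {p q : G.Walk u v} (h : Move G p q) : Move G q p := by
  cases h with
  | sub p hab hbc hab' hbc' q => exact .sub p hab' hbc' hab hbc q
  | ins p haw hwa q => exact .del p haw hwa q
  | del p haw hwa q => exact .ins p haw hwa q

namespace Homotopic

lemma refl {u v : V} (p : G.Walk u v) : Homotopic p p := Relation.ReflTransGen.refl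

lemma symm {u v : V} {p q : G.Walk u v} (h : Homotopic p q) : Homotopic q p := by
  induction h with
  | refl => exact Relation.ReflTransGen.refl
  | tail _ h2 ih => exact Relation.ReflTransGen.head h2.symm ih

lemma trans {u v : V} {p q r : G.Walk u v} (h : Homotopic p q) (h' : Homotopic q r) :
    Homotopic p r := Relation.ReflTransGen.trans h h'

lemma of_move {u v : V} {p q : G.Walk u v} (h : Move G p q) : Homotopic p q :=
  Relation.ReflTransGen.single h

lemma of_eq {u v : V} {p q : G.Walk u v} (h : p = q) : Homotopic p q := h ▸ refl p

lemma append_left {u v w : V} (r : G.Walk u v) {p q : G.Walk v w} (h : Homotopic p q) :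
    Homotopic (r.append p) (r.append q) := by
  induction h with
  | refl => exact refl _
  | tail _ h2 ih =>
    refine ih.trans (of_move ?_)
    cases h2 with
    | sub p hab hbc hab' hbc' q =>
      rw [Walk.append_assoc, Walk.append_assoc]
      exact .sub _ hab hbc hab' hbc' q
    | ins p haw hwa q =>
      rw [Walk.append_assoc, Walk.append_assoc]
      exact .ins _ haw hwa q
    | del p haw hwa q =>
      rw [Walk.append_assoc, Walk.append_assoc]
      exact .del _ haw hwa q

lemma append_right {u v w : V} {p q : G.Walk u v} (h : Homotopic p q) (r : G.Walk v w) :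
    Homotopic (p.append r) (q.append r) := by
  induction h with
  | refl => exact refl _
  | tail _ h2 ih =>
    refine ih.trans (of_move ?_)
    cases h2 with
    | sub p hab hbc hab' hbc' q =>
      rw [← Walk.append_assoc, ← Walk.append_assoc]
      exact .sub _ hab hbc hab' hbc' (q.append r)
    | ins p haw hwa q =>
      rw [← Walk.append_assoc, ← Walk.append_assoc]
      exact .ins _ haw hwa (q.append r)
    | del p haw hwa q =>
      rw [← Walk.append_assoc, ← Walk.append_assoc]
      exact .del _ haw hwa (q.append r)

lemma append {u v w : V} {p p' : G.Walk u v} {q q' : G.Walk v w} (h : Homotopic p p')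
    (h' : Homotopic q q') : Homotopic (p.append q) (p'.append q') :=
  (append_right h q).trans (append_left p' h')

lemma cons {u v w : V} (e : G.Adj u v) {p q : G.Walk v w} (h : Homotopic p q) :
    Homotopic (Walk.cons e p) (Walk.cons e q) :=
  append_left (Walk.cons e Walk.nil) h

lemma reverse {u v : V} {p q : G.Walk u v} (h : Homotopic p q) :
    Homotopic p.reverse q.reverse := by
  induction h with
  | refl => exact refl _
  | tail _ h2 ih =>
    refine ih.trans (of_move ?_)
    cases h2 with
    | sub p hab hbc hab' hbc' q =>
      simp only [Walk.reverse_append, Walk.reverse_cons, Walk.append_assoc, Walk.cons_append,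
        Walk.nil_append]
      rw [← Walk.append_assoc, ← Walk.append_assoc, ← Walk.append_assoc, ← Walk.append_assoc]
      exact .sub _ hbc.symm hab.symm hbc'.symm hab'.symm _
    | ins p haw hwa q =>
      simp only [Walk.reverse_append, Walk.reverse_cons, Walk.append_assoc, Walk.cons_append,
        Walk.nil_append]
      rw [← Walk.append_assoc, ← Walk.append_assoc]
      exact .ins _ hwa.symm haw.symm _
    | del p haw hwa q =>
      simp only [Walk.reverse_append, Walk.reverse_cons, Walk.append_assoc, Walk.cons_append,
        Walk.nil_append]
      rw [← Walk.append_assoc, ← Walk.append_assoc]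
      exact .del _ hwa.symm haw.symm _

/-- The move (Sub) at the beginning of a walk. -/
lemma sub {a b b' c v : V} (hab : G.Adj a b) (hbc : G.Adj b c)
    (hab' : G.Adj a b') (hbc' : G.Adj b' c) (q : G.Walk c v) :
    Homotopic (Walk.cons hab (Walk.cons hbc q)) (Walk.cons hab' (Walk.cons hbc' q)) :=
  of_move (Move.sub Walk.nil hab hbc hab' hbc' q)

/-- The move (Del) at the beginning of a walk. -/
lemma del {a w v : V} (haw : G.Adj a w) (hwa : G.Adj w a) (q : G.Walk a v) :
    Homotopic (Walk.cons haw (Walk.cons hwa q)) q :=
  of_move (Move.del Walk.nil haw hwa q)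

lemma reverse_append_self {u v : V} (p : G.Walk u v) :
    Homotopic (p.reverse.append p) Walk.nil := by
  induction p with
  | nil => exact refl _
  | cons h p ih =>
    rw [Walk.reverse_cons, ← Walk.append_assoc]
    refine (append_left p.reverse ?_).trans ih
    exact del h.symm h p

end Homotopic

/-- Homotopy as a setoid on the walks from `u` to `v`. -/
def homotopySetoid (G : SimpleGraph V) (u v : V) : Setoid (G.Walk u v) where
  r := Homotopic
  iseqv := ⟨Homotopic.refl, Homotopic.symm, Homotopic.trans⟩

/-- The discrete fundamental group: homotopy classes of closed walks at `v`. -/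
def Pi1 (G : SimpleGraph V) (v : V) : Type u := Quotient (homotopySetoid G v v)

namespace Pi1

/-- The class of a closed walk. -/
def mk {v : V} (p : G.Walk v v) : Pi1 G v := Quotient.mk (homotopySetoid G v v) p

lemma mk_eq_mk {v : V} {p q : G.Walk v v} : mk p = mk q ↔ Homotopic p q := by
  letI := homotopySetoid G v v
  exact Quotient.eq (r := homotopySetoid G v v)

lemma exists_rep {v : V} (x : Pi1 G v) : ∃ p : G.Walk v v, mk p = x := Quotient.exists_rep x

/-- The product is concatenation, the inverse is reversal. -/
instance (G : SimpleGraph V) (v : V) : Group (Pi1 G v) where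
  mul x y := Quotient.map₂ (fun p q => p.append q) (fun _ _ h _ _ h' => Homotopic.append h h') x y
  one := mk Walk.nil
  inv x := Quotient.map (fun p => p.reverse) (fun _ _ h => Homotopic.reverse h) x
  mul_assoc x y z := by
    induction x using Quotient.inductionOn
    induction y using Quotient.inductionOn
    induction z using Quotient.inductionOn
    exact congrArg mk (Walk.append_assoc _ _ _).symm
  one_mul x := by
    induction x using Quotient.inductionOn
    rfl
  mul_one x := by
    induction x using Quotient.inductionOn
    exact congrArg mk (Walk.append_nil _)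
  inv_mul_cancel x := by
    induction x using Quotient.inductionOn
    exact mk_eq_mk.2 (Homotopic.reverse_append_self _)

lemma mk_mul_mk {v : V} (p q : G.Walk v v) : mk p * mk q = mk (p.append q) := rfl

lemma mk_inv {v : V} (p : G.Walk v v) : (mk p)⁻¹ = mk p.reverse := rfl

lemma mk_nil {v : V} : mk (Walk.nil : G.Walk v v) = 1 := rfl

end Pi1

end Pool.Agent.H148.WalkHomotopy
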